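import Pool.Agent.W_2cf66e_P.DefsP
import Pool.Agent.W_2cf66e_h23.LuA14

/-!
# MP_2cf66e_nt, theorem P, leaf P18: the pieces of a set of finite volume (helper35)
-/

set_option autoImplicit false

noncomputable section

open MeasureTheory Set Filter Topology

namespace Pool.Agent.WSP

variable {n : ℕ}

/-- One cell (text of `cell_bdd`). -/
theorem piece35 {D : Set (Fin (n + 1) → ℝ)} (hD : DS D) (hv : volume D < ⊤)
    (hfib : ∀ x : Fin n → ℝ, IsOpen (fib D x) ∧ OrdConnected (fib D x)) :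
    ∃ (C : Set (Fin n → ℝ)) (c : (Fin n → ℝ) → ℝ),
      (DS C ∧ DF c ∧ (∀ x ∈ C, 0 < c x) ∧ IntegrableOn c C) ∧
      (volume D).toReal = ∫ x in C, c x := by
  classical
  obtain ⟨F, hF⟩ : ∃ F : (Fin n → ℝ) → ℝ, F = fun x => sSup (fib D x) - sInf (fib D x) := ⟨_, rfl⟩
  have hFd : DF F := hF ▸ (DF.fibSup hD).sub (DF.fibInf hD)
  obtain ⟨C, hCdef⟩ : ∃ C : Set (Fin n → ℝ), C = {x | (fib D x).Nonempty ∧ 0 < F x} := ⟨_, rfl⟩
  have hC : DS C := by
    have h0 : DF (fun _ : Fin n → ℝ => ((0 : ℤ) : ℝ)) := DF.const 0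
    have h2 := DF.lt h0 hFd
    simp only [Int.cast_zero] at h2
    rw [hCdef]
    exact (DS.nonemptyFib hD).and h2
  have hvf := vol_fib hD.meas
  have hfin : ∀ᵐ x : Fin n → ℝ, volume (fib D x) < ⊤ :=
    ae_lt_top (meas_fib hD.meas) (by rw [← hvf]; exact hv.ne)
  have hval : volume D = ∫⁻ x in C, ENNReal.ofReal (F x) := by
    rw [hvf, ← lintegral_indicator hC.meas]
    refine lintegral_congr_ae ?_
    filter_upwards [hfin] with x hx
    rw [vol_open (hfib x).1 (hfib x).2 hx]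
    by_cases h : x ∈ C
    · rw [Set.indicator_of_mem h]
      rw [hCdef] at h
      have h' : (fib D x).Nonempty ∧ 0 < sSup (fib D x) - sInf (fib D x) := by
        rw [hF] at h
        exact h
      rw [if_pos h', hF]
    · rw [Set.indicator_of_notMem h, if_neg]
      intro h1
      apply h
      rw [hCdef, hF]
      exact h1
  have hFpos : ∀ x ∈ C, 0 < F x := by
    rw [hCdef]
    exact fun x hx => hx.2
  have hm : AEStronglyMeasurable F (volume.restrict C) := hFd.meas.aestronglyMeasurable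
  have hp : 0 ≤ᵐ[volume.restrict C] F := by
    filter_upwards [ae_restrict_mem hC.meas] with x hx
    exact (hFpos x hx).le
  refine ⟨C, F, ⟨hC, hFd, hFpos, ?_⟩, ?_⟩
  · refine (lintegral_ofReal_ne_top_iff_integrable hm hp).1 ?_
    rw [← hval]
    exact hv.ne
  · rw [integral_eq_lintegral_of_nonneg_ae hp hm, hval]

/-! P18: the pieces. -/
theorem pieces (S : Set (Fin (n + 1) → ℝ)) (hS : DS S) (hv : volume S < ⊤) :
    ∃ (I : ℕ) (C : Fin I → Set (Fin n → ℝ)) (c : Fin I → (Fin n → ℝ) → ℝ),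
      (∀ i, DS (C i) ∧ DF (c i) ∧ (∀ x ∈ C i, 0 < c i x) ∧ IntegrableOn (c i) (C i)) ∧
      (volume S).toReal = ∑ i, ∫ x in C i, c i x := by
  classical
  have hone : DF (fun _ : Fin (n + 1) → ℝ => ((1 : ℤ) : ℝ)) := DF.const 1
  obtain ⟨I, D, h1, h2, h3⟩ := cells S hS _ _ hone hone
  have hDv : ∀ i, volume (D i) < ⊤ := fun i =>
    lt_of_le_of_lt (measure_mono (h1 i).2.1) hv
  have h4 : volume S = ∑ i, volume (D i) := by
    have h5 : volume S = volume (⋃ i, D i) := by
      refine le_antisymm ?_ (measure_mono (Set.iUnion_subset fun i => (h1 i).2.1))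
      calc volume S ≤ volume ((⋃ i, D i) ∪ (S \ ⋃ i, D i)) := by
            refine measure_mono fun z hz => ?_
            by_cases h : z ∈ ⋃ i, D i
            · exact Or.inl h
            · exact Or.inr ⟨hz, h⟩
        _ ≤ volume (⋃ i, D i) + volume (S \ ⋃ i, D i) := measure_union_le _ _
        _ = volume (⋃ i, D i) := by rw [h3, add_zero]
    rw [h5, measure_iUnion h2 fun i => (h1 i).1.meas, tsum_fintype]
  choose C c hC hc using fun i => piece35 (h1 i).1 (hDv i) fun x =>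
    ⟨((h1 i).2.2.1 x).1, ((h1 i).2.2.1 x).2.1⟩
  refine ⟨I, C, c, hC, ?_⟩
  rw [h4, ENNReal.toReal_sum fun i _ => (hDv i).ne]
  exact Finset.sum_congr rfl fun i _ => hc i

end Pool.Agent.WSP
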