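import Pool.Agent.W_2cf66e_P.DefsP

/-!
# MP_2cf66e_nt, theorem P, leaf P19: a small rational cube (helper57)
-/

set_option autoImplicit false

noncomputable section

open MeasureTheory Set Filter Topology

namespace Pool.Agent.WSP

theorem cont57 {m : ℕ} (f : MvPolynomial (Fin m) ℚ) :
    Continuous fun z : Fin m → ℝ => (MvPolynomial.aeval z f : ℝ) := by
  induction f using MvPolynomial.induction_on with
  | C a => simpa using continuous_const
  | add p q hp hq =>
    simp only [map_add]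
    exact hp.add hq
  | mul_X p j hp =>
    simp only [map_mul, MvPolynomial.aeval_X]
    exact hp.mul (continuous_apply j)

/-- a semialgebraic set and its complement are open off the zeros of one polynomial -/
theorem sa_open57 {m : ℕ} (S : Set (Fin m → ℝ)) (hS : Pool.Agent.CVol.IsSA S) :
    ∃ p : MvPolynomial (Fin m) ℚ, p ≠ 0 ∧
      IsOpen (S ∩ {z | (MvPolynomial.aeval z p : ℝ) ≠ 0}) ∧
      IsOpen (Sᶜ ∩ {z | (MvPolynomial.aeval z p : ℝ) ≠ 0}) := by
  induction hS with
  | pos f =>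
    by_cases hf : f = 0
    · subst hf
      refine ⟨1, one_ne_zero, ?_, ?_⟩ <;> simp
    · refine ⟨f, hf, ?_, ?_⟩
      · have h1 : {x : Fin m → ℝ | 0 < (MvPolynomial.aeval x f : ℝ)} ∩
            {z | (MvPolynomial.aeval z f : ℝ) ≠ 0} =
            {x | 0 < (MvPolynomial.aeval x f : ℝ)} := by
          ext z
          simp only [mem_inter_iff, mem_ofPred_eq, and_iff_left_iff_imp]
          exact fun h => h.ne'
        rw [h1]
        exact isOpen_lt continuous_const (cont57 f)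
      · have h1 : {x : Fin m → ℝ | 0 < (MvPolynomial.aeval x f : ℝ)}ᶜ ∩
            {z | (MvPolynomial.aeval z f : ℝ) ≠ 0} =
            {x | (MvPolynomial.aeval x f : ℝ) < 0} := by
          ext z
          simp only [mem_inter_iff, mem_compl_iff, mem_ofPred_eq, not_lt]
          exact ⟨fun h => lt_of_le_of_ne h.1 h.2, fun h => ⟨h.le, h.ne⟩⟩
        rw [h1]
        exact isOpen_lt (cont57 f) continuous_const
  | compl _ ih =>
    obtain ⟨p, h0, h1, h2⟩ := ih
    exact ⟨p, h0, h2, by rwa [compl_compl]⟩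
  | @inter s t _ _ ihs iht =>
    obtain ⟨p, h0, h1, h2⟩ := ihs
    obtain ⟨q, k0, k1, k2⟩ := iht
    have hp : IsOpen {z : Fin m → ℝ | (MvPolynomial.aeval z p : ℝ) ≠ 0} :=
      isOpen_ne_fun (cont57 p) continuous_const
    have hq : IsOpen {z : Fin m → ℝ | (MvPolynomial.aeval z q : ℝ) ≠ 0} :=
      isOpen_ne_fun (cont57 q) continuous_const
    have e : {z : Fin m → ℝ | (MvPolynomial.aeval z (p * q) : ℝ) ≠ 0} =
        {z | (MvPolynomial.aeval z p : ℝ) ≠ 0} ∩ {z | (MvPolynomial.aeval z q : ℝ) ≠ 0} := by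
      ext z
      simp
    refine ⟨p * q, mul_ne_zero h0 k0, ?_, ?_⟩
    · have : s ∩ t ∩ {z : Fin m → ℝ | (MvPolynomial.aeval z (p * q) : ℝ) ≠ 0} =
          (s ∩ {z | (MvPolynomial.aeval z p : ℝ) ≠ 0}) ∩
            (t ∩ {z | (MvPolynomial.aeval z q : ℝ) ≠ 0}) := by
        rw [e]
        ext z
        simp only [mem_inter_iff]
        tauto
      rw [this]
      exact h1.inter k1
    · have : (s ∩ t)ᶜ ∩ {z : Fin m → ℝ | (MvPolynomial.aeval z (p * q) : ℝ) ≠ 0} =
          ((sᶜ ∩ {z | (MvPolynomial.aeval z p : ℝ) ≠ 0}) ∩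
            {z | (MvPolynomial.aeval z q : ℝ) ≠ 0}) ∪
          ((tᶜ ∩ {z | (MvPolynomial.aeval z q : ℝ) ≠ 0}) ∩
            {z | (MvPolynomial.aeval z p : ℝ) ≠ 0}) := by
        rw [e]
        ext z
        simp only [mem_inter_iff, mem_compl_iff, mem_union]
        tauto
      rw [this]
      exact (h2.inter hq).union (k2.inter hp)

/-! P19 (LpT.lean), over P12 or `null_rat`: a small rational cube. -/
theorem small_cube {m : ℕ} (S : Set (Fin m → ℝ)) (hS : Pool.Agent.CVol.IsSA S)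
    (hv : volume S ≠ 0) : ∃ (q : ℚ) (Q : Set (Fin m → ℝ)), 0 < q ∧ Pool.Agent.CVol.IsSA Q ∧
      Q ⊆ S ∧ volume Q = ENNReal.ofReal q := by
  obtain ⟨p, hp0, ho, -⟩ := sa_open57 S hS
  have hne : (S ∩ {z | (MvPolynomial.aeval z p : ℝ) ≠ 0}).Nonempty := by
    by_contra hcon
    rw [not_nonempty_iff_eq_empty] at hcon
    refine hv (measure_mono_null (fun z hz => ?_) (Pool.Agent.CVol.null_rat p hp0))
    by_contra h
    have : z ∈ S ∩ {z | (MvPolynomial.aeval z p : ℝ) ≠ 0} := ⟨hz, h⟩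
    rw [hcon] at this
    exact this
  obtain ⟨z, hz⟩ := hne
  obtain ⟨ε, hε, hb⟩ := Metric.isOpen_iff.1 ho z hz
  obtain ⟨s, hs0, hs1⟩ := exists_rat_btwn (half_pos hε)
  have hs0' : (0 : ℝ) < s := hs0
  choose a ha0 ha1 using fun i : Fin m => exists_rat_btwn
    (show z i < z i + ε / 2 by linarith)
  have hQ : {u : Fin m → ℝ | ∀ i, (a i : ℝ) < u i ∧ u i < a i + s} =
      Set.pi univ (fun i => Ioo (a i : ℝ) (a i + s)) := by
    ext u
    simp
  refine ⟨s ^ m, {u : Fin m → ℝ | ∀ i, (a i : ℝ) < u i ∧ u i < a i + s}, ?_, ?_, ?_, ?_⟩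
  · exact pow_pos (by exact_mod_cast hs0') _
  · have h1 : {u : Fin m → ℝ | ∀ i, (a i : ℝ) < u i ∧ u i < a i + s} =
        ⋂ i, ({u : Fin m → ℝ | 0 < (MvPolynomial.aeval u
          (MvPolynomial.X i - MvPolynomial.C (a i) : MvPolynomial (Fin m) ℚ) : ℝ)} ∩
          {u : Fin m → ℝ | 0 < (MvPolynomial.aeval u
          (MvPolynomial.C (a i + s) - MvPolynomial.X i : MvPolynomial (Fin m) ℚ) : ℝ)}) := by
      ext u
      simp only [mem_ofPred_eq, mem_iInter, mem_inter_iff, map_sub, MvPolynomial.aeval_X,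
        MvPolynomial.aeval_C, sub_pos]
      simp
    rw [h1]
    exact Pool.Agent.CVol.IsSA.iInter _ fun i =>
      (Pool.Agent.CVol.IsSA.pos _).inter (Pool.Agent.CVol.IsSA.pos _)
  · intro u hu
    refine (hb ?_).1
    rw [Metric.mem_ball, dist_pi_lt_iff hε]
    intro i
    have h1 := hu i
    have h2 := ha0 i
    have h3 := ha1 i
    rw [Real.dist_eq, abs_lt]
    constructor <;> linarith [h1.1, h1.2]
  · rw [hQ, Real.volume_pi_Ioo]
    simp only [add_sub_cancel_left, Finset.prod_const, Finset.card_univ, Fintype.card_fin]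
    rw [← ENNReal.ofReal_pow hs0'.le]
    push_cast
    rfl

end Pool.Agent.WSP
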