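import Pool.Agent.W_2cf66e_P.LpR
import Pool.Agent.W_2cf66e_P.LpS
import Pool.Agent.W_2cf66e_P.LpT
import Pool.Agent.W_2cf66e_h23.LuA1
import Pool.Agent.W_2cf66e_h23.LuA2a

/-!
# MP_2cf66e_nt, theorem P: volumes (helper23)
-/

set_option autoImplicit false

noncomputable section

open MeasureTheory Set Filter Topology

namespace Pool.Agent.WSP

variable {n : ℕ}

/-- Volumes of semialgebraic sets are integrals of nonnegative rational functions in the same
dimension. -/
theorem vol_pi {x : ℝ} (hx : 0 ≤ x) (S : Set (Fin (n + 1) → ℝ)) (hS : Pool.Agent.CVol.IsSA S)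
    (hv : volume S = ENNReal.ofReal x) : PI (n + 1) x := by
  rcases hx.eq_or_lt with h0 | h0
  · rw [← h0]
    exact PI_zero _
  obtain ⟨q, Q, hq, hQ, hQS, hQv⟩ := small_cube S hS (by rw [hv]; simpa using h0)
  have hqr : (0 : ℝ) < q := by exact_mod_cast hq
  have hQm : MeasurableSet Q := (isSA_DS hQ).meas
  have hD : Pool.Agent.CVol.IsSA (S \ Q) := hS.inter hQ.compl
  have hqx : (q : ℝ) ≤ x := by
    have h1 := measure_mono (μ := (volume : Measure (Fin (n + 1) → ℝ))) hQS
    rw [hQv, hv] at h1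
    exact (ENNReal.ofReal_le_ofReal_iff hx).1 h1
  have hDv : volume (S \ Q) = ENNReal.ofReal (x - q) := by
    rw [measure_diff hQS hQm.nullMeasurableSet (by rw [hQv]; exact ENNReal.ofReal_ne_top), hv, hQv,
      ENNReal.ofReal_sub _ hqr.le]
  obtain ⟨I, C, c, h1, h2⟩ := pieces (S \ Q) (isSA_DS hD) (by rw [hDv]; exact ENNReal.ofReal_lt_top)
  rw [hDv, ENNReal.toReal_ofReal (sub_nonneg.2 hqx)] at h2
  rcases Nat.eq_zero_or_pos I with hI | hI
  · subst hI
    rw [Finset.univ_eq_empty, Finset.sum_empty] at h2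
    have h3 : x = q := by linarith
    rw [h3]
    exact PI_rat q hq.le
  · have hIq : (0 : ℚ) < I := by exact_mod_cast hI
    have hIr : (I : ℝ) ≠ 0 := by exact_mod_cast hI.ne'
    have h3 : x = ∑ i, ((∫ x in C i, c i x) + ((q / I : ℚ) : ℝ)) := by
      rw [Finset.sum_add_distrib, ← h2, Finset.sum_const, Finset.card_univ, Fintype.card_fin,
        nsmul_eq_mul]
      push_cast
      field_simp
      ring
    rw [h3]
    exact PI.sum _ fun i => cell_pi (C i) (c i) (h1 i).1 (h1 i).2.1 (h1 i).2.2.1 (h1 i).2.2.2 _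
      (div_pos hq hIq)

end Pool.Agent.WSP
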