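import Pool.Agent.W_2cf66e_h59.FinR

/-!
# MP_2cf66e_nt: reciprocals of one integer polynomial, same dimension (helper23, from the text of
helper59)
-/

set_option autoImplicit false

noncomputable section

open MeasureTheory MvPolynomial

namespace Pool.Agent.R59

/-- The denominator. -/
def GU {n : ℕ} (u w : MvPolynomial (Fin (n + 1)) ℤ) : MvPolynomial (Fin (n + 2)) ℤ :=
  (1 + (rename Fin.succ u) ^ 2 * X 0 ^ 2) * ((1 - rename Fin.succ w * X 0 ^ 2) ^ 2 + X 0 ^ 2)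

theorem GU_eval {n : ℕ} (u w : MvPolynomial (Fin (n + 1)) ℤ) (z : Fin (n + 2) → ℝ) :
    (aeval z (1 : MvPolynomial (Fin (n + 2)) ℤ) : ℝ) / aeval z (GU u w) =
      rc (aeval (Fin.tail z) u) (aeval (Fin.tail z) w) (z 0) := by
  unfold GU
  simp only [map_mul, map_add, map_sub, map_one, map_pow, aeval_X, aeval_rename]
  rfl

theorem uw_of_ps {n : ℕ} {x : ℝ} (A B : MvPolynomial (Fin (n + 1)) ℤ)
    (hAB : ∀ z : Fin (n + 1) → ℝ, 2 ≤ (aeval z A : ℝ) ∧ 2 * (aeval z A : ℝ) ≤ aeval z B)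
    (hi : Integrable (fun z : Fin (n + 1) → ℝ => (aeval z A : ℝ) / aeval z B))
    (hv : ∫ z : Fin (n + 1) → ℝ, (aeval z A : ℝ) / aeval z B = Real.pi * x) :
    ∃ u w : MvPolynomial (Fin (n + 1)) ℤ,
      (∀ z : Fin (n + 1) → ℝ, 1 ≤ (aeval z u : ℝ) ∧ (aeval z u : ℝ) ≤ aeval z w) ∧
      Integrable (fun z : Fin (n + 2) → ℝ =>
        (aeval z (1 : MvPolynomial (Fin (n + 2)) ℤ) : ℝ) / aeval z (GU u w)) ∧
      ∫ z : Fin (n + 2) → ℝ, (aeval z (1 : MvPolynomial (Fin (n + 2)) ℤ) : ℝ) /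
        aeval z (GU u w) = Real.pi ^ 2 * x := by
  have hu : ∀ z : Fin (n + 1) → ℝ, (aeval z (B - A) : ℝ) = aeval z B - aeval z A :=
    fun z => by rw [map_sub]
  have hw : ∀ z : Fin (n + 1) → ℝ, (aeval z ((B - A) * (A - 1)) : ℝ) =
      (aeval z B - aeval z A) * (aeval z A - 1) := fun z => by
    rw [map_mul, map_sub, map_sub, map_one]
  have hge : ∀ z : Fin (n + 1) → ℝ, 1 ≤ (aeval z (B - A) : ℝ) ∧
      (aeval z (B - A) : ℝ) ≤ aeval z ((B - A) * (A - 1)) := by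
    intro z
    rw [hu, hw]
    obtain ⟨h1, h2⟩ := hAB z
    constructor
    · linarith
    · nlinarith
  have hfr : ∀ z : Fin (n + 1) → ℝ, ((aeval z (B - A) : ℝ) + aeval z ((B - A) * (A - 1))) /
      ((aeval z (B - A) : ℝ) ^ 2 + aeval z (B - A) + aeval z ((B - A) * (A - 1))) =
      (aeval z A : ℝ) / aeval z B := by
    intro z
    rw [hu, hw]
    obtain ⟨h1, h2⟩ := hAB z
    have h3 : (0 : ℝ) < aeval z B - aeval z A := by linarith
    have h4 : (0 : ℝ) < aeval z B := by linarith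
    rw [div_eq_div_iff (by nlinarith [mul_pos h3 h4]) h4.ne']
    ring
  obtain ⟨hii, hvv⟩ := rec_prod (fun z : Fin (n + 1) → ℝ => (aeval z (B - A) : ℝ))
    (fun z => (aeval z ((B - A) * (A - 1)) : ℝ)) (cont59 _) (cont59 _) hge
  simp only [hfr] at hii hvv
  refine ⟨B - A, (B - A) * (A - 1), hge, ?_, ?_⟩
  · simp only [GU_eval]
    exact hii.2 hi
  · simp only [GU_eval]
    rw [hvv, hv]
    ring

theorem uw_back {n : ℕ} {x : ℝ} (u w : MvPolynomial (Fin (n + 1)) ℤ)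
    (h : ∀ z : Fin (n + 1) → ℝ, 1 ≤ (aeval z u : ℝ) ∧ (aeval z u : ℝ) ≤ aeval z w)
    (hi : Integrable (fun z : Fin (n + 2) → ℝ =>
      (aeval z (1 : MvPolynomial (Fin (n + 2)) ℤ) : ℝ) / aeval z (GU u w)))
    (hv : ∫ z : Fin (n + 2) → ℝ, (aeval z (1 : MvPolynomial (Fin (n + 2)) ℤ) : ℝ) /
      aeval z (GU u w) = Real.pi ^ 2 * x) :
    ∃ P Q : MvPolynomial (Fin (n + 1)) ℚ,
      Integrable (fun z : Fin (n + 1) → ℝ => (aeval z P : ℝ) / aeval z Q) ∧
      ∫ z : Fin (n + 1) → ℝ, (aeval z P : ℝ) / aeval z Q = Real.pi * x := by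
  obtain ⟨hii, hvv⟩ := rec_prod (fun z : Fin (n + 1) → ℝ => (aeval z u : ℝ))
    (fun z => (aeval z w : ℝ)) (cont59 _) (cont59 _) h
  simp only [GU_eval] at hi hv
  have e : ∀ z : Fin (n + 1) → ℝ,
      (aeval z (MvPolynomial.map (algebraMap ℤ ℚ) (u + w)) : ℝ) /
        aeval z (MvPolynomial.map (algebraMap ℤ ℚ) (u ^ 2 + u + w)) =
      ((aeval z u : ℝ) + aeval z w) / ((aeval z u : ℝ) ^ 2 + aeval z u + aeval z w) := by
    intro z
    rw [map_int61, map_int61]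
    simp only [map_add, map_pow]
  refine ⟨MvPolynomial.map (algebraMap ℤ ℚ) (u + w),
    MvPolynomial.map (algebraMap ℤ ℚ) (u ^ 2 + u + w), ?_, ?_⟩
  · exact (hii.1 hi).congr (Filter.Eventually.of_forall fun z => (e z).symm)
  · simp only [e]
    rw [hvv] at hv
    have h1 : Real.pi ^ 2 * x = Real.pi * (Real.pi * x) := by ring
    rw [h1] at hv
    exact mul_left_cancel₀ Real.pi_ne_zero hv

end Pool.Agent.R59
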