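import Pool.Agent.W_2cf66e_P.DefsP

/-!
# MP_2cf66e_nt, theorem P, leaf P10: closure of the nonnegative integrals (helper6)
-/

set_option autoImplicit false

noncomputable section

open MeasureTheory Set Filter Topology

namespace Pool.Agent.WSP

variable {n K : ℕ}

theorem cont_nonneg6 {m : ℕ} {f : (Fin m → ℝ) → ℝ} (hf : Continuous f) (h : ∀ᵐ z, 0 ≤ f z) :
    ∀ z, 0 ≤ f z := by
  have h1 : (fun z => max (f z) 0) =ᵐ[volume] f := by
    filter_upwards [h] with z hz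
    exact max_eq_left hz
  have h2 : (fun z => max (f z) 0) = f :=
    ((hf.max continuous_const).ae_eq_iff_eq volume hf).1 h1
  intro z
  rw [← h2]
  exact le_max_right _ _

theorem PI.of_ar {m : ℕ} {g : (Fin m → ℝ) → ℝ} {a : ℝ} (hg : AR g) (hp : ∀ᵐ z, 0 ≤ g z)
    (hi : Integrable g) (h : ∫ z, g z = Real.pi * a) : PI m a := by
  obtain ⟨P, Q, hQ, h1⟩ := hg
  have e : ∀ z : Fin m → ℝ, (MvPolynomial.aeval z (P * Q) : ℝ) / MvPolynomial.aeval z (Q ^ 2) =
      (MvPolynomial.aeval z P : ℝ) / MvPolynomial.aeval z Q := by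
    intro z
    rw [map_mul, map_pow]
    rcases eq_or_ne (MvPolynomial.aeval z Q : ℝ) 0 with h0 | h0
    · rw [h0]
      simp
    · field_simp
  have h2 : g =ᵐ[volume] fun z : Fin m → ℝ =>
      (MvPolynomial.aeval z (P * Q) : ℝ) / MvPolynomial.aeval z (Q ^ 2) := by
    filter_upwards [h1] with z hz
    rw [e z, hz]
  refine ⟨P * Q, Q ^ 2, fun z => ⟨?_, ?_⟩, hi.congr h2, ?_⟩
  · have hc : Continuous fun z : Fin m → ℝ => (MvPolynomial.aeval z (P * Q) : ℝ) := cont_aeval3 _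
    refine cont_nonneg6 hc ?_ z
    filter_upwards [h1, hp, ae_ne3 Q hQ] with z h3 h4 h5
    rw [h3] at h4
    have h6 : (MvPolynomial.aeval z (P * Q) : ℝ) = (MvPolynomial.aeval z P : ℝ) /
        MvPolynomial.aeval z Q * (MvPolynomial.aeval z Q : ℝ) ^ 2 := by
      rw [map_mul]
      field_simp
    rw [h6]
    exact mul_nonneg h4 (sq_nonneg _)
  · rw [map_pow]
    exact sq_nonneg _
  · rw [← integral_congr_ae h2, h]

theorem PI.exists6 {m : ℕ} {a : ℝ} (ha : PI m a) :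
    ∃ g : (Fin m → ℝ) → ℝ, AR g ∧ (∀ z, 0 ≤ g z) ∧ Integrable g ∧ ∫ z, g z = Real.pi * a := by
  obtain ⟨P, Q, h0, hi, h⟩ := ha
  by_cases hQ : Q = 0
  · refine ⟨fun _ => 0, by simpa using AR.const3 (m := m) 0, fun _ => le_rfl,
      integrable_zero _ _ _, ?_⟩
    rw [← h, hQ]
    simp
  · exact ⟨_, ⟨P, Q, hQ, Eventually.of_forall fun z => rfl⟩,
      fun z => div_nonneg (h0 z).1 (h0 z).2, hi, h⟩

theorem PI.add {m : ℕ} {a b : ℝ} (ha : PI m a) (hb : PI m b) : PI m (a + b) := by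
  obtain ⟨f, hf, hf0, hfi, hf2⟩ := ha.exists6
  obtain ⟨g, hg, hg0, hgi, hg2⟩ := hb.exists6
  refine PI.of_ar (hf.add hg) (Eventually.of_forall fun z => add_nonneg (hf0 z) (hg0 z))
    (hfi.add hgi) ?_
  rw [integral_add hfi hgi, hf2, hg2, mul_add]

theorem PI.smul {m : ℕ} {a : ℝ} (q : ℚ) (hq : 0 ≤ q) (ha : PI m a) : PI m ((q : ℝ) * a) := by
  obtain ⟨f, hf, hf0, hfi, hf2⟩ := ha.exists6
  have hq' : (0 : ℝ) ≤ q := by exact_mod_cast hq
  refine PI.of_ar ((AR.const3 q).mul hf) (Eventually.of_forall fun z => mul_nonneg hq' (hf0 z))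
    (hfi.const_mul _) ?_
  rw [integral_const_mul, hf2]
  ring

theorem PI.zero6 {m : ℕ} : PI m 0 := by
  refine PI.of_ar (g := fun _ => 0) (by simpa using AR.const3 (m := m) 0)
    (Eventually.of_forall fun _ => le_rfl) (integrable_zero _ _ _) ?_
  simp

theorem PI.sum {m k : ℕ} (a : Fin k → ℝ) (h : ∀ i, PI m (a i)) : PI m (∑ i, a i) := by
  classical
  have h1 : ∀ s : Finset (Fin k), PI m (∑ i ∈ s, a i) := by
    intro s
    induction s using Finset.induction_on with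
    | empty => simpa using PI.zero6 (m := m)
    | insert i s hi ih =>
      rw [Finset.sum_insert hi]
      exact (h i).add ih
  exact h1 Finset.univ

end Pool.Agent.WSP
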