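import Pool.Agent.W_2cf66e_P.DefsP
import Pool.Agent.W_2cf66e_h23.LfL
import Pool.Agent.W_2cf66e_h23.LuA12

/-!
# MP_2cf66e_nt, theorem P, leaf P15: the shift (helper31)
-/

set_option autoImplicit false

noncomputable section

open MeasureTheory Set Filter Topology

namespace Pool.Agent.WSP

variable {n K : ℕ}

theorem DF.rat31 {κ : Type} [Countable κ] (q : ℚ) : DF (fun _ : κ → ℝ => (q : ℝ)) := by
  refine (DF.div (DF.const (κ := κ) q.num) (DF.const (κ := κ) (q.den : ℤ))).congr78 fun v => ?_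
  have h := Rat.num_div_den q
  have h2 : ((q.num : ℝ) / ((q.den : ℤ) : ℝ)) = (q : ℝ) := by
    conv_rhs => rw [← h]
    push_cast
    rfl
  exact h2

theorem DF.aeval31 {κ : Type} [Countable κ] {m : ℕ} (f : MvPolynomial (Fin m) ℚ)
    (a : Fin m → (κ → ℝ) → ℝ) (ha : ∀ i, DF (a i)) :
    DF (fun v : κ → ℝ => (MvPolynomial.aeval (fun i => a i v) f : ℝ)) := by
  induction f using MvPolynomial.induction_on with
  | C q => exact (DF.rat31 q).congr78 fun v => by simp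
  | add p q hp hq => exact (hp.add hq).congr78 fun v => by rw [map_add]
  | mul_X p i hp =>
    refine (hp.mul (ha i)).congr78 fun v => ?_
    rw [map_mul, MvPolynomial.aeval_X]

theorem DF.cons31 {κ : Type} [Countable κ] (f : MvPolynomial (Fin (n + 1)) ℚ)
    {y : (κ → ℝ) → ℝ} (hy : DF y) {x : Fin n → (κ → ℝ) → ℝ} (hx : ∀ j, DF (x j)) :
    DF (fun v : κ → ℝ => (sec f (fun j => x j v)).eval (y v)) := by
  refine (DF.aeval31 f (Fin.cons y x) fun i => ?_).congr78 fun v => ?_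
  · refine Fin.cases ?_ (fun j => ?_) i
    · exact hy
    · exact hx j
  · rw [sec_eval]
    congr 2
    funext i
    refine Fin.cases rfl (fun j => rfl) i

/-- The admissible shifts. -/
def Sh31 (f : MvPolynomial (Fin (n + 1)) ℚ) {k : ℕ} (g : Fin k → MvPolynomial (Fin (n + 1)) ℚ)
    (C : Set (Fin n → ℝ)) (c : (Fin n → ℝ) → ℝ) : Set (Fin (n + 1) → ℝ) :=
  {z | (tl z ∈ C → z 0 < c (tl z)) ∧ ∀ r : ℝ, (sec f (tl z)).eval r = 0 →
        (∀ i, (sec (g i) (tl z)).eval (r + z 0) ≠ 0 ∧ (sec (g i) (tl z)).eval (r - z 0) ≠ 0) ∧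
        (r = c (tl z) ∨ z 0 < |r - c (tl z)|)}

theorem Sh31_DS (f : MvPolynomial (Fin (n + 1)) ℚ) {k : ℕ}
    (g : Fin k → MvPolynomial (Fin (n + 1)) ℚ)
    (C : Set (Fin n → ℝ)) (c : (Fin n → ℝ) → ℝ) (hC : DS C) (hc : DF c) :
    DS (Sh31 f g C c) := by
  have h1 : U78.Df (fun z : Fin (n + 1) → ℝ => WSP.tl z ∈ C) := DS.tl hC
  have h2 : U78.Df (fun z : Fin (n + 1) → ℝ => z 0 < c (WSP.tl z)) :=
    DF.lt (DF.var (0 : Fin (n + 1))) (DF.tl hc)
  have hr : DF (fun v : Option (Fin (n + 1)) → ℝ => v none) := DF.var none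
  have hz : DF (fun v : Option (Fin (n + 1)) → ℝ => v (some 0)) := DF.var (some 0)
  have hx : ∀ j : Fin n, DF (fun v : Option (Fin (n + 1)) → ℝ => v (some j.succ)) :=
    fun j => DF.var (some j.succ)
  have hcx : DF (fun v : Option (Fin (n + 1)) → ℝ => c (fun j => v (some j.succ))) :=
    DF.comp hc hx
  have h3 : U78.Df (fun v : Option (Fin (n + 1)) → ℝ =>
      (sec f (fun j => v (some j.succ))).eval (v none) = 0) :=
    (DF.eq (DF.cons31 f hr hx) (DF.const 0)).congr fun v => by simp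
  have h4 : ∀ i : Fin k, U78.Df (fun v : Option (Fin (n + 1)) → ℝ =>
      (sec (g i) (fun j => v (some j.succ))).eval (v none + v (some 0)) ≠ 0 ∧
      (sec (g i) (fun j => v (some j.succ))).eval (v none - v (some 0)) ≠ 0) := by
    intro i
    refine U78.Df.and ?_ ?_
    · exact (DF.eq (DF.cons31 (g i) (hr.add hz) hx) (DF.const 0)).not.congr fun v => by simp
    · exact (DF.eq (DF.cons31 (g i) (hr.sub hz) hx) (DF.const 0)).not.congr fun v => by simp
  have h5 : U78.Df (fun v : Option (Fin (n + 1)) → ℝ =>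
      v none = c (fun j => v (some j.succ)) ∨
        v (some 0) < |v none - c (fun j => v (some j.succ))|) := by
    refine (DF.eq hr hcx).or ?_
    refine ((DF.lt hz (hr.sub hcx)).or (DF.lt hz (hcx.sub hr))).congr fun v => ?_
    rw [lt_abs, neg_sub]
  have h6 := (h3.imp ((U78.Df.forall_fin h4).and h5)).all
  refine ((h1.imp h2).and h6).congr fun z => ?_
  exact Iff.rfl

theorem fin_ev31 {F : Set ℝ} (hF : F.Finite) : ∀ᶠ t in 𝓝[>] (0 : ℝ), t ∉ F := by
  have h1 : (F \ {0}).Finite := hF.subset Set.sdiff_subset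
  have h2 : (F \ {0})ᶜ ∈ 𝓝 (0 : ℝ) := h1.isClosed.isOpen_compl.mem_nhds (by simp)
  filter_upwards [mem_nhdsWithin_of_mem_nhds h2, self_mem_nhdsWithin] with t ht ht0 h
  exact ht ⟨h, fun h0 => (ne_of_gt ht0) h0⟩

theorem pol_ev31 (p : Polynomial ℝ) (hp : p ≠ 0) (r : ℝ) :
    ∀ᶠ t in 𝓝[>] (0 : ℝ), p.eval (r + t) ≠ 0 ∧ p.eval (r - t) ≠ 0 := by
  have hf : {y : ℝ | p.eval y = 0}.Finite := by
    refine (p.roots.toFinset.finite_toSet).subset fun y hy => ?_
    rw [Finset.mem_coe, Multiset.mem_toFinset, Polynomial.mem_roots hp]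
    exact hy
  have h1 : ((fun t : ℝ => r + t) ⁻¹' {y : ℝ | p.eval y = 0}).Finite :=
    hf.preimage (add_right_injective r).injOn
  have h2 : ((fun t : ℝ => r - t) ⁻¹' {y : ℝ | p.eval y = 0}).Finite :=
    hf.preimage (sub_right_injective (b := r)).injOn
  filter_upwards [fin_ev31 h1, fin_ev31 h2] with t k1 k2
  exact ⟨k1, k2⟩

theorem shift_eps (f : MvPolynomial (Fin (n + 1)) ℚ) (hf : GenS f) {k : ℕ}
    (g : Fin k → MvPolynomial (Fin (n + 1)) ℚ) (hg : ∀ i, g i ≠ 0)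
    (C : Set (Fin n → ℝ)) (c : (Fin n → ℝ) → ℝ) (hC : DS C) (hc : DF c) (hpos : ∀ x ∈ C, 0 < c x) :
    ∃ δ : (Fin n → ℝ) → ℝ, RF δ ∧ ∀ᵐ x : Fin n → ℝ, 0 < δ x ∧ (x ∈ C → δ x < c x) ∧
      ∀ r : ℝ, (sec f x).eval r = 0 →
        (∀ i, (sec (g i) x).eval (r + δ x) ≠ 0 ∧ (sec (g i) x).eval (r - δ x) ≠ 0) ∧
        (r = c x ∨ δ x < |r - c x|) := by
  have hg' : ∀ᵐ x : Fin n → ℝ, ∀ i, sec (g i) x ≠ 0 := by
    rw [MeasureTheory.ae_all_iff]
    exact fun i => null_sec (hg i)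
  obtain ⟨δ, hδ, hae⟩ := eps_lem (Sh31 f g C c) (DS_isSA (Sh31_DS f g C c hC hc)) (by
    filter_upwards [hf, hg'] with x hx hgx
    have k1 : ∀ᶠ t in 𝓝[>] (0 : ℝ), x ∈ C → t < c x := by
      by_cases hxC : x ∈ C
      · filter_upwards [mem_nhdsWithin_of_mem_nhds (Iio_mem_nhds (hpos x hxC))] with t ht _
        exact ht
      · exact Eventually.of_forall fun t h => absurd h hxC
    have k2 : ∀ᶠ t in 𝓝[>] (0 : ℝ), ∀ r ∈ (sec f x).roots.toFinset,
        (∀ i, (sec (g i) x).eval (r + t) ≠ 0 ∧ (sec (g i) x).eval (r - t) ≠ 0) ∧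
        (r = c x ∨ t < |r - c x|) := by
      rw [Filter.eventually_all_finset]
      intro r _
      refine Filter.Eventually.and ?_ ?_
      · rw [Filter.eventually_all]
        exact fun i => pol_ev31 _ (hgx i) r
      · by_cases hrc : r = c x
        · exact Eventually.of_forall fun t => Or.inl hrc
        · have h0 : 0 < |r - c x| := abs_pos.2 (sub_ne_zero.2 hrc)
          filter_upwards [mem_nhdsWithin_of_mem_nhds (Iio_mem_nhds h0)] with t ht
          exact Or.inr ht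
    obtain ⟨t0, ht0, h⟩ := (nhdsGT_basis (0 : ℝ)).eventually_iff.1 (k1.and k2)
    refine ⟨t0, ht0, fun t h1 h2 => ?_⟩
    obtain ⟨m1, m2⟩ := h ⟨h1, h2⟩
    show _ ∧ _
    rw [tl_cons59, Fin.cons_zero]
    refine ⟨m1, fun r hr => m2 r ?_⟩
    rw [Multiset.mem_toFinset, Polynomial.mem_roots hx.1]
    exact hr)
  refine ⟨δ, hδ, ?_⟩
  filter_upwards [hae] with x hx
  have h := hx.2
  change _ ∧ _ at h
  rw [tl_cons59, Fin.cons_zero] at h
  exact ⟨hx.1, h.1, h.2⟩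

end Pool.Agent.WSP
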