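import Pool.Agent.W_2cf66e_P.DefsP
import Pool.Agent.W_2cf66e_h23.LuC4

/-!
# MP_2cf66e_nt, theorem P, leaf P21: constant terms with nonnegative `A` (helper78; text of LuC2
and LuC4)
-/

set_option autoImplicit false

noncomputable section

open MeasureTheory Set Filter Topology MvPolynomial

namespace Pool.Agent.WSP

open Pool.Agent.CVol

theorem sym_pos78 {M : ℕ} (P Q : MvPolynomial (Fin M) ℚ) (hQ : Q ≠ 0)
    (hpos : ∀ t : Fin M → ℝ, (0 : ℝ) ≤ MvPolynomial.aeval t P ∧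
      (0 : ℝ) ≤ MvPolynomial.aeval t Q)
    (hi : Integrable (fun t : Fin M → ℝ =>
      (MvPolynomial.aeval t P : ℝ) / MvPolynomial.aeval t Q)) :
    ∃ N D : MvPolynomial (Fin M) ℚ,
      (∀ t : Fin M → ℝ, (0 : ℝ) ≤ MvPolynomial.aeval (fun i => t i ^ 2) N) ∧
      (∀ t : Fin M → ℝ, (0 : ℝ) ≤ MvPolynomial.aeval (fun i => t i ^ 2) D) ∧
      Integrable (fun t : Fin M → ℝ => (MvPolynomial.aeval (fun i => t i ^ 2) N : ℝ) /
        MvPolynomial.aeval (fun i => t i ^ 2) D) ∧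
      ∫ t : Fin M → ℝ, (MvPolynomial.aeval (fun i => t i ^ 2) N : ℝ) /
        MvPolynomial.aeval (fun i => t i ^ 2) D =
        2 ^ M * ∫ t : Fin M → ℝ, (MvPolynomial.aeval t P : ℝ) / MvPolynomial.aeval t Q := by
  classical
  obtain ⟨act, hact⟩ : ∃ act : (Fin M → ℤˣ) → MvPolynomial (Fin M) ℚ → MvPolynomial (Fin M) ℚ,
      ∀ e p (t : Fin M → ℝ), (aeval t (act e p) : ℝ) = aeval (sgv e t) p := by
    refine ⟨fun e p => bind₁ (fun i => C (((e i : ℤ) : ℚ)) * X i) p, fun e p t => ?_⟩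
    rw [aeval_bind₁]
    congr 2
    funext i
    simp [sgv]
  obtain ⟨D0, hD0⟩ : ∃ D0 : MvPolynomial (Fin M) ℚ, ∀ t : Fin M → ℝ,
      (aeval t D0 : ℝ) = ∏ e : Fin M → ℤˣ, aeval (sgv e t) Q :=
    ⟨∏ e : Fin M → ℤˣ, act e Q, fun t => by
      rw [map_prod]
      exact Finset.prod_congr rfl fun e _ => hact e Q t⟩
  obtain ⟨N0, hN0⟩ : ∃ N0 : MvPolynomial (Fin M) ℚ, ∀ t : Fin M → ℝ,
      (aeval t N0 : ℝ) = ∑ e : Fin M → ℤˣ, aeval (sgv e t) P *
        ∏ f ∈ Finset.univ.erase e, aeval (sgv f t) Q :=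
    ⟨∑ e : Fin M → ℤˣ, act e P * ∏ f ∈ Finset.univ.erase e, act f Q, fun t => by
      rw [map_sum]
      refine Finset.sum_congr rfl fun e _ => ?_
      rw [map_mul, map_prod, hact]
      exact congrArg _ (Finset.prod_congr rfl fun f _ => hact f Q t)⟩
  -- invariance
  have hDi : ∀ (g : Fin M → ℤˣ) (t : Fin M → ℝ), (aeval (sgv g t) D0 : ℝ) = aeval t D0 := by
    intro g t
    rw [hD0, hD0]
    simp only [sgv_mul]
    exact Equiv.prod_comp (Equiv.mulRight g) (fun e => (aeval (sgv e t) Q : ℝ))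
  have hNi : ∀ (g : Fin M → ℤˣ) (t : Fin M → ℝ), (aeval (sgv g t) N0 : ℝ) = aeval t N0 := by
    intro g t
    rw [hN0, hN0]
    simp only [sgv_mul]
    rw [← Equiv.sum_comp (Equiv.mulRight g) (fun e => (aeval (sgv e t) P : ℝ) *
        ∏ f ∈ Finset.univ.erase e, aeval (sgv f t) Q)]
    refine Finset.sum_congr rfl fun e _ => ?_
    simp only [Equiv.coe_mulRight]
    congr 1
    refine Finset.prod_bij (fun f _ => f * g) ?_ ?_ ?_ ?_
    · intro f hf
      simp only [Finset.mem_erase, Finset.mem_univ, and_true] at hf ⊢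
      exact fun h => hf (mul_right_cancel h)
    · intro a _ b _ h
      exact mul_right_cancel h
    · intro b hb
      simp only [Finset.mem_erase, Finset.mem_univ, and_true] at hb ⊢
      exact ⟨b * g⁻¹, fun h => hb (by rw [← h]; group), by group⟩
    · intro f _
      rfl
  have hcard : (Fintype.card (Fin M → ℤˣ) : ℝ) = 2 ^ M := by
    rw [Fintype.card_fun, Fintype.card_units_int, Fintype.card_fin]
    push_cast
    rfl
  have hc0 : (2 : ℝ) ^ M ≠ 0 := by positivity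
  -- invariant polynomials
  have hinv : ∀ p : MvPolynomial (Fin M) ℚ,
      (∀ (g : Fin M → ℤˣ) (t : Fin M → ℝ), (aeval (sgv g t) p : ℝ) = aeval t p) →
      ∃ q : MvPolynomial (Fin M) ℚ, ∀ t : Fin M → ℝ,
        (aeval (fun i => t i ^ 2) q : ℝ) = aeval t p := by
    intro p hp
    obtain ⟨q, hq⟩ := sgv_sum p
    refine ⟨C (((2 : ℚ) ^ M)⁻¹) * q, fun t => ?_⟩
    rw [map_mul, hq, aeval_C]
    simp only [hp, Finset.sum_const, Finset.card_univ, nsmul_eq_mul, hcard]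
    simp only [map_inv₀, map_pow, map_ofNat]
    field_simp
  obtain ⟨N, hN⟩ := hinv (N0 * D0) fun g t => by rw [map_mul, map_mul, hDi, hNi]
  obtain ⟨D, hD⟩ := hinv (D0 ^ 2) fun g t => by rw [map_pow, map_pow, hDi]
  have hiF : ∀ e : Fin M → ℤˣ, Integrable (fun t : Fin M → ℝ =>
      (aeval (sgv e t) P : ℝ) / aeval (sgv e t) Q) := fun e =>
    ((sgv_mp e).integrable_comp hi.aestronglyMeasurable).2 hi
  have hvF : ∀ e : Fin M → ℤˣ, ∫ t : Fin M → ℝ, (aeval (sgv e t) P : ℝ) / aeval (sgv e t) Q =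
      ∫ t : Fin M → ℝ, (aeval t P : ℝ) / aeval t Q := by
    intro e
    have h1 := integral_map (μ := (volume : Measure (Fin M → ℝ))) (sgv_mp e).measurable.aemeasurable
      (f := fun t : Fin M → ℝ => (aeval t P : ℝ) / aeval t Q)
      (by rw [(sgv_mp e).map_eq]; exact hi.aestronglyMeasurable)
    rw [(sgv_mp e).map_eq] at h1
    exact h1.symm
  have hae : ∀ᵐ t : Fin M → ℝ, ∀ e : Fin M → ℤˣ, (aeval (sgv e t) Q : ℝ) ≠ 0 := by
    rw [ae_all_iff]
    intro e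
    have h1 : ∀ᵐ t : Fin M → ℝ, (aeval t Q : ℝ) ≠ 0 := by
      rw [ae_iff]
      simpa using null_rat Q hQ
    exact (sgv_mp e).quasiMeasurePreserving.ae h1
  have hEq : (fun t : Fin M → ℝ => (aeval (fun i => t i ^ 2) N : ℝ) /
      aeval (fun i => t i ^ 2) D) =ᵐ[volume]
      fun t => ∑ e : Fin M → ℤˣ, (aeval (sgv e t) P : ℝ) / aeval (sgv e t) Q := by
    filter_upwards [hae] with t ht
    have h1 : (aeval t D0 : ℝ) ≠ 0 := by
      rw [hD0]
      exact Finset.prod_ne_zero_iff.2 fun e _ => ht e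
    rw [hN, hD, map_mul, map_pow, sq, mul_div_mul_right _ _ h1, div_eq_iff h1, Finset.sum_mul,
      hN0]
    refine Finset.sum_congr rfl fun e _ => ?_
    rw [hD0, ← Finset.mul_prod_erase Finset.univ (fun f => (aeval (sgv f t) Q : ℝ))
      (Finset.mem_univ e)]
    have h2 := ht e
    field_simp
  refine ⟨N, D, fun t => ?_, fun t => ?_, ?_, ?_⟩
  · rw [hN, map_mul, hN0, hD0]
    refine mul_nonneg (Finset.sum_nonneg fun e _ => mul_nonneg (hpos _).1
      (Finset.prod_nonneg fun f _ => (hpos _).2)) (Finset.prod_nonneg fun f _ => (hpos _).2)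
  · rw [hD, map_pow]
    positivity
  · exact (integrable_finsetSum _ fun e _ => hiF e).congr hEq.symm
  · rw [integral_congr_ae hEq, integral_finsetSum _ fun e _ => hiF e]
    simp only [hvF, Finset.sum_const, Finset.card_univ, nsmul_eq_mul, hcard]


theorem pi_ct {n : ℕ} (x : ℝ) (h : PI (n + 1) x) : ∃ A T : MvPolynomial (Fin (n + 1)) ℚ,
      (∀ c : Fin (n + 1) → ℝ, (∀ i, -1 ≤ c i ∧ c i ≤ 1) → (0 : ℝ) ≤ MvPolynomial.aeval c A ∧
        0 ≤ MvPolynomial.aeval c T ∧ MvPolynomial.aeval c T ≤ (1 : ℝ)) ∧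
      (Summable fun k : ℕ => (Pool.Agent.CVol.Lam (A * T ^ k) : ℝ)) ∧
      x = Real.pi ^ n * ∑' k : ℕ, (Pool.Agent.CVol.Lam (A * T ^ k) : ℝ) := by
  have hbox : ∀ (c : Fin (n + 1) → ℝ), c ∈ box (Fin (n + 1)) ↔ ∀ i, -1 ≤ c i ∧ c i ≤ 1 := by
    intro c
    rw [box_eq]
    rfl
  have hpi : Real.pi ≠ 0 := Real.pi_ne_zero
  obtain ⟨P, Q, hpos, hi, hv⟩ := h
  by_cases hx : x = 0
  · refine ⟨0, 0, fun c _ => by simp, ?_, ?_⟩
    · simp [Lam, summable_zero]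
    · rw [hx]
      simp [Lam]
  have hQ : Q ≠ 0 := by
    intro h
    apply hx
    rw [h] at hv
    simp only [map_zero, div_zero, integral_zero] at hv
    exact (mul_eq_zero.1 hv.symm).resolve_left hpi
  obtain ⟨N, D, hNp, hD, hi2, hv2⟩ := sym_pos78 P Q hQ hpos hi
  obtain ⟨dN, qN, hN⟩ := sq_pull N
  obtain ⟨dD, qD, hDq⟩ := sq_pull D
  obtain ⟨w, hw⟩ : ∃ w : MvPolynomial (Fin (n + 1)) ℚ, ∀ c : Fin (n + 1) → ℝ,
      (MvPolynomial.aeval c w : ℝ) = ∏ i, (1 - c i) :=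
    ⟨∏ i, (1 - MvPolynomial.X i), fun c => by simp⟩
  have hone : ∀ (t : Fin (n + 1) → ℝ) (i : Fin (n + 1)),
      1 - KPer_psi t i = 2 * (1 / (1 + (t i) ^ 2)) := by
    intro t i
    have h2 : (1 + (t i) ^ 2) ≠ 0 := by positivity
    change 1 - ((t i) ^ 2 - 1) / (1 + (t i) ^ 2) = _
    field_simp
    ring
  have hpr : ∀ t : Fin (n + 1) → ℝ, 0 < ∏ i, (1 - KPer_psi t i) := by
    intro t
    refine Finset.prod_pos fun i _ => ?_
    rw [hone]
    positivity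
  obtain ⟨κ, hκ, hb⟩ := box_nonneg (qD * w ^ (dN + 1)) (fun t => by
    rw [map_mul, map_pow, hDq, hw]
    have h1 := hpr t
    have h2 := hD t
    positivity)
  obtain ⟨κ', -, hb'⟩ := box_nonneg (qN * w ^ dD) (fun t => by
    rw [map_mul, map_pow, hN, hw]
    have h1 := hpr t
    have h2 := hNp t
    positivity)
  have hκr : (0 : ℝ) < κ := by exact_mod_cast hκ
  have hκ0 : (κ : ℝ) ≠ 0 := hκr.ne'
  obtain ⟨A, hA⟩ : ∃ A : MvPolynomial (Fin (n + 1)) ℚ, ∀ c : Fin (n + 1) → ℝ,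
      (MvPolynomial.aeval c A : ℝ) = (κ : ℝ)⁻¹ * MvPolynomial.aeval c (qN * w ^ dD) :=
    ⟨MvPolynomial.C κ⁻¹ * (qN * w ^ dD), fun c => by
      rw [map_mul (MvPolynomial.aeval c) (MvPolynomial.C κ⁻¹), MvPolynomial.aeval_C]
      simp⟩
  obtain ⟨T, hT⟩ : ∃ T : MvPolynomial (Fin (n + 1)) ℚ, ∀ c : Fin (n + 1) → ℝ,
      (MvPolynomial.aeval c T : ℝ) = 1 - (κ : ℝ)⁻¹ * MvPolynomial.aeval c (qD * w ^ (dN + 1)) :=
    ⟨1 - MvPolynomial.C κ⁻¹ * (qD * w ^ (dN + 1)), fun c => by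
      rw [map_sub, map_one, map_mul (MvPolynomial.aeval c) (MvPolynomial.C κ⁻¹),
        MvPolynomial.aeval_C]
      simp⟩
  have hTb : ∀ c : Fin (n + 1) → ℝ, (∀ i, -1 ≤ c i ∧ c i ≤ 1) →
      0 ≤ MvPolynomial.aeval c T ∧ MvPolynomial.aeval c T ≤ (1 : ℝ) := by
    intro c hc
    obtain ⟨h1, h2⟩ := hb c hc
    rw [hT]
    have h3 : (κ : ℝ)⁻¹ * MvPolynomial.aeval c (qD * w ^ (dN + 1)) ≤ 1 := by
      rw [inv_mul_le_iff₀ hκr, mul_one]
      exact h2
    have h4 : 0 ≤ (κ : ℝ)⁻¹ * MvPolynomial.aeval c (qD * w ^ (dN + 1)) :=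
      mul_nonneg (inv_pos.2 hκr).le h1
    constructor <;> linarith
  obtain ⟨F, hF⟩ : ∃ F : (Fin (n + 1) → ℝ) → ℝ, F = fun c =>
      (MvPolynomial.aeval c A : ℝ) / (1 - MvPolynomial.aeval c T) := ⟨_, rfl⟩
  have hFt : ∀ t : Fin (n + 1) → ℝ, (∏ i, (1 / (1 + (t i) ^ 2) / Real.pi)) * F (KPer_psi t) =
      (Real.pi ^ (n + 1) * 2 ^ (n + 1))⁻¹ *
        ((MvPolynomial.aeval (fun i => t i ^ 2) N : ℝ) /
          MvPolynomial.aeval (fun i => t i ^ 2) D) := by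
    intro t
    have hp := (hpr t).ne'
    have h1 : ∏ i, (1 / (1 + (t i) ^ 2) / Real.pi) =
        (∏ i, (1 - KPer_psi t i)) * (Real.pi ^ (n + 1) * 2 ^ (n + 1))⁻¹ := by
      rw [Finset.prod_congr rfl fun i _ => hone t i, Finset.prod_div_distrib,
        Finset.prod_mul_distrib]
      simp only [Finset.prod_const, Finset.card_univ, Fintype.card_fin]
      have h2 : (2 : ℝ) ^ (n + 1) ≠ 0 := by positivity
      have h3 : Real.pi ^ (n + 1) ≠ 0 := pow_ne_zero _ hpi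
      field_simp
    have h2 : F (KPer_psi t) = ((MvPolynomial.aeval (fun i => t i ^ 2) N : ℝ) /
        MvPolynomial.aeval (fun i => t i ^ 2) D) * (∏ i, (1 - KPer_psi t i))⁻¹ := by
      rw [hF]
      simp only
      rw [hA, hT, sub_sub_cancel, map_mul, map_mul, map_pow, map_pow, hN, hDq, hw]
      by_cases hz : (MvPolynomial.aeval (fun i => t i ^ 2) D : ℝ) = 0
      · rw [hz]
        simp
      · field_simp
        ring
    rw [h1, h2]
    field_simp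
  have hc := ct_change F
  simp only [hFt] at hc
  have hiF := hc.1.2 (hi2.const_mul _)
  have hvF := hc.2
  rw [integral_const_mul, hv2, hv] at hvF
  have hvF' : ∫ θ in ucube (Fin (n + 1)), F (cs θ) = (Real.pi ^ n)⁻¹ * x := by
    rw [hvF]
    have h2 : (2 : ℝ) ^ (n + 1) ≠ 0 := by positivity
    field_simp
    ring
  have hT1 : T ≠ 1 := by
    intro h
    apply hx
    have h3 : ∀ θ : Fin (n + 1) → ℝ, F (cs θ) = 0 := by
      intro θ
      rw [hF, h]
      simp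
    simp only [h3, integral_zero] at hvF'
    exact (mul_eq_zero.1 hvF'.symm).resolve_left (inv_ne_zero (pow_ne_zero _ hpi))
  obtain ⟨s1, s2⟩ := series_iff A T hT1 fun c hc => hTb c ((hbox c).1 hc)
  rw [hF] at hiF hvF'
  have hA0 : ∀ c : Fin (n + 1) → ℝ, (∀ i, -1 ≤ c i ∧ c i ≤ 1) →
      (0 : ℝ) ≤ MvPolynomial.aeval c A := by
    intro c hc
    rw [hA]
    exact mul_nonneg (inv_pos.2 hκr).le (hb' c hc).1
  refine ⟨A, T, fun c hc => ⟨hA0 c hc, hTb c hc⟩, ?_, ?_⟩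
  · refine (s1.1 hiF).congr fun k => ?_
    rw [← int_Lam]
    refine integral_congr_ae (Eventually.of_forall fun θ => ?_)
    have hc : ∀ i, -1 ≤ cs θ i ∧ cs θ i ≤ 1 := fun i =>
      ⟨Real.neg_one_le_cos _, Real.cos_le_one _⟩
    simp only
    rw [abs_of_nonneg (hA0 _ hc), map_mul, map_pow]
  · rw [← s2 hiF, hvF', ← mul_assoc, mul_inv_cancel₀ (pow_ne_zero _ hpi), one_mul]

end Pool.Agent.WSP
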