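import Pool.Agent.W_2cf66e_h23.DefsU
import Pool.Agent.W_2cf66e_h23.PerZ
import Pool.Agent.W_2cf66e_h23.LfR

/-!
# MP_2cf66e_nt, theorem P (positive integrand in the same dimension): definitions (helper23)
-/

set_option autoImplicit false

noncomputable section

open MeasureTheory Set Filter Topology

namespace Pool.Agent.WSP

variable {n K : ℕ}

/-- `π c` is the integral over `ℝ^m` of a rational function `P / Q` with `P ≥ 0` and `Q ≥ 0`. -/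
def PI (m : ℕ) (c : ℝ) : Prop :=
  ∃ P Q : MvPolynomial (Fin m) ℚ,
    (∀ z : Fin m → ℝ, (0 : ℝ) ≤ MvPolynomial.aeval z P ∧ (0 : ℝ) ≤ MvPolynomial.aeval z Q) ∧
    Integrable (fun z : Fin m → ℝ => (MvPolynomial.aeval z P : ℝ) / MvPolynomial.aeval z Q) ∧
    ∫ z : Fin m → ℝ, (MvPolynomial.aeval z P : ℝ) / MvPolynomial.aeval z Q = Real.pi * c

/-- The sections are generically separable. -/
def GenS (f : MvPolynomial (Fin (n + 1)) ℚ) : Prop :=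
  ∀ᵐ x : Fin n → ℝ, sec f x ≠ 0 ∧ ∀ r : ℂ, Polynomial.aeval r (sec f x) = 0 →
    Polynomial.aeval r (Polynomial.derivative (sec f x)) ≠ 0

/-- A square root of a complex number. -/
def sq2 (z : ℂ) : ℂ := z ^ ((1 : ℂ) / 2)

/-- The centre of a kernel. -/
def kap (ε : ℝ) (g : Fin K → ℂ) (r : ℂ) (σ : Fin K → ℤˣ) : ℂ :=
  r + ∑ j : Fin K, ((σ j : ℤ) : ℂ) * ((ε : ℂ) ^ (3 * ((j : ℕ) + 1)) * sq2 (g j))

/-- The Cauchy kernel with centre `κ` and width `t`. -/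
def CK (κ : ℂ) (t w : ℝ) : ℂ := (t : ℂ) / ((t : ℂ) ^ 2 + ((w : ℂ) - κ) ^ 2)

/-- The width. -/
def wid (K : ℕ) (ε : ℝ) : ℝ := ε ^ (6 * K + 7)

/-- The term of a root `r` at which the selecting polynomials have the values `g`. -/
def UT (ε : ℝ) (g : Fin K → ℂ) (r : ℂ) (w : ℝ) : ℂ :=
  r * ((2 : ℂ) ^ K)⁻¹ * ∑ σ : Fin K → ℤˣ, CK (kap ε g r σ) (wid K ε) w

/-- The values of the selecting polynomials at `r`. -/
def gv (G : Fin K → MvPolynomial (Fin (n + 1)) ℚ) (x : Fin n → ℝ) (r : ℂ) : Fin K → ℂ :=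
  fun j => Polynomial.aeval r (sec (G j) x)

/-- The sum over the complex roots. The first coordinate of `z` is the kernel variable. -/
def RRf (f : MvPolynomial (Fin (n + 1)) ℚ) (G : Fin K → MvPolynomial (Fin (n + 1)) ℚ)
    (ε : (Fin n → ℝ) → ℝ) (z : Fin (n + 1) → ℝ) : ℂ :=
  ((rts f (tl z)).map fun r => UT (ε (tl z)) (gv G (tl z) r) r (z 0)).sum

open scoped Classical in
/-- The sum of the selected real roots. -/
def LL (f : MvPolynomial (Fin (n + 1)) ℚ) (G : Fin K → MvPolynomial (Fin (n + 1)) ℚ)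
    (x : Fin n → ℝ) : ℝ :=
  ∑ r ∈ (sec f x).roots.toFinset, if ∀ j, 0 < (sec (G j) x).eval r then r else 0

/-- The lower bound of the room. -/
def eta (x : Fin n → ℝ) : ℝ :=
  (∏ j, x j) ^ 2 / ((1 + (∏ j, x j) ^ 2) * (∏ j, (1 + (x j) ^ 2)) ^ 2)

/-- The room: a positive rational function with integral `π`. -/
def R0 (z : Fin (n + 1) → ℝ) : ℝ :=
  (∏ j, tl z j) ^ 2 / ((1 + (∏ j, tl z j) ^ 2 * (z 0) ^ 2) * (∏ j, (1 + (tl z j) ^ 2)) ^ 2)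

/-- The admissible pairs `(ε, x)`. -/
def Adm (f : MvPolynomial (Fin (n + 1)) ℚ) (G : Fin K → MvPolynomial (Fin (n + 1)) ℚ) (E : ℕ) :
    Set (Fin (n + 1) → ℝ) :=
  {z | (0 < z 0 ∧ 4 * z 0 ≤ 1) ∧ (E : ℝ) * z 0 ≤ eta (tl z) ∧
    ∀ a b : ℝ, Polynomial.aeval ((a : ℂ) + (b : ℂ) * Complex.I) (sec f (tl z)) = 0 →
      (a ^ 2 + b ^ 2) * (z 0) ^ 2 ≤ 1 ∧ (b ≠ 0 → (z 0) ^ 2 ≤ b ^ 2) ∧
      ∀ j, Complex.normSq (gv G (tl z) ((a : ℂ) + (b : ℂ) * Complex.I) j) * (z 0) ^ 4 ≤ 1 ∧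
        (b = 0 → (z 0) ^ 4 ≤ Complex.normSq (gv G (tl z) ((a : ℂ) + (b : ℂ) * Complex.I) j))}

/-- The sign of a selecting polynomial is changed by `τ`. -/
def sgG (τ : Fin K → ℤˣ) (h : Fin K → MvPolynomial (Fin (n + 1)) ℚ) :
    Fin K → MvPolynomial (Fin (n + 1)) ℚ := fun j => MvPolynomial.C (((τ j : ℤ) : ℚ)) * h j

end Pool.Agent.WSP
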