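import Pool.Agent.W_2cf66e_P.DefsP

/-!
# MP_2cf66e_nt, theorem P, leaf P1: the wanted root (helper65)
-/

set_option autoImplicit false

noncomputable section

open MeasureTheory Set Filter Topology

namespace Pool.Agent.WSP

variable {n K : ℕ}

namespace P65

lemma sq2_pos {g : ℝ} (hg : 0 < g) : sq2 (g : ℂ) = ((g ^ ((1 : ℝ) / 2) : ℝ) : ℂ) := by
  rw [sq2, Complex.ofReal_cpow hg.le]
  norm_num

/-- The real Cauchy kernel. -/
lemma ck_int {t : ℝ} (ht : 0 < t) (κ : ℝ) :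
    Integrable (fun w : ℝ => t / (t ^ 2 + (w - κ) ^ 2)) ∧
      ∫ w : ℝ, t / (t ^ 2 + (w - κ) ^ 2) = Real.pi := by
  have h1 : (fun w : ℝ => t / (t ^ 2 + (w - κ) ^ 2)) =
      fun w => (fun v : ℝ => t⁻¹ * (1 + (v / t) ^ 2)⁻¹) (w - κ) := by
    funext w
    have h2 : 0 < t ^ 2 + (w - κ) ^ 2 := by positivity
    have h3 : 0 < 1 + ((w - κ) / t) ^ 2 := by positivity
    field_simp
  have h2 : Integrable (fun v : ℝ => t⁻¹ * (1 + (v / t) ^ 2)⁻¹) :=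
    ((integrable_inv_one_add_sq).comp_div ht.ne').const_mul _
  rw [h1]
  refine ⟨h2.comp_sub_right κ, ?_⟩
  rw [integral_sub_right_eq_self (fun v : ℝ => t⁻¹ * (1 + (v / t) ^ 2)⁻¹) κ,
    integral_const_mul, Measure.integral_comp_div (fun v : ℝ => (1 + v ^ 2)⁻¹) t,
    integral_univ_inv_one_add_sq, abs_of_pos ht, smul_eq_mul, ← mul_assoc,
    inv_mul_cancel₀ ht.ne', one_mul]

end P65

theorem UT_good {ε : ℝ} (h0 : 0 < ε) (g : Fin K → ℝ) (hg : ∀ j, 0 < g j) (r : ℝ) (hr : 0 ≤ r) :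
    ∃ u : ℝ → ℝ, (∀ w : ℝ, UT ε (fun j => (g j : ℂ)) (r : ℂ) w = (u w : ℂ)) ∧ (∀ w, 0 ≤ u w) ∧
      Integrable u ∧ ∫ w, u w = Real.pi * r ∧
      ∀ (σ : Fin K → ℤˣ) (w : ℝ), ((wid K ε : ℂ) ^ 2 +
        ((w : ℂ) - kap ε (fun j => (g j : ℂ)) (r : ℂ) σ) ^ 2) ≠ 0 := by
  set t : ℝ := wid K ε with ht
  have ht0 : 0 < t := by
    rw [ht]
    exact pow_pos h0 _
  set κ : (Fin K → ℤˣ) → ℝ := fun σ =>
    r + ∑ j : Fin K, ((σ j : ℤ) : ℝ) * (ε ^ (3 * ((j : ℕ) + 1)) * g j ^ ((1 : ℝ) / 2)) with hκ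
  have hkap : ∀ σ : Fin K → ℤˣ, kap ε (fun j => (g j : ℂ)) (r : ℂ) σ = ((κ σ : ℝ) : ℂ) := by
    intro σ
    rw [kap, hκ]
    push_cast
    congr 1
    refine Finset.sum_congr rfl fun j _ => ?_
    rw [P65.sq2_pos (hg j)]
  have hden : ∀ (σ : Fin K → ℤˣ) (w : ℝ), 0 < t ^ 2 + (w - κ σ) ^ 2 := fun σ w => by positivity
  refine ⟨fun w => r * ((2 : ℝ) ^ K)⁻¹ * ∑ σ : Fin K → ℤˣ, t / (t ^ 2 + (w - κ σ) ^ 2),
    fun w => ?_, fun w => ?_, ?_, ?_, fun σ w => ?_⟩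
  · rw [UT]
    push_cast
    congr 1
    refine Finset.sum_congr rfl fun σ _ => ?_
    rw [CK, hkap]
  · exact mul_nonneg (mul_nonneg hr (by positivity))
      (Finset.sum_nonneg fun σ _ => div_nonneg ht0.le (hden σ w).le)
  · exact (integrable_finsetSum _ fun σ _ => (P65.ck_int ht0 (κ σ)).1).const_mul _
  · rw [integral_const_mul, integral_finsetSum _ fun σ _ => (P65.ck_int ht0 (κ σ)).1]
    have h1 : ∑ σ : Fin K → ℤˣ, ∫ w : ℝ, t / (t ^ 2 + (w - κ σ) ^ 2) =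
        (2 : ℝ) ^ K * Real.pi := by
      rw [Finset.sum_congr rfl fun σ _ => (P65.ck_int ht0 (κ σ)).2, Finset.sum_const,
        Finset.card_univ, Fintype.card_fun, Fintype.card_units_int, Fintype.card_fin,
        nsmul_eq_mul]
      push_cast
      ring
    rw [h1]
    have h2 : (2 : ℝ) ^ K ≠ 0 := by positivity
    field_simp
  · rw [hkap]
    have h1 : ((t : ℂ) ^ 2 + ((w : ℂ) - ((κ σ : ℝ) : ℂ)) ^ 2) =
        ((t ^ 2 + (w - κ σ) ^ 2 : ℝ) : ℂ) := by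
      push_cast
      ring
    rw [h1]
    exact_mod_cast (hden σ w).ne'

end Pool.Agent.WSP
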