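import Pool.Agent.W_2cf66e_P.DefsP

/-!
# MP_2cf66e_nt, theorem P, leaf P2: the centre of an unwanted term
-/

set_option autoImplicit false

noncomputable section

open MeasureTheory Set Filter Topology

namespace Pool.Agent.WSP

variable {n K : ℕ}

theorem sq2_sq14 (z : ℂ) : sq2 z ^ 2 = z := by
  unfold sq2
  have h := Complex.cpow_nat_inv_pow z two_ne_zero
  rw [one_div]
  exact_mod_cast h

/-- A tail of the geometric sum. -/
theorem tail14 {q : ℝ} (hq : 0 < q) (hq2 : 2 * q ≤ 1) (m K : ℕ) :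
    (K ≤ m → ∑ i ∈ Finset.range K, (if m ≤ i then q ^ (i + 1) else 0) = 0) ∧
      (m < K → ∑ i ∈ Finset.range K, (if m ≤ i then q ^ (i + 1) else 0) ≤
        2 * q ^ (m + 1) - q ^ K) := by
  induction K with
  | zero => exact ⟨fun _ => by simp, fun h => absurd h (Nat.not_lt_zero _)⟩
  | succ K ih =>
    refine ⟨fun h => ?_, fun h => ?_⟩
    · rw [Finset.sum_range_succ, ih.1 (by omega), if_neg (by omega), add_zero]
    · rw [Finset.sum_range_succ]
      rcases Nat.lt_or_ge m K with h1 | h1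
      · rw [if_pos h1.le]
        have h2 := ih.2 h1
        have h3 : q ^ (K + 1) = q ^ K * q := pow_succ _ _
        have h4 : 0 < q ^ K := pow_pos hq _
        nlinarith
      · have h2 : m = K := by omega
        subst h2
        rw [ih.1 le_rfl, if_pos le_rfl]
        have h4 : 0 < q ^ (m + 1) := pow_pos hq _
        linarith

theorem tail_le14 {q : ℝ} (hq : 0 < q) (hq2 : 2 * q ≤ 1) (m K : ℕ) :
    ∑ i : Fin K, (if m ≤ (i : ℕ) then q ^ ((i : ℕ) + 1) else 0) ≤ 2 * q ^ (m + 1) := by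
  rw [Fin.sum_univ_eq_sum_range (fun i => if m ≤ i then q ^ (i + 1) else 0) K]
  rcases Nat.lt_or_ge m K with h1 | h1
  · have h2 := (tail14 hq hq2 m K).2 h1
    have h4 : 0 < q ^ K := pow_pos hq _
    linarith
  · rw [(tail14 hq hq2 m K).1 h1]
    positivity

theorem kap_bad {ε : ℝ} (h0 : 0 < ε) (h1 : 4 * ε ≤ 1) (g : Fin K → ℂ) (r : ℂ)
    (hr : Complex.normSq r * ε ^ 2 ≤ 1) (hg : ∀ j, Complex.normSq (g j) * ε ^ 4 ≤ 1)
    (hb : (r.im ≠ 0 ∧ ε ^ 2 ≤ r.im ^ 2) ∨ (r.im = 0 ∧
      (∀ j, (g j).im = 0 ∧ ε ^ 4 ≤ Complex.normSq (g j)) ∧ ∃ j, (g j).re < 0))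
    (σ : Fin K → ℤˣ) :
    ε ^ (3 * K + 1) / 2 ≤ |(kap ε g r σ).im| ∧ ‖kap ε g r σ‖ ≤ 2 / ε := by
  have he1 : ε ≤ 1 := by linarith
  set q : ℝ := ε ^ 3 with hq
  have hq0 : 0 < q := by positivity
  have hq4 : q ≤ ε / 16 := by
    rw [hq]
    nlinarith [mul_pos h0 h0]
  have hq2 : 2 * q ≤ 1 := by linarith
  -- the square roots
  have hs1 : ∀ j, ‖sq2 (g j)‖ * ε ≤ 1 := by
    intro j
    have h2 : ‖sq2 (g j)‖ ^ 2 = ‖g j‖ := by rw [← norm_pow, sq2_sq14]
    have h3 := hg j
    rw [Complex.normSq_eq_norm_sq, ← h2] at h3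
    have h4 : (‖sq2 (g j)‖ * ε) ^ 4 ≤ 1 := by
      calc (‖sq2 (g j)‖ * ε) ^ 4 = (‖sq2 (g j)‖ ^ 2) ^ 2 * ε ^ 4 := by ring
        _ ≤ 1 := h3
    exact (pow_le_one_iff_of_nonneg (by positivity) (by norm_num)).1 h4
  set y : Fin K → ℂ := fun j => ((σ j : ℤ) : ℂ) * ((ε : ℂ) ^ (3 * ((j : ℕ) + 1)) * sq2 (g j))
    with hy
  have hsg : ∀ j, ‖((σ j : ℤ) : ℂ)‖ = 1 := by
    intro j
    rcases Int.units_eq_one_or (σ j) with h | h <;> simp [h]
  have hyn : ∀ j, ‖y j‖ = q ^ ((j : ℕ) + 1) * ‖sq2 (g j)‖ := by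
    intro j
    simp only [hy]
    rw [norm_mul, hsg, one_mul, norm_mul, norm_pow, Complex.norm_real, Real.norm_eq_abs,
      abs_of_pos h0, pow_mul]
  have hyb : ∀ j, ‖y j‖ ≤ q ^ ((j : ℕ) + 1) / ε := by
    intro j
    rw [hyn, le_div_iff₀ h0, mul_assoc]
    have h2 : 0 < q ^ ((j : ℕ) + 1) := pow_pos hq0 _
    nlinarith [hs1 j]
  have hkap : kap ε g r σ = r + ∑ j, y j := rfl
  have htail : ∀ m : ℕ, ∑ i : Fin K, (if m ≤ (i : ℕ) then q ^ ((i : ℕ) + 1) / ε else 0) ≤
      2 * q ^ (m + 1) / ε := by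
    intro m
    have h2 := tail_le14 hq0 hq2 m K
    have h3 : ∑ i : Fin K, (if m ≤ (i : ℕ) then q ^ ((i : ℕ) + 1) / ε else 0) =
        (∑ i : Fin K, (if m ≤ (i : ℕ) then q ^ ((i : ℕ) + 1) else 0)) / ε := by
      rw [Finset.sum_div]
      refine Finset.sum_congr rfl fun i _ => ?_
      split_ifs <;> simp
    rw [h3]
    exact div_le_div_of_nonneg_right h2 h0.le
  have hr1 : ‖r‖ * ε ≤ 1 := by
    rw [Complex.normSq_eq_norm_sq, ← mul_pow] at hr
    exact (sq_le_one_iff₀ (by positivity)).1 hr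
  have hsum : ‖∑ j, y j‖ ≤ 2 * q / ε := by
    have h2 := htail 0
    simp only [Nat.zero_le, if_true, zero_add, pow_one] at h2
    exact (norm_sum_le _ _).trans ((Finset.sum_le_sum fun j _ => hyb j).trans h2)
  refine ⟨?_, ?_⟩
  · rcases hb with ⟨-, hb⟩ | ⟨hri, hreal, hex⟩
    · -- the root is not real
      have h2 : ε ≤ |r.im| := by
        have h3 : ε ^ 2 ≤ |r.im| ^ 2 := by rwa [sq_abs]
        exact (pow_le_pow_iff_left₀ h0.le (abs_nonneg _) two_ne_zero).1 h3
      have h3 : |(kap ε g r σ).im| ≥ |r.im| - |(∑ j, y j).im| := by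
        rw [hkap, Complex.add_im]
        have h4 := abs_sub_abs_le_abs_sub r.im (-(∑ j, y j).im)
        rw [abs_neg, sub_neg_eq_add] at h4
        exact h4
      have h4 : |(∑ j, y j).im| ≤ 2 * q / ε := (Complex.abs_im_le_norm _).trans hsum
      have h5 : 2 * q / ε ≤ 1 / 2 * ε := by
        rw [div_le_iff₀ h0, hq]
        nlinarith [mul_pos h0 h0]
      have h6 : ε ^ (3 * K + 1) ≤ ε := by
        calc ε ^ (3 * K + 1) ≤ ε ^ 1 := pow_le_pow_of_le_one h0.le he1 (by omega)
          _ = ε := pow_one _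
      linarith
    · -- the root is real; take the first negative index
      classical
      have hex' : ∃ m : ℕ, ∃ h : m < K, (g ⟨m, h⟩).re < 0 := by
        obtain ⟨j, hj⟩ := hex
        exact ⟨j, j.2, hj⟩
      set m := Nat.find hex' with hm
      obtain ⟨hmK, hmneg⟩ := Nat.find_spec hex'
      have hmin : ∀ i : Fin K, (i : ℕ) < m → 0 ≤ (g i).re := by
        intro i hi
        have h2 := Nat.find_min hex' hi
        by_contra h3
        exact h2 ⟨i.2, not_le.1 h3⟩
      set j0 : Fin K := ⟨m, hmK⟩ with hj0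
      -- the square
      have hsq : ∀ i, (sq2 (g i)).re * (sq2 (g i)).im = 0 ∧
          (sq2 (g i)).re ^ 2 - (sq2 (g i)).im ^ 2 = (g i).re := by
        intro i
        have h2 := sq2_sq14 (g i)
        have h3 := congrArg Complex.re h2
        have h4 := congrArg Complex.im h2
        rw [pow_two, Complex.mul_re] at h3
        rw [pow_two, Complex.mul_im, (hreal i).1] at h4
        exact ⟨by linarith, by linarith⟩
      have him : ∀ i, (y i).im = ((σ i : ℤ) : ℝ) * (q ^ ((i : ℕ) + 1) * (sq2 (g i)).im) := by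
        intro i
        have h2 : y i = ((((σ i : ℤ) : ℝ) * q ^ ((i : ℕ) + 1) : ℝ) : ℂ) * sq2 (g i) := by
          simp only [hy, hq]
          push_cast
          rw [pow_mul]
          ring
        rw [h2, Complex.im_ofReal_mul, mul_assoc]
      have hlow : ∀ i : Fin K, (i : ℕ) < m → (y i).im = 0 := by
        intro i hi
        obtain ⟨h2, h3⟩ := hsq i
        have h4 := hmin i hi
        have h5 : (sq2 (g i)).im = 0 := by
          rcases mul_eq_zero.1 h2 with h6 | h6
          · rw [h6] at h3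
            have : (sq2 (g i)).im ^ 2 ≤ 0 := by linarith
            exact pow_eq_zero_iff (two_ne_zero) |>.1 (le_antisymm this (sq_nonneg _))
          · exact h6
        rw [him, h5]
        simp
      have hmain : q ^ (m + 1) * ε ≤ |(y j0).im| := by
        obtain ⟨h2, h3⟩ := hsq j0
        have h4 : (g j0).re < 0 := hmneg
        have h5 : (sq2 (g j0)).re = 0 := by
          rcases mul_eq_zero.1 h2 with h6 | h6
          · exact h6
          · exfalso
            rw [h6] at h3
            nlinarith [sq_nonneg (sq2 (g j0)).re]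
        have h7 : ε ^ 2 ≤ (sq2 (g j0)).im ^ 2 := by
          have h8 := (hreal j0).2
          rw [Complex.normSq_apply, (hreal j0).1, mul_zero, add_zero] at h8
          rw [h5] at h3
          have h9 : (ε ^ 2) ^ 2 ≤ ((sq2 (g j0)).im ^ 2) ^ 2 := by
            have h10 : (sq2 (g j0)).im ^ 2 = -(g j0).re := by linarith
            rw [h10]
            nlinarith
          exact (pow_le_pow_iff_left₀ (by positivity) (by positivity) two_ne_zero).1 h9
        have h8 : ε ≤ |(sq2 (g j0)).im| := by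
          have h9 : ε ^ 2 ≤ |(sq2 (g j0)).im| ^ 2 := by rwa [sq_abs]
          exact (pow_le_pow_iff_left₀ h0.le (abs_nonneg _) two_ne_zero).1 h9
        have h10 : |((σ j0 : ℤ) : ℝ)| = 1 := by
          rcases Int.units_eq_one_or (σ j0) with h | h <;> simp [h]
        rw [him, abs_mul, h10, one_mul, abs_mul, abs_of_pos (pow_pos hq0 _)]
        exact mul_le_mul_of_nonneg_left h8 (pow_pos hq0 _).le
      -- the sum
      have hdec : (∑ j, y j).im = (y j0).im + ∑ i ∈ Finset.univ.erase j0, (y i).im := by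
        rw [Complex.im_sum]
        exact (Finset.add_sum_erase Finset.univ (fun i => (y i).im) (Finset.mem_univ j0)).symm
      have hrest : |∑ i ∈ Finset.univ.erase j0, (y i).im| ≤ 2 * q ^ (m + 1 + 1) / ε := by
        refine (Finset.abs_sum_le_sum_abs _ _).trans ?_
        refine le_trans ?_ (htail (m + 1))
        refine le_trans (Finset.sum_le_sum (g := fun i : Fin K =>
          (if m + 1 ≤ (i : ℕ) then q ^ ((i : ℕ) + 1) / ε else 0)) fun i hi => ?_) ?_
        · have hne : (i : ℕ) ≠ m := by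
            intro h
            exact (Finset.mem_erase.1 hi).1 (Fin.ext h)
          split_ifs with h
          · exact (Complex.abs_im_le_norm _).trans (hyb i)
          · rw [hlow i (by omega), abs_zero]
        · refine Finset.sum_le_sum_of_subset_of_nonneg (Finset.erase_subset _ _) fun i _ _ => ?_
          split_ifs
          · positivity
          · exact le_rfl
      have h3 : |(kap ε g r σ).im| ≥ |(y j0).im| - |∑ i ∈ Finset.univ.erase j0, (y i).im| := by
        rw [hkap, Complex.add_im, hri, zero_add, hdec]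
        have h4 := abs_sub_abs_le_abs_sub (y j0).im (-(∑ i ∈ Finset.univ.erase j0, (y i).im))
        rw [abs_neg, sub_neg_eq_add] at h4
        exact h4
      have h5 : 2 * q ^ (m + 1 + 1) / ε ≤ 1 / 2 * (q ^ (m + 1) * ε) := by
        rw [div_le_iff₀ h0, pow_succ q (m + 1)]
        have h6 : 0 < q ^ (m + 1) := pow_pos hq0 _
        have h7 : 2 * q ≤ 1 / 2 * ε * ε := by
          rw [hq]
          nlinarith [mul_pos h0 h0]
        nlinarith
      have h6 : ε ^ (3 * K + 1) ≤ q ^ (m + 1) * ε := by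
        rw [hq, ← pow_mul, ← pow_succ]
        exact pow_le_pow_of_le_one h0.le he1 (by omega)
      linarith
  · rw [hkap]
    have h2 : ‖r‖ ≤ 1 / ε := by
      rw [le_div_iff₀ h0]
      exact hr1
    have h3 : 2 * q / ε ≤ 1 / ε := div_le_div_of_nonneg_right hq2 h0.le
    calc ‖r + ∑ j, y j‖ ≤ ‖r‖ + ‖∑ j, y j‖ := norm_add_le _ _
      _ ≤ 1 / ε + 1 / ε := add_le_add h2 (hsum.trans h3)
      _ = 2 / ε := by ring

end Pool.Agent.WSP
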