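import Pool.Agent.W_2cf66e_P.DefsP
import Pool.Agent.W_2cf66e_P.LpB
import Pool.Agent.W_2cf66e_P64.Kz64

/-!
# MP_2cf66e_nt, theorem P, leaf P3: the unwanted terms (helper64)
-/

set_option autoImplicit false

noncomputable section

open MeasureTheory Set Filter Topology

namespace Pool.Agent.WSP

open Pool.Agent.P64

variable {n K : ℕ}

theorem CK_eq64 (κ : ℂ) (t w : ℝ) : CK κ t w = ck t κ w := by
  unfold CK ck
  rw [add_comm]

theorem card_units64 : Fintype.card (Fin K → ℤˣ) = 2 ^ K := by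
  rw [Fintype.card_fun, Fintype.card_units_int, Fintype.card_fin]

/-- The numbers of one unwanted kernel. -/
theorem ck_bad64 {ε : ℝ} (h0 : 0 < ε) (h1 : 4 * ε ≤ 1) {κ : ℂ}
    (hi : ε ^ (3 * K + 1) / 2 ≤ |κ.im|) (hn : ‖κ‖ ≤ 2 / ε) :
    0 < wid K ε ∧ wid K ε < |κ.im| ∧ Integrable (ck (wid K ε) κ) ∧
      (∀ w : ℝ, ‖ck (wid K ε) κ w‖ ≤ 62 * ε ^ 3 / (1 + w ^ 2)) ∧
      ∀ w : ℝ, ((w : ℂ) - κ) ^ 2 + ((wid K ε : ℝ) : ℂ) ^ 2 ≠ 0 := by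
  have he : ε ≤ 1 / 4 := by linarith
  set E : ℝ := ε ^ (3 * K + 1) with hE
  have hEpos : 0 < E := pow_pos h0 _
  have hE1 : E ≤ 1 / 4 := by
    calc E ≤ ε ^ 1 := pow_le_pow_of_le_one h0.le (by linarith) (by omega)
      _ = ε := pow_one ε
      _ ≤ 1 / 4 := he
  have ht : wid K ε = E ^ 2 * ε ^ 5 := by
    unfold wid
    rw [hE, ← pow_mul, ← pow_add]
    congr 1
    ring
  have hε5 : ε ^ 5 ≤ (1 / 4) ^ 5 := pow_le_pow_left₀ h0.le he 5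
  have htpos : 0 < wid K ε := by
    rw [ht]
    positivity
  have ht8 : wid K ε ≤ E / 8 := by
    rw [ht]
    have h3 : E * ε ^ 5 ≤ 1 / 8 := by
      calc E * ε ^ 5 ≤ 1 / 4 * (1 / 4) ^ 5 :=
            mul_le_mul hE1 hε5 (by positivity) (by norm_num)
        _ ≤ 1 / 8 := by norm_num
    calc E ^ 2 * ε ^ 5 = E * (E * ε ^ 5) := by ring
      _ ≤ E * (1 / 8) := mul_le_mul_of_nonneg_left h3 hEpos.le
      _ = E / 8 := by ring
  have ht1 : wid K ε ≤ 1 / 4 := by linarith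
  set t : ℝ := wid K ε with htd
  have hlt : t < |κ.im| := by linarith
  have hy : 0 < 3 / 8 * E := by positivity
  have y1 : 3 / 8 * E ≤ |(κ + t * Complex.I).im| := by
    have e : (κ + t * Complex.I).im = κ.im + t := by simp
    rw [e]
    have h3 := abs_add_le (κ.im + t) (-t)
    rw [add_neg_cancel_right, abs_neg, abs_of_pos htpos] at h3
    linarith
  have y2 : 3 / 8 * E ≤ |(κ - t * Complex.I).im| := by
    have e : (κ - t * Complex.I).im = κ.im - t := by simp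
    rw [e]
    have h3 := abs_add_le (κ.im - t) t
    rw [sub_add_cancel, abs_of_pos htpos] at h3
    linarith
  refine ⟨htpos, hlt, ck_int htpos.le hy y1 y2, fun w => ?_, fun w => ?_⟩
  · refine (ck_le htpos.le hy y1 y2 w).trans ?_
    refine div_le_div_of_nonneg_right ?_ (by positivity)
    -- the numbers
    have hk : ε * (‖κ‖ + t) ≤ 2 + 1 / 16 := by
      have h3 : ε * ‖κ‖ ≤ 2 := by
        rw [le_div_iff₀ h0] at hn
        linarith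
      have h4 : ε * t ≤ 1 / 4 * (1 / 4) := mul_le_mul he ht1 htpos.le (by norm_num)
      nlinarith
    have hk0 : 0 ≤ ε * (‖κ‖ + t) := by positivity
    have hk2 : ε ^ 2 * (1 + 2 * (‖κ‖ + t) ^ 2) ≤ 8.58 := by
      have h3 : (ε * (‖κ‖ + t)) ^ 2 ≤ (2 + 1 / 16) ^ 2 := pow_le_pow_left₀ hk0 hk 2
      have h4 : ε ^ 2 ≤ (1 / 4) ^ 2 := pow_le_pow_left₀ h0.le he 2
      calc ε ^ 2 * (1 + 2 * (‖κ‖ + t) ^ 2) = ε ^ 2 + 2 * (ε * (‖κ‖ + t)) ^ 2 := by ring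
        _ ≤ (1 / 4) ^ 2 + 2 * (2 + 1 / 16) ^ 2 := by linarith
        _ ≤ 8.58 := by norm_num
    have e1 : t * (2 + (1 + 2 * (‖κ‖ + t) ^ 2) / (3 / 8 * E) ^ 2) =
        2 * E ^ 2 * ε ^ 5 + 64 / 9 * ε ^ 3 * (ε ^ 2 * (1 + 2 * (‖κ‖ + t) ^ 2)) := by
      have h5 : t * ((1 + 2 * (‖κ‖ + t) ^ 2) / (3 / 8 * E) ^ 2) =
          64 / 9 * ε ^ 5 * (1 + 2 * (‖κ‖ + t) ^ 2) := by
        nth_rewrite 1 [ht]
        field_simp
        ring
      rw [mul_add, h5]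
      nth_rewrite 1 [ht]
      ring
    rw [e1]
    have h6 : 2 * E ^ 2 * ε ^ 5 ≤ 1 / 100 * ε ^ 3 := by
      have h7 : E ^ 2 ≤ (1 / 4) ^ 2 := pow_le_pow_left₀ hEpos.le hE1 2
      have h8 : ε ^ 2 ≤ (1 / 4) ^ 2 := pow_le_pow_left₀ h0.le he 2
      have h9 : E ^ 2 * ε ^ 2 ≤ (1 / 4) ^ 2 * (1 / 4) ^ 2 :=
        mul_le_mul h7 h8 (by positivity) (by positivity)
      have h10 : 2 * (E ^ 2 * ε ^ 2) ≤ 1 / 100 := by
        refine (mul_le_mul_of_nonneg_left h9 (by norm_num)).trans (by norm_num)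
      calc 2 * E ^ 2 * ε ^ 5 = 2 * (E ^ 2 * ε ^ 2) * ε ^ 3 := by ring
        _ ≤ 1 / 100 * ε ^ 3 := mul_le_mul_of_nonneg_right h10 (by positivity)
    have h11 : 64 / 9 * ε ^ 3 * (ε ^ 2 * (1 + 2 * (‖κ‖ + t) ^ 2)) ≤
        64 / 9 * ε ^ 3 * 8.58 := mul_le_mul_of_nonneg_left hk2 (by positivity)
    have h12 : 0 < ε ^ 3 := pow_pos h0 3
    nlinarith
  · rw [ck_fac]
    exact mul_ne_zero (ne_of_im (abs_pos.mp (hy.trans_le y1)) w)
      (ne_of_im (abs_pos.mp (hy.trans_le y2)) w)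

theorem UT_bad {ε : ℝ} (h0 : 0 < ε) (h1 : 4 * ε ≤ 1) (g : Fin K → ℂ) (r : ℂ)
    (hr : Complex.normSq r * ε ^ 2 ≤ 1) (hg : ∀ j, Complex.normSq (g j) * ε ^ 4 ≤ 1)
    (hb : (r.im ≠ 0 ∧ ε ^ 2 ≤ r.im ^ 2) ∨ (r.im = 0 ∧
      (∀ j, (g j).im = 0 ∧ ε ^ 4 ≤ Complex.normSq (g j)) ∧ ∃ j, (g j).re < 0)) :
    Integrable (UT ε g r) ∧ ∫ w, UT ε g r w = 0 ∧
      (∀ w : ℝ, ‖UT ε g r w‖ ≤ 25 * ε / (1 + w ^ 2)) ∧
      ∀ (σ : Fin K → ℤˣ) (w : ℝ), ((wid K ε : ℂ) ^ 2 + ((w : ℂ) - kap ε g r σ) ^ 2) ≠ 0 := by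
  have hk := fun σ : Fin K → ℤˣ => kap_bad h0 h1 g r hr hg hb σ
  have hc := fun σ : Fin K → ℤˣ => ck_bad64 (K := K) h0 h1 (hk σ).1 (hk σ).2
  have hUT : UT ε g r = fun w : ℝ => r * ((2 : ℂ) ^ K)⁻¹ *
      ∑ σ : Fin K → ℤˣ, ck (wid K ε) (kap ε g r σ) w := by
    funext w
    unfold UT
    simp only [CK_eq64]
  have hint : ∀ σ ∈ (Finset.univ : Finset (Fin K → ℤˣ)),
      Integrable (fun w : ℝ => ck (wid K ε) (kap ε g r σ) w) := fun σ _ => (hc σ).2.2.1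
  refine ⟨?_, ?_, fun w => ?_, fun σ w => ?_⟩
  · rw [hUT]
    exact (integrable_finsetSum _ hint).const_mul _
  · rw [hUT, integral_const_mul, integral_finsetSum _ hint]
    rw [Finset.sum_eq_zero fun σ _ => ck_zero (hc σ).1 (hc σ).2.1, mul_zero]
  · rw [hUT]
    have hrn : ‖r‖ * ε ≤ 1 := by
      have h3 : (‖r‖ * ε) ^ 2 ≤ 1 ^ 2 := by
        rw [mul_pow, ← Complex.normSq_eq_norm_sq, one_pow]
        exact hr
      exact (pow_le_pow_iff_left₀ (by positivity) zero_le_one two_ne_zero).mp h3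
    have hs : ‖∑ σ : Fin K → ℤˣ, ck (wid K ε) (kap ε g r σ) w‖ ≤
        2 ^ K * (62 * ε ^ 3 / (1 + w ^ 2)) := by
      refine (norm_sum_le _ _).trans ?_
      refine (Finset.sum_le_card_nsmul _ _ _ fun σ _ => (hc σ).2.2.2.1 w).trans ?_
      rw [Finset.card_univ, card_units64, nsmul_eq_mul]
      push_cast
      exact le_refl _
    have h2K : (0 : ℝ) < 2 ^ K := by positivity
    have hn2 : ‖((2 : ℂ) ^ K)⁻¹‖ = (2 ^ K)⁻¹ := by
      rw [norm_inv, norm_pow]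
      norm_num
    show ‖r * ((2 : ℂ) ^ K)⁻¹ * ∑ σ : Fin K → ℤˣ, ck (wid K ε) (kap ε g r σ) w‖ ≤ _
    rw [norm_mul, norm_mul, hn2]
    calc ‖r‖ * (2 ^ K)⁻¹ * ‖∑ σ : Fin K → ℤˣ, ck (wid K ε) (kap ε g r σ) w‖ ≤
        ‖r‖ * (2 ^ K)⁻¹ * (2 ^ K * (62 * ε ^ 3 / (1 + w ^ 2))) :=
          mul_le_mul_of_nonneg_left hs (by positivity)
      _ = (‖r‖ * ε) * (62 * ε ^ 2) / (1 + w ^ 2) := by
          field_simp
      _ ≤ 25 * ε / (1 + w ^ 2) := by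
          refine div_le_div_of_nonneg_right ?_ (by positivity)
          have h3 : (‖r‖ * ε) * (62 * ε ^ 2) ≤ 1 * (62 * ε ^ 2) :=
            mul_le_mul_of_nonneg_right hrn (by positivity)
          nlinarith
  · have h3 := (hc σ).2.2.2.2 w
    rwa [add_comm] at h3

end Pool.Agent.WSP
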