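import Pool.Agent.W_2cf66e_P.DefsP
import Pool.Agent.W_2cf66e_h23.LfC

/-!
# MP_2cf66e_nt, theorem P, leaf P5: one term is a rational function of the root (helper35)
-/

set_option autoImplicit false

noncomputable section

open MeasureTheory Set Filter Topology

namespace Pool.Agent.WSP

variable {n K : ℕ}

/-- Even and odd part in the square root. -/
theorem dec35 {B : Type} [CommRing B] (h : B) (P : Polynomial B) :
    ∃ A S : Polynomial B, ∀ (φ : B →+* ℂ) (s y : ℂ), s ^ 2 = φ h →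
      P.eval₂ φ (y + s) = A.eval₂ φ y + s * S.eval₂ φ y ∧
      P.eval₂ φ (y - s) = A.eval₂ φ y - s * S.eval₂ φ y := by
  induction P using Polynomial.induction_on with
  | C a => exact ⟨Polynomial.C a, 0, fun φ s y _ => by simp⟩
  | add p q hp hq =>
    obtain ⟨A, S, h1⟩ := hp
    obtain ⟨A', S', h2⟩ := hq
    refine ⟨A + A', S + S', fun φ s y hs => ?_⟩
    obtain ⟨a1, a2⟩ := h1 φ s y hs
    obtain ⟨b1, b2⟩ := h2 φ s y hs
    simp only [Polynomial.eval₂_add, a1, a2, b1, b2]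
    constructor <;> ring
  | monomial k a ih =>
    obtain ⟨A, S, h1⟩ := ih
    refine ⟨Polynomial.X * A + Polynomial.C h * S, A + Polynomial.X * S, fun φ s y hs => ?_⟩
    obtain ⟨a1, a2⟩ := h1 φ s y hs
    rw [pow_succ, ← mul_assoc]
    simp only [Polynomial.eval₂_mul _ _ (q := Polynomial.X), Polynomial.eval₂_X, a1, a2]
    simp only [Polynomial.eval₂_add, Polynomial.eval₂_mul, Polynomial.eval₂_X,
      Polynomial.eval₂_C, ← hs]
    constructor <;> ring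

/-- Elimination of one square root. -/
theorem pair35 {B : Type} [CommRing B] (h : B) (P Q : Polynomial B) :
    ∃ T : Polynomial B, ∀ (φ : B →+* ℂ) (s y : ℂ), s ^ 2 = φ h →
      T.eval₂ φ y = P.eval₂ φ (y + s) * Q.eval₂ φ (y - s) +
        P.eval₂ φ (y - s) * Q.eval₂ φ (y + s) := by
  obtain ⟨A, S, h1⟩ := dec35 h P
  obtain ⟨A', S', h2⟩ := dec35 h Q
  refine ⟨(A * A' + A * A') - Polynomial.C h * (S * S' + S * S'), fun φ s y hs => ?_⟩
  obtain ⟨a1, a2⟩ := h1 φ s y hs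
  obtain ⟨b1, b2⟩ := h2 φ s y hs
  rw [a1, a2, b1, b2]
  simp only [Polynomial.eval₂_sub, Polynomial.eval₂_add, Polynomial.eval₂_mul,
    Polynomial.eval₂_C, ← hs]
  ring

/-- Elimination of all square roots. -/
theorem elim35 {B : Type} [CommRing B] : ∀ (K : ℕ) (h : Fin K → B) (P Q : Polynomial B),
    ∃ P' Q' : Polynomial B, ∀ (φ : B →+* ℂ) (s : Fin K → ℂ) (y : ℂ),
      (∀ j, s j ^ 2 = φ (h j)) →
      (∀ σ : Fin K → ℤˣ, Q.eval₂ φ (y + ∑ j, ((σ j : ℤ) : ℂ) * s j) ≠ 0) →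
      Q'.eval₂ φ y ≠ 0 ∧
      ∑ σ : Fin K → ℤˣ, P.eval₂ φ (y + ∑ j, ((σ j : ℤ) : ℂ) * s j) /
        Q.eval₂ φ (y + ∑ j, ((σ j : ℤ) : ℂ) * s j) = P'.eval₂ φ y / Q'.eval₂ φ y := by
  intro K
  induction K with
  | zero =>
    intro h P Q
    refine ⟨P, Q, fun φ s y _ h0 => ?_⟩
    have h1 := h0 default
    simp only [Finset.univ_eq_empty, Finset.sum_empty, add_zero] at h1
    exact ⟨h1, by simp⟩
  | succ K ih =>
    intro h P Q
    obtain ⟨T, hT⟩ := pair35 (h 0) P Q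
    obtain ⟨U, hU⟩ := pair35 (h 0) Q Q
    obtain ⟨P', Q', h'⟩ := ih (fun j => h j.succ) (T + T) U
    refine ⟨P', Q', fun φ s y hs h0 => ?_⟩
    have e1 : ∀ (σ : Fin K → ℤˣ), y + ∑ j : Fin (K + 1),
        (((Fin.cons 1 σ : Fin (K + 1) → ℤˣ) j : ℤ) : ℂ) * s j =
        (y + ∑ j : Fin K, ((σ j : ℤ) : ℂ) * s j.succ) + s 0 := by
      intro σ
      rw [Fin.sum_univ_succ]
      simp only [Fin.cons_zero, Fin.cons_succ, Units.val_one, Int.cast_one, one_mul]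
      ring
    have e2 : ∀ (σ : Fin K → ℤˣ), y + ∑ j : Fin (K + 1),
        (((Fin.cons (-1) σ : Fin (K + 1) → ℤˣ) j : ℤ) : ℂ) * s j =
        (y + ∑ j : Fin K, ((σ j : ℤ) : ℂ) * s j.succ) - s 0 := by
      intro σ
      rw [Fin.sum_univ_succ]
      simp only [Fin.cons_zero, Fin.cons_succ, Units.val_neg, Units.val_one, Int.cast_neg,
        Int.cast_one, neg_mul, one_mul]
      ring
    have n1 : ∀ (σ : Fin K → ℤˣ),
        Q.eval₂ φ ((y + ∑ j : Fin K, ((σ j : ℤ) : ℂ) * s j.succ) + s 0) ≠ 0 := by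
      intro σ
      rw [← e1]
      exact h0 _
    have n2 : ∀ (σ : Fin K → ℤˣ),
        Q.eval₂ φ ((y + ∑ j : Fin K, ((σ j : ℤ) : ℂ) * s j.succ) - s 0) ≠ 0 := by
      intro σ
      rw [← e2]
      exact h0 _
    have hne : ∀ (σ : Fin K → ℤˣ),
        U.eval₂ φ (y + ∑ j : Fin K, ((σ j : ℤ) : ℂ) * s j.succ) ≠ 0 := by
      intro σ
      rw [hU φ (s 0) _ (hs 0)]
      intro h1
      have h2 : (2 : ℂ) * (Q.eval₂ φ ((y + ∑ j : Fin K, ((σ j : ℤ) : ℂ) * s j.succ) + s 0) *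
          Q.eval₂ φ ((y + ∑ j : Fin K, ((σ j : ℤ) : ℂ) * s j.succ) - s 0)) = 0 := by
        rw [← h1]
        ring
      exact mul_ne_zero two_ne_zero (mul_ne_zero (n1 σ) (n2 σ)) h2
    obtain ⟨k1, k2⟩ := h' φ (fun j => s j.succ) y (fun j => hs j.succ) hne
    refine ⟨k1, ?_⟩
    rw [← k2, ← (Fin.consEquiv (fun _ : Fin (K + 1) => ℤˣ)).sum_comp, Fintype.sum_prod_type_right]
    refine Finset.sum_congr rfl fun σ _ => ?_
    rw [UnitsInt.univ, Finset.sum_pair (by decide)]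
    simp only [Fin.consEquiv_apply]
    rw [e1, e2, Polynomial.eval₂_add, hT φ (s 0) _ (hs 0), hU φ (s 0) _ (hs 0)]
    have m1 := n1 σ
    have m2 := n2 σ
    field_simp

/-- The ring of the families of polynomials. -/
def B35 (m : ℕ) : Subring ((Fin m → ℝ) → Polynomial ℝ) where
  carrier := {F | PR78 F}
  mul_mem' := fun hF hG => PR78.mul hF hG
  one_mem' := PR78.one
  add_mem' := fun hF hG => PR78.add hF hG
  zero_mem' := (PR78.C (RF.const 0)).congr fun z => by simp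
  neg_mem' := fun {F} hF => ((PR78.C (RF.const 0)).sub hF).congr fun z => by simp

/-- Evaluation. -/
def ev35 {m : ℕ} (z : Fin m → ℝ) (r : ℂ) : B35 m →+* ℂ :=
  ((Polynomial.aeval r : Polynomial ℝ →ₐ[ℝ] ℂ) : Polynomial ℝ →+* ℂ).comp
    ((Pi.evalRingHom (fun _ : Fin m → ℝ => Polynomial ℝ) z).comp (B35 m).subtype)

theorem ev35_apply {m : ℕ} (z : Fin m → ℝ) (r : ℂ) (F : B35 m) :
    ev35 z r F = Polynomial.aeval r (F.1 z) := rfl

theorem sq35 (z : ℂ) : sq2 z ^ 2 = z := by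
  unfold sq2
  have h := Complex.cpow_nat_inv_pow z (n := 2) two_ne_zero
  rw [one_div]
  exact_mod_cast h

/-! P5: one term is a rational function of the root. -/
theorem UT_ratl (G : Fin K → MvPolynomial (Fin (n + 1)) ℚ) (ε : (Fin n → ℝ) → ℝ) (hε : RF ε) :
    ∃ (k : ℕ) (N D : (Fin (n + 1) → ℝ) → Polynomial ℝ),
      (∀ z, (N z).natDegree ≤ k) ∧ (∀ i, AR (fun z => (N z).coeff i)) ∧
      (∀ z, (D z).natDegree ≤ k) ∧ (∀ i, AR (fun z => (D z).coeff i)) ∧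
      ∀ (z : Fin (n + 1) → ℝ) (r : ℂ),
        (∀ σ : Fin K → ℤˣ, ((wid K (ε (tl z)) : ℂ) ^ 2 +
          ((z 0 : ℂ) - kap (ε (tl z)) (gv G (tl z) r) r σ) ^ 2) ≠ 0) →
        Polynomial.aeval r (D z) ≠ 0 ∧ UT (ε (tl z)) (gv G (tl z) r) r (z 0) =
          Polynomial.aeval r (N z) / Polynomial.aeval r (D z) := by
  classical
  have hE := RF_tl78 hε
  obtain ⟨eb, heb⟩ : ∃ e : B35 (n + 1), ∀ z r, ev35 z r e = (ε (tl z) : ℂ) :=
    ⟨⟨fun z => Polynomial.C (ε (tl z)), PR78.C hE⟩, fun z r => by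
      rw [ev35_apply]; simp⟩
  obtain ⟨wb, hwb⟩ : ∃ e : B35 (n + 1), ∀ z r, ev35 z r e = (z 0 : ℂ) :=
    ⟨⟨fun z => Polynomial.C (z 0), PR78.C (RF.var 0)⟩, fun z r => by
      rw [ev35_apply]; simp⟩
  obtain ⟨xb, hxb⟩ : ∃ e : B35 (n + 1), ∀ z r, ev35 z r e = r :=
    ⟨⟨fun z => Polynomial.X, PR78.X⟩, fun z r => by
      rw [ev35_apply]; simp⟩
  have hg : ∀ j, ∃ e : B35 (n + 1), ∀ z r, ev35 z r e = gv G (tl z) r j := fun j =>
    ⟨⟨fun z => sec (G j) (tl z), PR78.sec (G j)⟩, fun z r => by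
      rw [ev35_apply]; rfl⟩
  choose gb hgb using hg
  obtain ⟨P', Q', h'⟩ := elim35 K (fun j => eb ^ (6 * ((j : ℕ) + 1)) * gb j)
    (Polynomial.C (eb ^ (6 * K + 7)))
    (Polynomial.C (eb ^ (6 * K + 7)) ^ 2 + (Polynomial.C wb - Polynomial.X) ^ 2)
  obtain ⟨k, hk, hc⟩ : PR78 (xb * P'.eval xb).1 := (xb * P'.eval xb).2
  obtain ⟨l, hl, hd⟩ : PR78 (2 ^ K * Q'.eval xb).1 := (2 ^ K * Q'.eval xb).2
  refine ⟨max k l, (xb * P'.eval xb).1, (2 ^ K * Q'.eval xb).1,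
    fun z => (hk z).trans (le_max_left _ _), fun i => AR_of_RF78 (hc i),
    fun z => (hl z).trans (le_max_right _ _), fun i => AR_of_RF78 (hd i), fun z r hne => ?_⟩
  have ep : ∀ R : Polynomial (B35 (n + 1)), ev35 z r (R.eval xb) = R.eval₂ (ev35 z r) r := by
    intro R
    rw [← Polynomial.eval₂_at_apply, hxb]
  obtain ⟨a1, a2⟩ := h' (ev35 z r)
    (fun j => (ε (tl z) : ℂ) ^ (3 * ((j : ℕ) + 1)) * sq2 (gv G (tl z) r j)) r (by
      intro j
      rw [map_mul, map_pow, heb, hgb, mul_pow, sq35, ← pow_mul]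
      congr 2
      ring) (by
      intro σ
      rw [Polynomial.eval₂_add, Polynomial.eval₂_pow, Polynomial.eval₂_pow, Polynomial.eval₂_sub,
        Polynomial.eval₂_C, Polynomial.eval₂_C, Polynomial.eval₂_X, map_pow, heb, hwb]
      have h1 := hne σ
      unfold wid kap at h1
      push_cast at h1
      exact h1)
  rw [← ev35_apply, ← ev35_apply, map_mul, map_mul, map_pow, map_ofNat, ep, ep, hxb]
  have h2 : (2 : ℂ) ^ K ≠ 0 := pow_ne_zero _ two_ne_zero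
  refine ⟨mul_ne_zero h2 a1, ?_⟩
  have e3 : ∑ σ : Fin K → ℤˣ, CK (kap (ε (tl z)) (gv G (tl z) r) r σ) (wid K (ε (tl z))) (z 0) =
      P'.eval₂ (ev35 z r) r / Q'.eval₂ (ev35 z r) r := by
    rw [← a2]
    refine Finset.sum_congr rfl fun σ _ => ?_
    rw [Polynomial.eval₂_add, Polynomial.eval₂_pow, Polynomial.eval₂_pow, Polynomial.eval₂_sub,
        Polynomial.eval₂_C, Polynomial.eval₂_C, Polynomial.eval₂_X, map_pow, heb, hwb]
    unfold CK wid kap
    push_cast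
    rfl
  unfold UT
  rw [e3]
  field_simp

end Pool.Agent.WSP
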