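import Pool.Agent.W_2cf66e_P.DefsP
import Pool.Agent.W_2cf66e_h23.LfM1
import Pool.Agent.W_2cf66e_h23.LfL

/-!
# MP_2cf66e_nt, theorem P, leaf P6: admissible values of `ε` (helper78)
-/

set_option autoImplicit false

noncomputable section

open MeasureTheory Set Filter Topology

namespace Pool.Agent.WSP

open U78 Pool.Agent.W_MP_25fb88_lc Pool.Agent.W_2cf66e_h78.Inner

variable {n K : ℕ}

/-- The admissible pairs are definable. -/
theorem Adm_df78 (f : MvPolynomial (Fin (n + 1)) ℚ) (G : Fin K → MvPolynomial (Fin (n + 1)) ℚ)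
    (E : ℕ) : Df (fun z : Fin (n + 1) → ℝ => z ∈ Adm f G E) := by
  -- the variables: `b`, `a`, and the point
  let κ := Option (Option (Fin (n + 1)))
  let iv : Fin (n + 1) → κ := fun i => some (some i)
  have hr : PC (fun v : κ → ℝ => ((v (some none) : ℝ) : ℂ) + ((v none : ℝ) : ℂ) * Complex.I) :=
    PC_lin (PolyFun.var (some none : κ)) (PolyFun.var (none : κ))
  let g : Fin (n + 1) → (κ → ℝ) → ℂ := Fin.cons
    (fun v : κ → ℝ => ((v (some none) : ℝ) : ℂ) + ((v none : ℝ) : ℂ) * Complex.I)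
    (fun j v => ((v (iv j.succ) : ℝ) : ℂ))
  have hg : ∀ i, PC (g i) := by
    intro i
    refine Fin.cases ?_ (fun j => ?_) i
    · exact hr
    · exact PC.ofReal (PolyFun.var (iv j.succ))
  have hgv : ∀ v : κ → ℝ, (fun i => g i v) = (Fin.cons
      (((v (some none) : ℝ) : ℂ) + ((v none : ℝ) : ℂ) * Complex.I)
      (fun j => ((v (iv j.succ) : ℝ) : ℂ)) : Fin (n + 1) → ℂ) := by
    intro v
    funext i
    refine Fin.cases rfl (fun j => rfl) i
  let x : (κ → ℝ) → Fin n → ℝ := fun v j => v (iv j.succ)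
  let rr : (κ → ℝ) → ℂ := fun v => ((v (some none) : ℝ) : ℂ) + ((v none : ℝ) : ℂ) * Complex.I
  obtain ⟨N, hN, h1⟩ := clearC78 g hg f
  have hN' : (N : ℂ) ≠ 0 := by exact_mod_cast hN.ne'
  have hsecP : Df (fun v : κ → ℝ => Polynomial.aeval (rr v) (sec f (x v)) = 0) := by
    refine (PC.eq h1 (PC.int 0)).congr fun v => ?_
    rw [sec_aeval78, hgv v]
    simp [hN', rr, x]
  have hx : ∀ j, PolyFun (fun v : κ → ℝ => x v j) := fun j => PolyFun.var (iv j.succ)
  have hb0 : Df (fun v : κ → ℝ => v none = 0) :=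
    (Df.eq (PolyFun.var (none : κ)) (PolyFun.const 0)).congr fun v => by simp
  have hG : ∀ j : Fin K, Df (fun v : κ → ℝ =>
      Complex.normSq (gv G (x v) (rr v) j) * (v (iv 0)) ^ 4 ≤ 1 ∧
      (v none = 0 → (v (iv 0)) ^ 4 ≤ Complex.normSq (gv G (x v) (rr v) j))) := by
    intro j
    obtain ⟨M, hM, h2⟩ := clearC78 g hg (G j)
    have hMM : (0 : ℝ) < (M : ℝ) * M := by
      have : (0 : ℝ) < M := by exact_mod_cast hM
      positivity
    have hns : PolyFun (fun v : κ → ℝ => Complex.normSq ((M : ℂ) * (MvPolynomial.aeval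
      (fun i => g i v) (G j) : ℂ))) := PC_normSq h2
    have hval : ∀ v : κ → ℝ, Complex.normSq ((M : ℂ) * (MvPolynomial.aeval
        (fun i => g i v) (G j) : ℂ)) = (M : ℝ) * M * Complex.normSq (gv G (x v) (rr v) j) := by
      intro v
      rw [Complex.normSq_mul, Complex.normSq_natCast, hgv v]
      unfold gv
      rw [sec_aeval78]
    refine Df.and ?_ (hb0.imp ?_)
    · refine (Df.le (hns.mul ((PolyFun.var (iv 0)).pow 4))
        (PolyFun.const ((M * M : ℕ) : ℤ))).congr fun v => ?_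
      rw [hval v]
      push_cast
      constructor
      · intro h
        refine le_of_mul_le_mul_left ?_ hMM
        linarith
      · intro h
        have := mul_le_mul_of_nonneg_left h hMM.le
        linarith
    · refine (Df.le ((PolyFun.const ((M * M : ℕ) : ℤ)).mul ((PolyFun.var (iv 0)).pow 4))
        hns).congr fun v => ?_
      rw [hval v]
      push_cast
      constructor
      · intro h
        exact le_of_mul_le_mul_left h hMM
      · intro h
        exact mul_le_mul_of_nonneg_left h hMM.le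
  have hin : Df (fun v : κ → ℝ => Polynomial.aeval (rr v) (sec f (x v)) = 0 →
      ((v (some none)) ^ 2 + (v none) ^ 2) * (v (iv 0)) ^ 2 ≤ 1 ∧
      (v none ≠ 0 → (v (iv 0)) ^ 2 ≤ (v none) ^ 2) ∧
      ∀ j, Complex.normSq (gv G (x v) (rr v) j) * (v (iv 0)) ^ 4 ≤ 1 ∧
        (v none = 0 → (v (iv 0)) ^ 4 ≤ Complex.normSq (gv G (x v) (rr v) j))) := by
    refine hsecP.imp (Df.and ?_ (Df.and (hb0.not.imp ?_) (Df.forall_fin hG)))
    · refine (Df.le ((((PolyFun.var (some none : κ)).pow 2).add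
        ((PolyFun.var (none : κ)).pow 2)).mul ((PolyFun.var (iv 0)).pow 2))
        (PolyFun.const 1)).congr fun v => by simp
    · exact Df.le ((PolyFun.var (iv 0)).pow 2) ((PolyFun.var (none : κ)).pow 2)
  have hall := hin.all.all
  have ht : Df (fun z : Fin (n + 1) → ℝ => 0 < z 0 ∧ 4 * z 0 ≤ 1) :=
    ((Df.lt (PolyFun.const 0) (PolyFun.var (0 : Fin (n + 1)))).and
      (Df.le ((PolyFun.const 4).mul (PolyFun.var (0 : Fin (n + 1)))) (PolyFun.const 1))).congr
      fun z => by simp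
  have hX : PolyFun (fun z : Fin (n + 1) → ℝ => ∏ j : Fin n, tl z j) :=
    PolyFun.prod _ fun j => PolyFun.var (j.succ)
  have hW : PolyFun (fun z : Fin (n + 1) → ℝ => ∏ j : Fin n, (((1 : ℤ) : ℝ) + (tl z j) ^ 2)) :=
    PolyFun.prod _ fun j => (PolyFun.const 1).add ((PolyFun.var (j.succ)).pow 2)
  have heta : Df (fun z : Fin (n + 1) → ℝ => (E : ℝ) * z 0 ≤ eta (tl z)) := by
    refine (Df.le ((((PolyFun.const (E : ℤ)).mul (PolyFun.var (0 : Fin (n + 1)))).mul
      (((PolyFun.const 1).add (hX.pow 2)).mul (hW.pow 2)))) (hX.pow 2)).congr fun z => ?_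
    unfold eta
    have hpos : 0 < (1 + (∏ j, tl z j) ^ 2) * (∏ j, (1 + (tl z j) ^ 2)) ^ 2 := by
      have h5 : 0 < ∏ j, (1 + (tl z j) ^ 2) := Finset.prod_pos fun j _ => by positivity
      positivity
    rw [le_div_iff₀ hpos]
    push_cast
    exact Iff.rfl
  refine Df.congr (ht.and (heta.and hall)) fun z => ?_
  unfold Adm
  rw [Set.mem_setOf_eq]
  exact Iff.rfl

/-- Small values are admissible. -/
theorem Adm_ex78 (f : MvPolynomial (Fin (n + 1)) ℚ) (G : Fin K → MvPolynomial (Fin (n + 1)) ℚ)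
    (E : ℕ) (x : Fin n → ℝ) (hx : sec f x ≠ 0) (he : 0 < eta x)
    (hG : ∀ r : ℝ, (sec f x).eval r = 0 → ∀ j, (sec (G j) x).eval r ≠ 0) :
    ∃ t₀ : ℝ, 0 < t₀ ∧ ∀ t : ℝ, 0 < t → t < t₀ →
      (Fin.cons t x : Fin (n + 1) → ℝ) ∈ Adm f G E := by
  have hx' : (sec f x).map (algebraMap ℝ ℂ) ≠ 0 :=
    (Polynomial.map_ne_zero_iff (algebraMap ℝ ℂ).injective).2 hx
  have lim : ∀ F : ℝ → ℝ, Continuous F → ∀ c : ℝ, F 0 < c → ∀ᶠ t in 𝓝 (0 : ℝ), F t ≤ c := by
    intro F hF c hc
    filter_upwards [(hF.tendsto 0).eventually_lt_const hc] with t ht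
    exact ht.le
  have key : ∀ᶠ t in 𝓝 (0 : ℝ), ∀ r ∈ ((sec f x).map (algebraMap ℝ ℂ)).roots.toFinset,
      (r.re ^ 2 + r.im ^ 2) * t ^ 2 ≤ 1 ∧ (r.im ≠ 0 → t ^ 2 ≤ r.im ^ 2) ∧
      ∀ j, Complex.normSq (gv G x r j) * t ^ 4 ≤ 1 ∧
        (r.im = 0 → t ^ 4 ≤ Complex.normSq (gv G x r j)) := by
    rw [Filter.eventually_all_finset]
    intro r hr
    refine (lim (fun t => (r.re ^ 2 + r.im ^ 2) * t ^ 2) (by fun_prop) 1 (by simp)).and
      (Filter.Eventually.and ?_ ?_)
    · by_cases h1 : r.im = 0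
      · exact Eventually.of_forall fun t h => absurd h1 h
      · filter_upwards [lim (fun t => t ^ 2) (by fun_prop) (r.im ^ 2)
          (by simpa using pow_pos (abs_pos.2 h1) 2 |>.trans_eq (sq_abs _))] with t ht _
        exact ht
    · rw [Filter.eventually_all]
      intro j
      refine (lim (fun t => Complex.normSq (gv G x r j) * t ^ 4) (by fun_prop) 1
        (by simp)).and ?_
      by_cases h1 : r.im = 0
      · have h2 : r = ((r.re : ℝ) : ℂ) := by
          apply Complex.ext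
          · simp
          · simp [h1]
        have h3 : (sec f x).eval r.re = 0 := by
          rw [Multiset.mem_toFinset, Polynomial.mem_roots hx', Polynomial.IsRoot.def,
            Polynomial.eval_map_algebraMap, h2] at hr
          have h4 : Polynomial.aeval ((r.re : ℝ) : ℂ) (sec f x) =
              (((sec f x).eval r.re : ℝ) : ℂ) := by
            have := Polynomial.aeval_algebraMap_apply ℂ r.re (sec f x)
            simpa using this
          rw [h4] at hr
          exact_mod_cast hr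
        have h5 := hG r.re h3 j
        have h6 : gv G x r j = (((sec (G j) x).eval r.re : ℝ) : ℂ) := by
          unfold gv
          rw [h2]
          have := Polynomial.aeval_algebraMap_apply ℂ r.re (sec (G j) x)
          simpa using this
        have h7 : 0 < Complex.normSq (gv G x r j) := by
          rw [Complex.normSq_pos, h6]
          exact_mod_cast h5
        filter_upwards [lim (fun t => t ^ 4) (by fun_prop) (Complex.normSq (gv G x r j))
          (by simpa using h7)] with t ht _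
        exact ht
      · exact Eventually.of_forall fun t h => absurd h h1
  have key2 := (lim (fun t => 4 * t) (by fun_prop) 1 (by simp)).and
    ((lim (fun t => (E : ℝ) * t) (by fun_prop) (eta x) (by simpa using he)).and key)
  obtain ⟨δ, hδ, hδ'⟩ := Metric.eventually_nhds_iff.1 key2
  refine ⟨δ, hδ, fun t h0 h1 => ?_⟩
  obtain ⟨k1, k2, k3⟩ := hδ' (y := t) (by rw [Real.dist_eq, sub_zero, abs_of_pos h0]; exact h1)
  have htl : tl (Fin.cons t x : Fin (n + 1) → ℝ) = x := by
    funext j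
    simp [tl]
  have h0' : (Fin.cons t x : Fin (n + 1) → ℝ) 0 = t := by simp
  refine ⟨⟨by rw [h0']; exact h0, by rw [h0']; exact k1⟩, by rw [h0', htl]; exact k2, ?_⟩
  rw [h0', htl]
  intro a b hr
  set r : ℂ := (a : ℂ) + (b : ℂ) * Complex.I with hrdef
  have hre : r.re = a := by simp [hrdef]
  have him : r.im = b := by simp [hrdef]
  have hmem : r ∈ ((sec f x).map (algebraMap ℝ ℂ)).roots.toFinset := by
    rw [Multiset.mem_toFinset, Polynomial.mem_roots hx', Polynomial.IsRoot.def,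
      Polynomial.eval_map_algebraMap]
    exact hr
  have h3 := k3 r hmem
  rw [hre, him] at h3
  exact h3

theorem eta_pos78 : ∀ᵐ x : Fin n → ℝ, 0 < eta x := by
  have h1 : (∏ j : Fin n, MvPolynomial.X j : MvPolynomial (Fin n) ℚ) ≠ 0 :=
    Finset.prod_ne_zero_iff.2 fun j _ => MvPolynomial.X_ne_zero j
  have h2 := Pool.Agent.CVol.null_rat (∏ j : Fin n, MvPolynomial.X j : MvPolynomial (Fin n) ℚ) h1
  have h3 : ∀ᵐ x : Fin n → ℝ, (∏ j, x j) ≠ 0 := by
    rw [ae_iff]
    simp only [not_not]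
    refine measure_mono_null ?_ h2
    intro x hx
    have hx' : (∏ j, x j) = 0 := hx
    simpa using hx'
  filter_upwards [h3] with x hx
  unfold eta
  have h5 : 0 < ∏ j, (1 + (x j) ^ 2) := Finset.prod_pos fun j _ => by positivity
  positivity

theorem adm_eps (f : MvPolynomial (Fin (n + 1)) ℚ) (hf : GenS f)
    (G : Fin K → MvPolynomial (Fin (n + 1)) ℚ) (E : ℕ)
    (hG : ∀ᵐ x : Fin n → ℝ, ∀ r : ℝ, (sec f x).eval r = 0 → ∀ j, (sec (G j) x).eval r ≠ 0) :
    ∃ ε : (Fin n → ℝ) → ℝ, RF ε ∧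
      ∀ᵐ x : Fin n → ℝ, (Fin.cons (ε x) x : Fin (n + 1) → ℝ) ∈ Adm f G E := by
  obtain ⟨ε, h1, h2⟩ := eps_lem (Adm f G E) (df_isSA (Adm_df78 f G E)) (by
    filter_upwards [hf, hG, eta_pos78 (n := n)] with x hx hGx hex
    exact Adm_ex78 f G E x hx.1 hex hGx)
  refine ⟨ε, h1, ?_⟩
  filter_upwards [h2] with x hx
  exact hx.2

end Pool.Agent.WSP
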