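import Pool.Agent.W_2cf66e_P.LpA
import Pool.Agent.W_2cf66e_P.LpC
import Pool.Agent.W_2cf66e_P.LpE
import Pool.Agent.W_2cf66e_h23.MainA

/-!
# MP_2cf66e_nt, theorem P, leaf P7: the sum over the roots is rational (helper3)
-/

set_option autoImplicit false

noncomputable section

open MeasureTheory Set Filter Topology

namespace Pool.Agent.WSP

variable {n K : ℕ}

/-- The values of a real polynomial at a real number. -/
theorem aeval_real7 (p : Polynomial ℝ) (a : ℝ) :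
    (Polynomial.aeval (a : ℂ) p : ℂ) = ((p.eval a : ℝ) : ℂ) := by
  have h := Polynomial.aeval_algebraMap_apply ℂ a p
  rwa [Polynomial.coe_aeval_eq_eval] at h

/-- The denominators are not zero at the roots. -/
theorem den_ne7 (f : MvPolynomial (Fin (n + 1)) ℚ)
    (G : Fin K → MvPolynomial (Fin (n + 1)) ℚ) (E : ℕ) (e : ℝ) (x : Fin n → ℝ)
    (hA : (Fin.cons e x : Fin (n + 1) → ℝ) ∈ Adm f G E)
    (hs : ∀ r : ℝ, (sec f x).eval r = 0 → (∀ j, 0 < (sec (G j) x).eval r) → 0 ≤ r)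
    (r : ℂ) (hr : Polynomial.aeval r (sec f x) = 0) (σ : Fin K → ℤˣ) (w : ℝ) :
    ((wid K e : ℂ) ^ 2 + ((w : ℂ) - kap e (gv G x r) r σ) ^ 2) ≠ 0 := by
  obtain ⟨⟨h1, h2⟩, -, h3⟩ := hA
  simp only [Fin.cons_zero, tl_cons] at h1 h2 h3
  have hrr : (r.re : ℂ) + (r.im : ℂ) * Complex.I = r := Complex.re_add_im r
  obtain ⟨h4, h5, h6⟩ := h3 r.re r.im (by rw [hrr]; exact hr)
  rw [hrr] at h6
  have hn : Complex.normSq r * e ^ 2 ≤ 1 := by
    rw [Complex.normSq_apply]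
    nlinarith [h4]
  by_cases him : r.im = 0
  · have hre : r = ((r.re : ℝ) : ℂ) := by
      apply Complex.ext
      · simp
      · simp [him]
    have hroot : (sec f x).eval r.re = 0 := by
      rw [hre, aeval_real7] at hr
      exact Complex.ofReal_eq_zero.1 hr
    have hgv : gv G x r = fun j => (((sec (G j) x).eval r.re : ℝ) : ℂ) := by
      funext j
      unfold gv
      conv_lhs => rw [hre]
      exact aeval_real7 _ _
    by_cases hpos : ∀ j, 0 < (sec (G j) x).eval r.re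
    · obtain ⟨u, -, -, -, -, h7⟩ := UT_good h1 (fun j => (sec (G j) x).eval r.re) hpos r.re
        (hs r.re hroot hpos)
      have h8 := h7 σ w
      rw [← hgv, ← hre] at h8
      exact h8
    · push Not at hpos
      obtain ⟨j, hj⟩ := hpos
      refine (UT_bad h1 h2 (gv G x r) r hn (fun j => (h6 j).1) (Or.inr ⟨him, ?_, j, ?_⟩)).2.2.2 σ w
      · intro i
        refine ⟨?_, (h6 i).2 him⟩
        rw [hgv]
        exact Complex.ofReal_im _
      · have h7 := (h6 j).2 him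
        rw [hgv] at h7 ⊢
        simp only [Complex.normSq_ofReal, Complex.ofReal_re] at h7 ⊢
        rcases lt_or_eq_of_le hj with h8 | h8
        · exact h8
        · exfalso
          rw [h8] at h7
          have : 0 < e ^ 4 := by positivity
          nlinarith
  · exact (UT_bad h1 h2 (gv G x r) r hn (fun j => (h6 j).1) (Or.inl ⟨him, h5 him⟩)).2.2.2 σ w

theorem RR_ar (f : MvPolynomial (Fin (n + 1)) ℚ) (hf : GenS f)
    (G : Fin K → MvPolynomial (Fin (n + 1)) ℚ) (E : ℕ) (ε : (Fin n → ℝ) → ℝ) (hε : RF ε)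
    (hA : ∀ᵐ x : Fin n → ℝ, (Fin.cons (ε x) x : Fin (n + 1) → ℝ) ∈ Adm f G E)
    (hs : ∀ᵐ x : Fin n → ℝ, ∀ r : ℝ, (sec f x).eval r = 0 →
      (∀ j, 0 < (sec (G j) x).eval r) → 0 ≤ r) :
    ∃ g : (Fin (n + 1) → ℝ) → ℝ, AR g ∧ ∀ᵐ z : Fin (n + 1) → ℝ, RRf f G ε z = (g z : ℂ) := by
  obtain ⟨k, N, D, hN, hNc, hD, hDc, hU⟩ := UT_ratl G ε hε
  have hf0 : f ≠ 0 := by
    intro h0
    obtain ⟨x, hx⟩ := hf.exists
    apply hx.1
    rw [h0]
    simp [sec]
  have hall : ∀ᵐ z : Fin (n + 1) → ℝ, ∀ r ∈ rts f (tl z), ∀ σ : Fin K → ℤˣ,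
      ((wid K (ε (tl z)) : ℂ) ^ 2 +
        ((z 0 : ℂ) - kap (ε (tl z)) (gv G (tl z) r) r σ) ^ 2) ≠ 0 := by
    filter_upwards [ae_tl (n := n) hf, ae_tl (n := n) hA, ae_tl (n := n) hs] with z h1 h2 h3 r hr σ
    exact den_ne7 f G E (ε (tl z)) (tl z) h2 h3 r ((mem_rts h1.1 r).1 hr) σ (z 0)
  obtain ⟨g, hg, hgz⟩ := sym_ar f hf0 N D k hN hNc hD hDc
    (hall.mono fun z hz r hr => (hU z r (hz r hr)).1)
  refine ⟨g, hg, ?_⟩
  filter_upwards [hgz, hall] with z h1 h2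
  rw [← h1]
  unfold RRf
  congr 1
  refine Multiset.map_congr rfl fun r hr => ?_
  exact (hU z r (h2 r hr)).2

end Pool.Agent.WSP
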