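import Pool.Agent.W_2cf66e_P.LpA
import Pool.Agent.W_2cf66e_P.LpC

/-!
# MP_2cf66e_nt, theorem P, leaf P8: one fibre
-/

set_option autoImplicit false

noncomputable section

open MeasureTheory Set Filter Topology

namespace Pool.Agent.WSP

variable {n K : ℕ}

/-- The value of a section at a real point. -/
theorem gv_real14 (G : Fin K → MvPolynomial (Fin (n + 1)) ℚ) (x : Fin n → ℝ) (a : ℝ) :
    gv G x (a : ℂ) = fun j => (((sec (G j) x).eval a : ℝ) : ℂ) := by
  funext j
  unfold gv
  have h := Polynomial.aeval_algebraMap_apply ℂ a (sec (G j) x)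
  simpa [Polynomial.coe_aeval_eq_eval] using h

open scoped Classical in
/-- One root. -/
theorem root14 (f : MvPolynomial (Fin (n + 1)) ℚ) (G : Fin K → MvPolynomial (Fin (n + 1)) ℚ)
    (E : ℕ) (e : ℝ) (x : Fin n → ℝ)
    (hA : (Fin.cons e x : Fin (n + 1) → ℝ) ∈ Adm f G E)
    (hs : ∀ r : ℝ, (sec f x).eval r = 0 → (∀ j, 0 < (sec (G j) x).eval r) → 0 ≤ r)
    (r : ℂ) (hr : Polynomial.aeval r (sec f x) = 0) :
    Integrable (UT e (gv G x r) r) ∧
      ∫ w, UT e (gv G x r) r w =
        ((Real.pi * (if r.im = 0 ∧ ∀ j, 0 < (sec (G j) x).eval r.re then r.re else 0) : ℝ) : ℂ) ∧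
      ∀ w : ℝ, -(25 * e / (1 + w ^ 2)) ≤ (UT e (gv G x r) r w).re := by
  have htl : tl (Fin.cons e x : Fin (n + 1) → ℝ) = x := by
    funext j
    simp [tl]
  have hz0 : (Fin.cons e x : Fin (n + 1) → ℝ) 0 = e := by simp
  obtain ⟨⟨he, he4⟩, -, hab⟩ := hA
  rw [hz0] at he he4
  have hr' : Polynomial.aeval ((r.re : ℂ) + (r.im : ℂ) * Complex.I)
      (sec f (tl (Fin.cons e x : Fin (n + 1) → ℝ))) = 0 := by
    rw [htl, Complex.re_add_im]
    exact hr
  obtain ⟨hab1, hab2, hab3⟩ := hab r.re r.im hr'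
  simp only [hz0, htl, Complex.re_add_im] at hab1 hab2 hab3
  have hns : Complex.normSq r * e ^ 2 ≤ 1 := by
    rw [Complex.normSq_apply]
    nlinarith [hab1]
  have hgs : ∀ j, Complex.normSq (gv G x r j) * e ^ 4 ≤ 1 := fun j => (hab3 j).1
  -- the unwanted roots
  have bad : ((r.im ≠ 0 ∧ e ^ 2 ≤ r.im ^ 2) ∨ (r.im = 0 ∧
      (∀ j, (gv G x r j).im = 0 ∧ e ^ 4 ≤ Complex.normSq (gv G x r j)) ∧
        ∃ j, (gv G x r j).re < 0)) →
      ¬ (r.im = 0 ∧ ∀ j, 0 < (sec (G j) x).eval r.re) →
      Integrable (UT e (gv G x r) r) ∧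
      ∫ w, UT e (gv G x r) r w =
        ((Real.pi * (if r.im = 0 ∧ ∀ j, 0 < (sec (G j) x).eval r.re then r.re else 0) : ℝ) : ℂ) ∧
      ∀ w : ℝ, -(25 * e / (1 + w ^ 2)) ≤ (UT e (gv G x r) r w).re := by
    intro hb hn
    obtain ⟨i1, i2, i3, -⟩ := UT_bad he he4 (gv G x r) r hns hgs hb
    refine ⟨i1, ?_, fun w => ?_⟩
    · rw [i2, if_neg hn]
      simp
    · have h1 := i3 w
      have h2 : |(UT e (gv G x r) r w).re| ≤ ‖UT e (gv G x r) r w‖ := Complex.abs_re_le_norm _
      have h3 := neg_abs_le (UT e (gv G x r) r w).re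
      linarith
  by_cases him : r.im = 0
  · have hrr : r = ((r.re : ℝ) : ℂ) := by
      apply Complex.ext <;> simp [him]
    have hgr : gv G x r = fun j => (((sec (G j) x).eval r.re : ℝ) : ℂ) := by
      rw [← gv_real14 G x r.re, ← hrr]
    have hev : (sec f x).eval r.re = 0 := by
      have h := Polynomial.aeval_algebraMap_apply ℂ r.re (sec f x)
      rw [Complex.coe_algebraMap, ← hrr, hr, Polynomial.coe_aeval_eq_eval] at h
      exact_mod_cast h.symm
    by_cases hpos : ∀ j, 0 < (sec (G j) x).eval r.re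
    · obtain ⟨u, hu1, hu2, hu3, hu4, -⟩ := UT_good he (fun j => (sec (G j) x).eval r.re) hpos
        r.re (hs r.re hev hpos)
      have hUT : UT e (gv G x r) r = fun w => ((u w : ℝ) : ℂ) := by
        funext w
        rw [hgr, hrr]
        simpa using hu1 w
      rw [hUT]
      refine ⟨hu3.ofReal, ?_, fun w => ?_⟩
      · rw [if_pos ⟨him, hpos⟩, ← hu4]
        exact integral_ofReal
      · have h1 := hu2 w
        have h2 : 0 ≤ 25 * e / (1 + w ^ 2) := by positivity
        simp only [Complex.ofReal_re]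
        linarith
    · refine bad (Or.inr ⟨him, fun j => ⟨?_, (hab3 j).2 him⟩, ?_⟩) (fun h => hpos h.2)
      · rw [hgr]
        simp
      · push Not at hpos
        obtain ⟨j, hj⟩ := hpos
        refine ⟨j, ?_⟩
        have h1 := (hab3 j).2 him
        rw [hgr] at h1 ⊢
        simp only [Complex.normSq_ofReal, Complex.ofReal_re] at h1 ⊢
        rcases lt_or_eq_of_le hj with h2 | h2
        · exact h2
        · exfalso
          rw [h2] at h1
          have h3 : 0 < e ^ 4 := by positivity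
          linarith
  · exact bad (Or.inl ⟨him, hab2 him⟩) (fun h => him h.1)

theorem RR_fib (f : MvPolynomial (Fin (n + 1)) ℚ) (G : Fin K → MvPolynomial (Fin (n + 1)) ℚ)
    (E d : ℕ) (ε : (Fin n → ℝ) → ℝ) (x : Fin n → ℝ)
    (hA : (Fin.cons (ε x) x : Fin (n + 1) → ℝ) ∈ Adm f G E) (h0 : sec f x ≠ 0)
    (h1 : ∀ r : ℂ, Polynomial.aeval r (sec f x) = 0 →
      Polynomial.aeval r (Polynomial.derivative (sec f x)) ≠ 0)
    (hd : (rts f x).card ≤ d)
    (hs : ∀ r : ℝ, (sec f x).eval r = 0 → (∀ j, 0 < (sec (G j) x).eval r) → 0 ≤ r) :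
    Integrable (fun w : ℝ => RRf f G ε (Fin.cons w x)) ∧
      ∫ w : ℝ, RRf f G ε (Fin.cons w x) = ((Real.pi * LL f G x : ℝ) : ℂ) ∧
      ∀ w : ℝ, -(25 * d * ε x / (1 + w ^ 2)) ≤ (RRf f G ε (Fin.cons w x)).re := by
  classical
  have hm0 : (sec f x).map (algebraMap ℝ ℂ) ≠ 0 :=
    (Polynomial.map_ne_zero_iff (algebraMap ℝ ℂ).injective).2 h0
  have hmem : ∀ r : ℂ, r ∈ rts f x ↔ Polynomial.aeval r (sec f x) = 0 := by
    intro r
    unfold rts
    rw [Polynomial.mem_roots hm0, Polynomial.IsRoot.def, Polynomial.eval_map_algebraMap]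
  have hnd : (rts f x).Nodup := by
    rw [Multiset.nodup_iff_count_le_one]
    intro r
    by_contra hc
    have hc' : 1 < Polynomial.rootMultiplicity r ((sec f x).map (algebraMap ℝ ℂ)) := by
      rw [← Polynomial.count_roots]
      exact not_le.1 hc
    obtain ⟨ha, hb⟩ := (Polynomial.one_lt_rootMultiplicity_iff_isRoot hm0).1 hc'
    rw [Polynomial.derivative_map, Polynomial.IsRoot.def, Polynomial.eval_map_algebraMap] at hb
    rw [Polynomial.IsRoot.def, Polynomial.eval_map_algebraMap] at ha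
    exact h1 r ha hb
  set R : Finset ℂ := (rts f x).toFinset with hR
  have hRm : ∀ r : ℂ, r ∈ R ↔ Polynomial.aeval r (sec f x) = 0 := by
    intro r
    rw [hR, Multiset.mem_toFinset]
    exact hmem r
  have hfun : (fun w : ℝ => RRf f G ε (Fin.cons w x)) =
      fun w => ∑ r ∈ R, UT (ε x) (gv G x r) r w := by
    funext w
    have htl : tl (Fin.cons w x : Fin (n + 1) → ℝ) = x := by
      funext j
      simp [tl]
    unfold RRf
    rw [htl, hR, Finset.sum, Multiset.toFinset_val, hnd.dedup]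
    simp
  have hroot := fun r (hr : r ∈ R) => root14 f G E (ε x) x hA hs r ((hRm r).1 hr)
  have he : 0 < ε x := by
    have := hA.1.1
    simpa using this
  have hfw : ∀ w : ℝ, RRf f G ε (Fin.cons w x) = ∑ r ∈ R, UT (ε x) (gv G x r) r w :=
    fun w => congrFun hfun w
  rw [hfun]
  refine ⟨integrable_finsetSum _ fun r hr => (hroot r hr).1, ?_, fun w => ?_⟩
  · rw [integral_finsetSum _ fun r hr => (hroot r hr).1,
      Finset.sum_congr rfl fun r hr => (hroot r hr).2.1, ← Complex.ofReal_sum,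
      ← Finset.mul_sum]
    congr 2
    unfold LL
    have himg : R.filter (fun r => r.im = 0) =
        (sec f x).roots.toFinset.image (fun a : ℝ => (a : ℂ)) := by
      ext r
      simp only [Finset.mem_filter, Finset.mem_image, Multiset.mem_toFinset, hRm]
      constructor
      · rintro ⟨ha, hb⟩
        have hrr : r = ((r.re : ℝ) : ℂ) := by
          apply Complex.ext <;> simp [hb]
        refine ⟨r.re, ?_, hrr.symm⟩
        rw [Polynomial.mem_roots h0, Polynomial.IsRoot.def]
        have h := Polynomial.aeval_algebraMap_apply ℂ r.re (sec f x)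
        rw [Complex.coe_algebraMap, ← hrr, ha, Polynomial.coe_aeval_eq_eval] at h
        exact_mod_cast h.symm
      · rintro ⟨a, ha, rfl⟩
        rw [Polynomial.mem_roots h0, Polynomial.IsRoot.def] at ha
        refine ⟨?_, by simp⟩
        have h := Polynomial.aeval_algebraMap_apply ℂ a (sec f x)
        rw [Complex.coe_algebraMap, Polynomial.coe_aeval_eq_eval, ha] at h
        simpa using h
    have hstep : ∑ r ∈ R, (if r.im = 0 ∧ ∀ j, 0 < (sec (G j) x).eval r.re then r.re else 0) =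
        ∑ r ∈ R.filter (fun r => r.im = 0),
          (if ∀ j, 0 < (sec (G j) x).eval r.re then r.re else 0) := by
      rw [Finset.sum_filter]
      refine Finset.sum_congr rfl fun r _ => ?_
      by_cases hb : r.im = 0 <;> simp [hb]
    rw [hstep, himg, Finset.sum_image (fun a _ b _ hab => Complex.ofReal_injective hab)]
    refine Finset.sum_congr rfl fun a _ => ?_
    simp
  · rw [hfw, Complex.re_sum]
    have hcard : (R.card : ℝ) ≤ d := by
      have := Multiset.toFinset_card_le (rts f x)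
      exact_mod_cast this.trans hd
    have hpos : 0 ≤ 25 * ε x / (1 + w ^ 2) := by positivity
    calc -(25 * d * ε x / (1 + w ^ 2)) = -((d : ℝ) * (25 * ε x / (1 + w ^ 2))) := by ring
      _ ≤ -((R.card : ℝ) * (25 * ε x / (1 + w ^ 2))) :=
          neg_le_neg (mul_le_mul_of_nonneg_right hcard hpos)
      _ = ∑ r ∈ R, -(25 * ε x / (1 + w ^ 2)) := by
          rw [Finset.sum_const, nsmul_eq_mul]
          ring
      _ ≤ ∑ r ∈ R, (UT (ε x) (gv G x r) r w).re :=
          Finset.sum_le_sum fun r hr => (hroot r hr).2.2 w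

end Pool.Agent.WSP
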