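import Pool.Agent.W_2cf66e_P.DefsP

/-!
# MP_2cf66e_nt, theorem P, leaf P9: the room (helper57)
-/

set_option autoImplicit false

noncomputable section

open MeasureTheory Set Filter Topology

namespace Pool.Agent.WSP

variable {n : ℕ}

theorem cauchy_int57 (X : ℝ) :
    Integrable (fun w : ℝ => X ^ 2 / (1 + X ^ 2 * w ^ 2)) ∧
      ∫ w : ℝ, X ^ 2 / (1 + X ^ 2 * w ^ 2) = Real.pi * |X| := by
  by_cases hX : X = 0
  · subst hX
    simp
  have h1 : (fun w : ℝ => X ^ 2 / (1 + X ^ 2 * w ^ 2)) =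
      fun w : ℝ => X ^ 2 * (1 + (X * w) ^ 2)⁻¹ := by
    funext w
    rw [div_eq_mul_inv, mul_pow]
  rw [h1]
  refine ⟨(integrable_inv_one_add_sq.comp_mul_left' hX).const_mul _, ?_⟩
  rw [integral_const_mul, Measure.integral_comp_mul_left (fun y : ℝ => (1 + y ^ 2)⁻¹) X,
    integral_univ_inv_one_add_sq, smul_eq_mul, abs_inv]
  have h2 : |X| ≠ 0 := abs_ne_zero.2 hX
  rw [← sq_abs X]
  field_simp

theorem half_int57 : Integrable (fun t : ℝ => |t| / (1 + t ^ 2) ^ 2) ∧
    ∫ t : ℝ, |t| / (1 + t ^ 2) ^ 2 = 1 := by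
  constructor
  · refine Integrable.mono' integrable_inv_one_add_sq ?_ (Eventually.of_forall fun t => ?_)
    · refine Continuous.aestronglyMeasurable ?_
      exact continuous_abs.div (by fun_prop) fun t => by positivity
    · rw [Real.norm_of_nonneg (by positivity), div_le_iff₀ (by positivity)]
      have h1 : |t| ≤ 1 + t ^ 2 := by nlinarith [sq_abs t, sq_nonneg (|t| - 1), abs_nonneg t]
      have h2 : (1 + t ^ 2)⁻¹ * (1 + t ^ 2) ^ 2 = 1 + t ^ 2 := by
        have : (1 + t ^ 2) ≠ 0 := by positivity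
        field_simp
      rw [h2]
      exact h1
  · have h1 : (fun t : ℝ => |t| / (1 + t ^ 2) ^ 2) =
        fun t : ℝ => (fun s : ℝ => s / (1 + s ^ 2) ^ 2) |t| := by
      funext t
      simp only [sq_abs]
    rw [h1, integral_comp_abs (f := fun s : ℝ => s / (1 + s ^ 2) ^ 2)]
    have h2 : ∀ x ∈ Ici (0 : ℝ), HasDerivAt (fun s : ℝ => -(1 / 2) * (1 + s ^ 2)⁻¹)
        (x / (1 + x ^ 2) ^ 2) x := by
      intro x _
      have h3 : HasDerivAt (fun s : ℝ => 1 + s ^ 2) (2 * x) x := by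
        simpa using (hasDerivAt_pow 2 x).const_add 1
      have h4 := (h3.inv (by positivity)).const_mul (-(1 / 2))
      refine h4.congr_deriv ?_
      have : (1 + x ^ 2) ≠ 0 := by positivity
      field_simp
    have h5 : Tendsto (fun s : ℝ => -(1 / 2) * (1 + s ^ 2)⁻¹) atTop (𝓝 0) := by
      have h6 : Tendsto (fun s : ℝ => 1 + s ^ 2) atTop atTop :=
        tendsto_atTop_add_const_left _ _ (tendsto_pow_atTop two_ne_zero)
      simpa using h6.inv_tendsto_atTop.const_mul (-(1 / 2 : ℝ))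
    rw [integral_Ioi_of_hasDerivAt_of_nonneg' h2 (fun x hx => by
      have : (0 : ℝ) < x := hx
      positivity) h5]
    norm_num

theorem R0_room : RF (R0 (n := n)) ∧ (∀ z : Fin (n + 1) → ℝ, 0 ≤ R0 z) ∧
    (∀ (x : Fin n → ℝ) (w : ℝ), eta x / (1 + w ^ 2) ≤ R0 (Fin.cons w x : Fin (n + 1) → ℝ)) ∧
    Integrable (R0 (n := n)) ∧ ∫ z, R0 (n := n) z = Real.pi := by
  have hP : ∀ x : Fin n → ℝ, 0 < ∏ j, (1 + (x j) ^ 2) := fun x =>
    Finset.prod_pos fun j _ => by positivity
  refine ⟨?_, fun z => ?_, fun x w => ?_, ?_⟩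
  · unfold R0
    have h1 : RF (fun z : Fin (n + 1) → ℝ => ∏ j, tl z j) :=
      RF.prod Finset.univ (f := fun j z => tl z j) fun j => RF.var j.succ
    have h2 : RF (fun z : Fin (n + 1) → ℝ => ∏ j, (1 + (tl z j) ^ 2)) := by
      refine RF.prod Finset.univ (f := fun j z => 1 + (tl z j) ^ 2) fun j => ?_
      have := (RF.const (ι := Fin (n + 1)) 1).add ((RF.var j.succ).pow 2)
      simpa [tl] using this
    have h3 : RF (fun z : Fin (n + 1) → ℝ => 1 + (∏ j, tl z j) ^ 2 * (z 0) ^ 2) := by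
      have := (RF.const (ι := Fin (n + 1)) 1).add ((h1.pow 2).mul ((RF.var 0).pow 2))
      simpa using this
    refine (h1.pow 2).div (h3.mul (h2.pow 2)) fun z => ?_
    have := hP (tl z)
    positivity
  · unfold R0
    have := hP (tl z)
    positivity
  · have e : tl (Fin.cons w x : Fin (n + 1) → ℝ) = x := by
      funext j
      simp [tl]
    unfold R0 eta
    rw [e, Fin.cons_zero, div_div]
    have h1 := hP x
    refine div_le_div_of_nonneg_left (sq_nonneg _) (by positivity) ?_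
    have h2 : 0 ≤ (∏ j, x j) ^ 2 := sq_nonneg _
    have h3 : 1 + (∏ j, x j) ^ 2 * w ^ 2 ≤ (1 + (∏ j, x j) ^ 2) * (1 + w ^ 2) := by
      nlinarith [sq_nonneg w]
    calc (1 + (∏ j, x j) ^ 2 * w ^ 2) * (∏ j, (1 + (x j) ^ 2)) ^ 2 ≤
        ((1 + (∏ j, x j) ^ 2) * (1 + w ^ 2)) * (∏ j, (1 + (x j) ^ 2)) ^ 2 :=
          mul_le_mul_of_nonneg_right h3 (by positivity)
      _ = _ := by ring
  · have e := volume_preserving_piFinSuccAbove (fun _ : Fin (n + 1) => ℝ) 0
    set f : ℝ × (Fin n → ℝ) → ℝ := fun p =>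
      (∏ j, p.2 j) ^ 2 / ((1 + (∏ j, p.2 j) ^ 2 * p.1 ^ 2) * (∏ j, (1 + (p.2 j) ^ 2)) ^ 2) with hf
    have hfe : (R0 (n := n)) = f ∘ (MeasurableEquiv.piFinSuccAbove (fun _ : Fin (n + 1) => ℝ) 0) := by
      funext z
      simp only [hf, Function.comp, MeasurableEquiv.piFinSuccAbove_apply, R0, tl]
      rfl
    have hfc : Continuous f := by
      simp only [hf]
      refine Continuous.div (by fun_prop) (by fun_prop) fun p => ?_
      have := hP p.2
      positivity
    have hf0 : ∀ p, 0 ≤ f p := fun p => by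
      have := hP p.2
      simp only [hf]
      positivity
    have hr : ∀ x : Fin n → ℝ, Integrable (fun b : ℝ => f (b, x)) ∧
        ∫ b : ℝ, f (b, x) = Real.pi * ∏ j, (|x j| / (1 + (x j) ^ 2) ^ 2) := fun x => by
      have h1 : (fun b : ℝ => f (b, x)) = fun b : ℝ =>
          (∏ j, x j) ^ 2 / (1 + (∏ j, x j) ^ 2 * b ^ 2) * ((∏ j, (1 + (x j) ^ 2)) ^ 2)⁻¹ := by
        funext b
        simp only [hf]
        rw [← div_eq_mul_inv, div_div]
      rw [h1]
      refine ⟨(cauchy_int57 _).1.mul_const _, ?_⟩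
      rw [integral_mul_const, (cauchy_int57 _).2, Finset.prod_div_distrib, Finset.prod_pow,
        Finset.abs_prod]
      ring
    have hpi : Integrable (fun x : Fin n → ℝ => ∏ j, (|x j| / (1 + (x j) ^ 2) ^ 2)) :=
      Integrable.fintype_prod (fun _ => half_int57.1)
    have hpv : ∫ x : Fin n → ℝ, ∏ j, (|x j| / (1 + (x j) ^ 2) ^ 2) = 1 := by
      rw [integral_fintype_prod_volume_eq_prod
        (f := fun _ : Fin n => fun t : ℝ => |t| / (1 + t ^ 2) ^ 2)]
      simp [half_int57.2]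
    have hI : Integrable f := by
      have h1 : Integrable f (volume.prod volume) ↔
        (∀ᵐ z : Fin n → ℝ, Integrable (fun b : ℝ => f (b, z))) ∧
          Integrable (fun z : Fin n → ℝ => ∫ b : ℝ, ‖f (b, z)‖) :=
        integrable_prod_iff' hfc.aestronglyMeasurable
      refine h1.2 ⟨Eventually.of_forall fun x => (hr x).1, ?_⟩
      refine (hpi.const_mul Real.pi).congr (Eventually.of_forall fun x => ?_)
      simp only
      rw [← (hr x).2]
      refine integral_congr_ae (Eventually.of_forall fun b => ?_)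
      exact (Real.norm_of_nonneg (hf0 _)).symm
    rw [hfe]
    refine ⟨(e.integrable_comp_emb (MeasurableEquiv.measurableEmbedding _)).2 hI, ?_⟩
    have h2 : ∫ z, (f ∘ (MeasurableEquiv.piFinSuccAbove (fun _ : Fin (n + 1) => ℝ) 0)) z =
        ∫ p, f p := e.integral_comp (MeasurableEquiv.measurableEmbedding _) f
    rw [h2]
    have h3 : ∫ p, f p = ∫ z : Fin n → ℝ, ∫ b : ℝ, f (b, z) := integral_prod_symm f hI
    rw [h3]
    simp only [(hr _).2]
    rw [integral_const_mul, hpv, mul_one]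

end Pool.Agent.WSP
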