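import Pool.Agent.W_2cf66e_P.LpF
import Pool.Agent.W_2cf66e_P.LpG
import Pool.Agent.W_2cf66e_P.LpH
import Pool.Agent.W_2cf66e_P.LpI
import Pool.Agent.W_2cf66e_P.LpJ
import Pool.Agent.W_2cf66e_h23.MainA

/-!
# MP_2cf66e_nt, theorem P: the core (helper23)
-/

set_option autoImplicit false

noncomputable section

open MeasureTheory Set Filter Topology

namespace Pool.Agent.WSP

variable {n K : ℕ}

theorem ae_of_fib {q : (Fin (n + 1) → ℝ) → Prop} (hm : MeasurableSet {z | q z})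
    (h : ∀ᵐ x : Fin n → ℝ, ∀ᵐ w : ℝ, q (Fin.cons w x)) : ∀ᵐ z : Fin (n + 1) → ℝ, q z := by
  have h3 : MeasurePreserving (EE n).symm
    ((volume : Measure (Fin n → ℝ)).prod (volume : Measure ℝ)) volume := (EE_mp n).symm
  have hm2 : MeasurableSet ((EE n).symm ⁻¹' {z | q z}) := (EE n).symm.measurable hm
  have h4 : ∀ᵐ p : (Fin n → ℝ) × ℝ ∂((volume : Measure (Fin n → ℝ)).prod (volume : Measure ℝ)),
      p ∈ (EE n).symm ⁻¹' {z | q z} := by
    rw [Measure.ae_prod_mem_iff_ae_ae_mem hm2]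
    filter_upwards [h] with x hx
    filter_upwards [hx] with w hw
    simp only [mem_preimage, EE_symm]
    exact hw
  have h5 := (EE_mp n).quasiMeasurePreserving.ae h4
  filter_upwards [h5] with z hz
  simp only [mem_preimage, MeasurableEquiv.symm_apply_apply] at hz
  exact hz

theorem fub_left {G : (Fin (n + 1) → ℝ) → ℝ} (hG : Integrable G) :
    (∀ᵐ x : Fin n → ℝ, Integrable (fun w : ℝ => G (Fin.cons w x))) ∧
      Integrable (fun x : Fin n → ℝ => ∫ w : ℝ, G (Fin.cons w x)) ∧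
      ∫ z, G z = ∫ x : Fin n → ℝ, ∫ w : ℝ, G (Fin.cons w x) := by
  have h3 : MeasurePreserving (EE n).symm
    ((volume : Measure (Fin n → ℝ)).prod (volume : Measure ℝ)) volume := (EE_mp n).symm
  have hi : Integrable (fun p : (Fin n → ℝ) × ℝ => G ((EE n).symm p))
      ((volume : Measure (Fin n → ℝ)).prod (volume : Measure ℝ)) :=
    (h3.integrable_comp_emb (EE n).symm.measurableEmbedding).2 hG
  refine ⟨?_, ?_, ?_⟩
  · have := hi.prod_right_ae
    simp only [EE_symm] at this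
    exact this
  · have := hi.integral_prod_left
    simp only [EE_symm] at this
    exact this
  · rw [← h3.integral_comp (EE n).symm.measurableEmbedding, integral_prod _ hi]
    simp only [EE_symm]

theorem pos_core (f : MvPolynomial (Fin (n + 1)) ℚ) (hf : GenS f)
    (G : Fin K → MvPolynomial (Fin (n + 1)) ℚ)
    (hG : ∀ᵐ x : Fin n → ℝ, ∀ r : ℝ, (sec f x).eval r = 0 → ∀ j, (sec (G j) x).eval r ≠ 0)
    (hs : ∀ᵐ x : Fin n → ℝ, ∀ r : ℝ, (sec f x).eval r = 0 →
      (∀ j, 0 < (sec (G j) x).eval r) → 0 ≤ r)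
    (hL : Integrable (LL f G)) (ρ : ℚ) (hρ : 0 < ρ) :
    PI (n + 1) ((∫ x, LL f G x) + ρ) := by
  obtain ⟨d, hd⟩ : ∃ d, ∀ x, (rts f x).card ≤ d := ⟨_, rts_card f⟩
  have hρr : (0 : ℝ) < ρ := by exact_mod_cast hρ
  obtain ⟨E, hE⟩ := exists_nat_ge (25 * d / (ρ : ℝ))
  obtain ⟨ε, hε, hA⟩ := adm_eps f hf G E hG
  obtain ⟨g, hg, hgz⟩ := RR_ar f hf G E ε hε hA hs
  obtain ⟨hR, hR0, hRl, hRi, hRv⟩ := R0_room (n := n)
  have hAR : AR (fun z => (ρ : ℝ) * R0 z + g z) :=
    (AR.ofRF ((RF.const ρ).mul hR)).add hg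
  obtain ⟨P, Q, hQ, hPQ⟩ := id hAR
  obtain ⟨F, hF⟩ : ∃ F : (Fin (n + 1) → ℝ) → ℝ, F = fun z =>
    (MvPolynomial.aeval z P : ℝ) / MvPolynomial.aeval z Q := ⟨_, rfl⟩
  have hFm : Measurable F := by
    rw [hF]
    exact (meas_aeval P).div (meas_aeval Q)
  have hFg : ∀ᵐ z : Fin (n + 1) → ℝ, F z = (ρ : ℝ) * R0 z + g z := by
    filter_upwards [hPQ] with z hz
    rw [hF, hz]
  obtain ⟨hf1, hf2, hf3⟩ := fub_left hRi
  have hfib : ∀ᵐ x : Fin n → ℝ, Integrable (fun w : ℝ => F (Fin.cons w x)) ∧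
      (∫ w : ℝ, F (Fin.cons w x) = (ρ : ℝ) * (∫ w : ℝ, R0 (Fin.cons w x : Fin (n + 1) → ℝ)) +
        Real.pi * LL f G x) ∧ ∀ᵐ w : ℝ, 0 ≤ F (Fin.cons w x) := by
    filter_upwards [ae_sec hgz, ae_sec hFg, hf, hA, hs, hf1] with x h1 h2 h3 h4 h5 h6
    obtain ⟨h7, h8, h9⟩ := RR_fib f G E d ε x h4 h3.1 h3.2 (hd x) h5
    have h10 : Integrable (fun w : ℝ => ((g (Fin.cons w x) : ℝ) : ℂ)) := h7.congr h1
    have h11 : Integrable (fun w : ℝ => g (Fin.cons w x)) := by
      have := h10.re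
      simpa using this
    have h12 : ∫ w : ℝ, g (Fin.cons w x) = Real.pi * LL f G x := by
      rw [integral_congr_ae h1] at h8
      have e1 := integral_ofReal (μ := (volume : Measure ℝ)) (𝕜 := ℂ)
        (f := fun w : ℝ => g (Fin.cons w x))
      have e2 : ((∫ w : ℝ, g (Fin.cons w x) : ℝ) : ℂ) = ((Real.pi * LL f G x : ℝ) : ℂ) :=
        e1.symm.trans h8
      exact Complex.ofReal_injective e2
    refine ⟨((h6.const_mul (ρ : ℝ)).add h11).congr ?_, ?_, ?_⟩
    · filter_upwards [h2] with w hw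
      rw [hw]
      rfl
    · rw [integral_congr_ae h2, integral_add (h6.const_mul (ρ : ℝ)) h11, integral_const_mul, h12]
    · filter_upwards [h1, h2] with w hw1 hw2
      rw [hw2]
      have h13 := h9 w
      rw [hw1, Complex.ofReal_re] at h13
      have h14 := hRl x w
      obtain ⟨⟨h15, -⟩, h16, -⟩ := h4
      simp only [Fin.cons_zero, tl_cons] at h15 h16
      have h17 : (0 : ℝ) < 1 + w ^ 2 := by positivity
      have h18 : 25 * (d : ℝ) * ε x ≤ ρ * eta x := by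
        have h19 : 25 * (d : ℝ) ≤ E * ρ := by
          rwa [div_le_iff₀ hρr] at hE
        calc 25 * (d : ℝ) * ε x ≤ E * ρ * ε x := mul_le_mul_of_nonneg_right h19 h15.le
          _ = ρ * (E * ε x) := by ring
          _ ≤ ρ * eta x := mul_le_mul_of_nonneg_left h16 hρr.le
      have h20 : 25 * (d : ℝ) * ε x / (1 + w ^ 2) ≤ ρ * (eta x / (1 + w ^ 2)) := by
        rw [← mul_div_assoc]
        exact div_le_div_of_nonneg_right h18 h17.le
      have h21 := mul_le_mul_of_nonneg_left h14 hρr.le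
      linarith
  have hpos : ∀ᵐ z : Fin (n + 1) → ℝ, 0 ≤ F z := by
    refine ae_of_fib (measurableSet_le measurable_const hFm) ?_
    filter_upwards [hfib] with x hx
    exact hx.2.2
  obtain ⟨hFi, hFv⟩ := fub_integrable hFm (hfib.mono fun x hx => hx.1)
    (b := fun x => (ρ : ℝ) * (∫ w : ℝ, R0 (Fin.cons w x : Fin (n + 1) → ℝ)) +
        Real.pi * LL f G x) ((hf2.const_mul (ρ : ℝ)).add (hL.const_mul Real.pi)) (by
      filter_upwards [hfib] with x hx
      rw [← hx.2.1]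
      refine (integral_congr_ae ?_).le
      filter_upwards [hx.2.2] with w hw
      exact Real.norm_of_nonneg hw)
  refine PI.of_ar (g := F) ⟨P, Q, hQ, Eventually.of_forall fun z => by rw [hF]⟩ hpos hFi ?_
  rw [hFv, integral_congr_ae (hfib.mono fun x hx => hx.2.1),
    integral_add (hf2.const_mul (ρ : ℝ)) (hL.const_mul Real.pi), integral_const_mul,
    integral_const_mul, ← hf3, hRv]
  ring

end Pool.Agent.WSP
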