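import Pool.Agent.W_2cf66e_P.DefsP

/-!
# MP_2cf66e_nt, theorem P, leaf P12: sign patterns of a semialgebraic set (helper64)
-/

set_option autoImplicit false

noncomputable section

open MeasureTheory Set Filter Topology

namespace Pool.Agent.WSP

theorem patterns {m : ℕ} (S : Set (Fin m → ℝ)) (hS : Pool.Agent.CVol.IsSA S) :
    ∃ (k : ℕ) (g : Fin k → MvPolynomial (Fin m) ℚ) (β : (Fin k → ℤˣ) → Prop), (∀ i, g i ≠ 0) ∧
      ∀ (z : Fin m → ℝ) (τ : Fin k → ℤˣ),
        (∀ i, 0 < ((τ i : ℤ) : ℝ) * MvPolynomial.aeval z (g i)) → (z ∈ S ↔ β τ) := by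
  induction hS with
  | pos p =>
    by_cases hp : p = 0
    · subst hp
      refine ⟨0, fun _ => 1, fun _ => False, fun i => i.elim0, fun z τ _ => ?_⟩
      constructor
      · intro hz
        have hz' : 0 < (MvPolynomial.aeval z (0 : MvPolynomial (Fin m) ℚ) : ℝ) := hz
        rw [map_zero] at hz'
        exact absurd hz' (lt_irrefl _)
      · exact False.elim
    · refine ⟨1, fun _ => p, fun τ => τ 0 = 1, fun _ => hp, fun z τ h => ?_⟩
      have h0 := h 0
      show z ∈ {x : Fin m → ℝ | 0 < (MvPolynomial.aeval x p : ℝ)} ↔ τ 0 = 1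
      rcases Int.units_eq_one_or (τ 0) with h1 | h1
      · rw [h1] at h0 ⊢
        have h2 : 0 < (MvPolynomial.aeval z p : ℝ) := by simpa using h0
        exact ⟨fun _ => rfl, fun _ => h2⟩
      · rw [h1] at h0 ⊢
        have h2 : (MvPolynomial.aeval z p : ℝ) < 0 := by simpa using h0
        constructor
        · intro hz
          have hz' : 0 < (MvPolynomial.aeval z p : ℝ) := hz
          linarith
        · intro h3
          exact absurd h3 (by decide)
  | compl _ ih =>
    obtain ⟨k, g, β, hg, h⟩ := ih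
    refine ⟨k, g, fun τ => ¬ β τ, hg, fun z τ hτ => ?_⟩
    rw [mem_compl_iff, h z τ hτ]
  | inter _ _ ih1 ih2 =>
    obtain ⟨k, g, β, hg, h⟩ := ih1
    obtain ⟨k', g', β', hg', h'⟩ := ih2
    refine ⟨k + k', Fin.append g g', fun τ => β (fun i => τ (Fin.castAdd k' i)) ∧
      β' (fun i => τ (Fin.natAdd k i)), fun i => ?_, fun z τ hτ => ?_⟩
    · refine Fin.addCases (fun a => ?_) (fun b => ?_) i
      · rw [Fin.append_left]
        exact hg a
      · rw [Fin.append_right]
        exact hg' b
    · have e1 := h z (fun i => τ (Fin.castAdd k' i)) (fun i => by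
        have := hτ (Fin.castAdd k' i)
        rwa [Fin.append_left] at this)
      have e2 := h' z (fun i => τ (Fin.natAdd k i)) (fun i => by
        have := hτ (Fin.natAdd k i)
        rwa [Fin.append_right] at this)
      rw [mem_inter_iff, e1, e2]

end Pool.Agent.WSP
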