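import Pool.Agent.W_2cf66e_P.DefsP
import Pool.Agent.W_2cf66e_h23.LfG

/-!
# MP_2cf66e_nt, theorem P, leaf P13: a generically separable polynomial with the same roots
(helper57)
-/

set_option autoImplicit false

noncomputable section

open MeasureTheory Set Filter Topology

namespace Pool.Agent.WSP

open LfG

theorem rad_alg57 {R : Type*} (K : Type*) [CommRing R] [IsDomain R] [Field K] [Algebra R K]
    [IsFractionRing R K] [CharZero R] (q : Polynomial R) (hq : q ≠ 0) :
    ∃ (f A B c : Polynomial R) (d : R) (N : ℕ), d ≠ 0 ∧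
      A * f + B * Polynomial.derivative f = Polynomial.C d ∧
      f ^ N * f = q * c := by
  classical
  have hinj : Function.Injective (algebraMap R K) := IsFractionRing.injective R K
  have hmi : Function.Injective (Polynomial.map (algebraMap R K)) := Polynomial.map_injective _ hinj
  have hch : CharZero K := charZero_of_injective_algebraMap hinj
  obtain ⟨Q, hQ⟩ : ∃ Q : Polynomial K, Q = q.map (algebraMap R K) := ⟨_, rfl⟩
  have hQ0 : Q ≠ 0 := by
    intro h
    exact hq (hmi (by rw [← hQ, h, Polynomial.map_zero]))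
  obtain ⟨b, hb⟩ : ∃ b, b = UniqueFactorizationMonoid.radical Q := ⟨_, rfl⟩
  have h2 : Squarefree b := by
    rw [hb]
    exact UniqueFactorizationMonoid.squarefree_radical
  have h3 : b.Separable := PerfectField.separable_iff_squarefree.2 h2
  obtain ⟨N, c, hN⟩ : ∃ N, Q ∣ b ^ N := by
    rw [hb]
    exact UniqueFactorizationMonoid.exists_dvd_radical_self_pow hQ0
  obtain ⟨A, B, hAB⟩ := h3
  obtain ⟨d2, b1, hd2, e2⟩ := clr R b
  obtain ⟨d3, A1, hd3, e3⟩ := clr R A
  obtain ⟨d4, B1, hd4, e4⟩ := clr R B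
  obtain ⟨d5, c1, hd5, e5⟩ := clr R c
  have e6 := congrArg Polynomial.derivative e2
  rw [Polynomial.derivative_map, Polynomial.derivative_C_mul] at e6
  have k1 : Polynomial.C d4 * A1 * b1 + Polynomial.C d3 * B1 * Polynomial.derivative b1 =
      Polynomial.C (d2 * d3 * d4) := by
    apply hmi
    simp only [Polynomial.map_mul, Polynomial.map_add, Polynomial.map_C, e6, e2, e3, e4, map_mul]
    linear_combination (Polynomial.C ((algebraMap R K) d2) * Polynomial.C ((algebraMap R K) d3) *
      Polynomial.C ((algebraMap R K) d4)) * hAB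
  have k2 : Polynomial.C d5 * b1 ^ N = Polynomial.C (d2 ^ N) * q * c1 := by
    apply hmi
    simp only [Polynomial.map_mul, Polynomial.map_pow, Polynomial.map_C, e2, e5, map_pow, ← hQ]
    rw [mul_pow, hN]
    ring
  refine ⟨Polynomial.C d5 * b1, Polynomial.C d4 * A1, Polynomial.C d3 * B1,
    Polynomial.C (d5 ^ N) * Polynomial.C (d2 ^ N) * c1 * b1, d2 * d3 * d4 * d5, N,
    ?_, ?_, ?_⟩
  · exact mul_ne_zero (mul_ne_zero (mul_ne_zero hd2 hd3) hd4) hd5
  · rw [Polynomial.derivative_C_mul, Polynomial.C_mul, ← k1]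
    ring
  · rw [mul_pow, map_pow]
    linear_combination (Polynomial.C d5 ^ N * b1) * k2

theorem gens_of57 {n : ℕ} (q A B : Polynomial (MvPolynomial (Fin n) ℚ))
    (d : MvPolynomial (Fin n) ℚ) (hd : d ≠ 0)
    (h : A * q + B * Polynomial.derivative q = Polynomial.C d) :
    GenS ((MvPolynomial.finSuccEquiv ℚ n).symm q) := by
  filter_upwards [ae_ne d hd] with x hx1
  have h2 : sec ((MvPolynomial.finSuccEquiv ℚ n).symm q) x = q.map (ev x) := by
    rw [sec_hom, AlgEquiv.apply_symm_apply]
  rw [h2]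
  refine ⟨fun h5 => ?_, fun r hr hr' => ?_⟩
  · have h6 := congrArg (fun f => Polynomial.map (ev x) f) h
    simp only [Polynomial.map_add, Polynomial.map_mul, Polynomial.map_C] at h6
    rw [← Polynomial.derivative_map, h5, Polynomial.derivative_zero, mul_zero, mul_zero,
      add_zero] at h6
    have h7 : (0 : ℝ) = ev x d := by
      have := congrArg (Polynomial.eval 0) h6
      simpa using this
    exact hx1 (by rw [← ev_apply]; exact h7.symm)
  · have h6 := congrArg (fun f => Polynomial.aeval r (Polynomial.map (ev x) f)) h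
    simp only [Polynomial.map_add, Polynomial.map_mul, map_add, map_mul, Polynomial.map_C,
      Polynomial.aeval_C] at h6
    rw [← Polynomial.derivative_map, hr, hr', mul_zero, mul_zero, add_zero] at h6
    apply hx1
    rw [← ev_apply]
    have h7 : ((ev x d : ℝ) : ℂ) = 0 := h6.symm
    exact_mod_cast h7

/-! P13 (LpM.lean): a generically separable polynomial with the same roots (squarefree `f` with
`p ∣ f ^ N`; `gen_alg'`, `gen_of` of LfG). -/
theorem rad_gen {n : ℕ} (p : MvPolynomial (Fin (n + 1)) ℚ) (hp : p ≠ 0) :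
    ∃ f : MvPolynomial (Fin (n + 1)) ℚ, GenS f ∧
      ∀ (x : Fin n → ℝ) (r : ℝ), (sec p x).eval r = 0 → (sec f x).eval r = 0 := by
  obtain ⟨e, he⟩ : ∃ e, e = MvPolynomial.finSuccEquiv ℚ n := ⟨_, rfl⟩
  have hq : e p ≠ 0 := fun h => hp (e.injective (by rw [h, map_zero]))
  obtain ⟨f, A, B, c, d, N, hd, h1, h2⟩ :=
    rad_alg57 (FractionRing (MvPolynomial (Fin n) ℚ)) (e p) hq
  refine ⟨e.symm f, by rw [he]; exact gens_of57 f A B d hd h1, fun x r hr => ?_⟩
  have k1 : sec (e.symm f) x = f.map (ev x) := by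
    rw [he, sec_hom, AlgEquiv.apply_symm_apply]
  have k2 : sec p x = (e p).map (ev x) := by
    rw [he, sec_hom]
  have h6 := congrArg (fun g => Polynomial.eval r (Polynomial.map (ev x) g)) h2
  simp only [Polynomial.map_mul, Polynomial.map_pow, Polynomial.eval_mul, Polynomial.eval_pow,
    ← k1, ← k2, hr, zero_mul] at h6
  have h7 : (sec (e.symm f) x).eval r ^ (N + 1) = 0 := by
    rw [pow_succ]
    exact h6
  exact pow_eq_zero_iff (Nat.succ_ne_zero N) |>.1 h7

end Pool.Agent.WSP
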