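import Pool.Agent.W_2cf66e_P.DefsP

/-!
# MP_2cf66e_nt, theorem P, leaf P14: shift by a rational function of the other coordinates
(helper31)
-/

set_option autoImplicit false

noncomputable section

open MeasureTheory Set Filter Topology

namespace Pool.Agent.WSP

variable {n K : ℕ}

theorem shift_aux31 (P Q : MvPolynomial (Fin n) ℚ)
    (hQ : ∀ z : Fin n → ℝ, (0 : ℝ) < MvPolynomial.aeval z Q) (g : MvPolynomial (Fin (n + 1)) ℚ) :
    ∃ (G : MvPolynomial (Fin (n + 1)) ℚ) (N : ℕ), ∀ (x : Fin n → ℝ) (y : ℝ),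
      (MvPolynomial.aeval (Fin.cons y x : Fin (n + 1) → ℝ) G : ℝ) =
        (MvPolynomial.aeval x Q : ℝ) ^ N *
          MvPolynomial.aeval (Fin.cons (y + MvPolynomial.aeval x P / MvPolynomial.aeval x Q) x :
            Fin (n + 1) → ℝ) g := by
  have hr : ∀ (R : MvPolynomial (Fin n) ℚ) (x : Fin n → ℝ) (y : ℝ),
      (MvPolynomial.aeval (Fin.cons y x : Fin (n + 1) → ℝ)
        (MvPolynomial.rename Fin.succ R) : ℝ) = MvPolynomial.aeval x R := by
    intro R x y
    rw [MvPolynomial.aeval_rename]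
    congr 1
  induction g using MvPolynomial.induction_on with
  | C a => exact ⟨MvPolynomial.C a, 0, fun x y => by simp⟩
  | add p q hp hq =>
    obtain ⟨G1, N1, h1⟩ := hp
    obtain ⟨G2, N2, h2⟩ := hq
    refine ⟨G1 * MvPolynomial.rename Fin.succ Q ^ N2 + G2 * MvPolynomial.rename Fin.succ Q ^ N1,
      N1 + N2, fun x y => ?_⟩
    rw [map_add, map_mul, map_mul, map_pow, map_pow, hr, h1, h2, map_add, pow_add]
    ring
  | mul_X p i hp =>
    obtain ⟨G, N, h⟩ := hp
    refine Fin.cases ?_ (fun j => ?_) i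
    · refine ⟨G * (MvPolynomial.X 0 * MvPolynomial.rename Fin.succ Q +
        MvPolynomial.rename Fin.succ P), N + 1, fun x y => ?_⟩
      rw [map_mul, map_add, map_mul, hr, hr, h, map_mul, MvPolynomial.aeval_X,
        MvPolynomial.aeval_X, Fin.cons_zero, Fin.cons_zero, pow_succ]
      have h0 := (hQ x).ne'
      field_simp
    · refine ⟨G * MvPolynomial.X j.succ, N, fun x y => ?_⟩
      rw [map_mul, h, map_mul, MvPolynomial.aeval_X, MvPolynomial.aeval_X, Fin.cons_succ,
        Fin.cons_succ]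
      ring

/-- Shift by a rational function of the other coordinates. -/
theorem shift_pol (g : MvPolynomial (Fin (n + 1)) ℚ) (δ : (Fin n → ℝ) → ℝ) (hδ : RF δ) :
    ∃ (G : MvPolynomial (Fin (n + 1)) ℚ) (m : (Fin n → ℝ) → ℝ), (∀ x, 0 < m x) ∧
      ∀ (x : Fin n → ℝ) (y : ℝ), (sec G x).eval y = m x * (sec g x).eval (y + δ x) := by
  obtain ⟨P, Q, hQ, hd⟩ := hδ
  obtain ⟨G, N, h⟩ := shift_aux31 P Q hQ g
  refine ⟨G, fun x => (MvPolynomial.aeval x Q : ℝ) ^ N, fun x => pow_pos (hQ x) N,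
    fun x y => ?_⟩
  rw [sec_eval, sec_eval, h, hd]

end Pool.Agent.WSP
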