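import Pool.Agent.W_2cf66e_P.LpL
import Pool.Agent.W_2cf66e_P.LpM
import Pool.Agent.W_2cf66e_P.LpN
import Pool.Agent.W_2cf66e_P.LpO
import Pool.Agent.W_2cf66e_h23.LuA12

/-!
# MP_2cf66e_nt, theorem P, leaf P16: the selection (helper31)
-/

set_option autoImplicit false

noncomputable section

open MeasureTheory Set Filter Topology

namespace Pool.Agent.WSP

variable {n K : ℕ}

theorem unit_pos31 (a : ℝ) (ha : a ≠ 0) : ∃ u : ℤˣ, 0 < ((u : ℤ) : ℝ) * a := by
  rcases lt_or_gt_of_ne ha with h | h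
  · exact ⟨-1, by simpa using h⟩
  · exact ⟨1, by simpa using h⟩

theorem sec_sgG31 (τ : Fin K → ℤˣ) (h : Fin K → MvPolynomial (Fin (n + 1)) ℚ) (j : Fin K)
    (x : Fin n → ℝ) (r : ℝ) :
    (sec (sgG τ h j) x).eval r = ((τ j : ℤ) : ℝ) * (sec (h j) x).eval r := by
  rw [sec_eval, sec_eval]
  unfold sgG
  rw [map_mul]
  simp

theorem mem_under31 {C : Set (Fin n → ℝ)} {c : (Fin n → ℝ) → ℝ} {x : Fin n → ℝ} {y : ℝ} :
    (Fin.cons y x : Fin (n + 1) → ℝ) ∈ under C c ↔ x ∈ C ∧ 0 < y ∧ y < c x := by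
  unfold under
  simp only [Set.mem_setOf_eq, tl_cons59, Fin.cons_zero]

/-- The boundary of the region is a root. -/
theorem bd_root31 (C : Set (Fin n → ℝ)) (c : (Fin n → ℝ) → ℝ) {k : ℕ}
    (g : Fin k → MvPolynomial (Fin (n + 1)) ℚ) (β : (Fin k → ℤˣ) → Prop)
    (hβ : ∀ (z : Fin (n + 1) → ℝ) (τ : Fin k → ℤˣ),
        (∀ i, 0 < ((τ i : ℤ) : ℝ) * MvPolynomial.aeval z (g i)) → (z ∈ under C c ↔ β τ))
    (x : Fin n → ℝ) (hx : x ∈ C) (hp : 0 < c x) :
    (sec (∏ i, g i) x).eval (c x) = 0 := by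
  by_contra h0
  rw [sec_eval, map_prod] at h0
  have h0' := Finset.prod_ne_zero_iff.1 h0
  choose τ hτ using fun i : Fin k => unit_pos31 _ (h0' i (Finset.mem_univ i))
  have hev : ∀ᶠ y in 𝓝 (c x), ∀ i, 0 < ((τ i : ℤ) : ℝ) * (sec (g i) x).eval y := by
    rw [Filter.eventually_all]
    intro i
    have hcont : Continuous fun y : ℝ => ((τ i : ℤ) : ℝ) * (sec (g i) x).eval y :=
      continuous_const.mul (Polynomial.continuous _)
    refine (hcont.tendsto (c x)).eventually (lt_mem_nhds ?_)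
    rw [sec_eval]
    exact hτ i
  obtain ⟨e, he, hb⟩ := Metric.eventually_nhds_iff.1 hev
  have hd : 0 < min (e / 2) (c x / 2) := lt_min (by linarith) (by linarith)
  have h1 : min (e / 2) (c x / 2) ≤ e / 2 := min_le_left _ _
  have h2 : min (e / 2) (c x / 2) ≤ c x / 2 := min_le_right _ _
  have hy1 := hb (y := c x - min (e / 2) (c x / 2)) (by
    rw [Real.dist_eq, abs_lt]; constructor <;> linarith)
  have hy2 := hb (y := c x + min (e / 2) (c x / 2)) (by
    rw [Real.dist_eq, abs_lt]; constructor <;> linarith)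
  simp only [sec_eval] at hy1 hy2
  have e1 := (hβ _ τ hy1).1 (mem_under31.2 ⟨hx, by linarith, by linarith⟩)
  have e2 := mem_under31.1 ((hβ _ τ hy2).2 e1)
  linarith [e2.2.2]

open scoped Classical in
/-- The selection. -/
theorem sel (C : Set (Fin n → ℝ)) (c : (Fin n → ℝ) → ℝ) (hC : DS C) (hc : DF c)
    (hpos : ∀ x ∈ C, 0 < c x) :
    ∃ (f : MvPolynomial (Fin (n + 1)) ℚ) (K : ℕ) (h : Fin K → MvPolynomial (Fin (n + 1)) ℚ)
      (B : Finset (Fin K → ℤˣ)), GenS f ∧ ∀ᵐ x : Fin n → ℝ,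
        (∀ r : ℝ, (sec f x).eval r = 0 → (∀ j, (sec (h j) x).eval r ≠ 0) ∧
          ((∃ τ ∈ B, ∀ j, 0 < (sec (sgG τ h j) x).eval r) ↔ x ∈ C ∧ r = c x)) ∧
        (x ∈ C → (sec f x).eval (c x) = 0) := by
  obtain ⟨k, g, β, hg0, hβ⟩ := patterns (under C c) (DS_isSA (DS_under59 hC hc))
  have hp : (∏ i, g i) ≠ 0 := Finset.prod_ne_zero_iff.2 fun i _ => hg0 i
  obtain ⟨f, hf, hroot⟩ := rad_gen (∏ i, g i) hp
  obtain ⟨δ, hδ, hae⟩ := shift_eps f hf g hg0 C c hC hc hpos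
  have hδ' : RF (fun x => -δ x) := by
    obtain ⟨P, Q, hQ, h⟩ := hδ
    exact ⟨-P, Q, hQ, fun z => by simp only [h z, map_neg, neg_div]⟩
  choose Gp mp hmp hGp using fun i : Fin k => shift_pol (g i) δ hδ
  choose Gm mm hmm hGm using fun i : Fin k => shift_pol (g i) (fun x => -δ x) hδ'
  refine ⟨f, k + k, Fin.append Gm Gp, Finset.univ.filter fun τ : Fin (k + k) → ℤˣ =>
    β (fun i => τ (Fin.castAdd k i)) ∧ ¬ β (fun i => τ (Fin.natAdd k i)), hf, ?_⟩
  filter_upwards [hae] with x hx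
  obtain ⟨hx0, hxC, hxr⟩ := hx
  -- the values
  have hL : ∀ (i : Fin k) (r : ℝ), (sec (Fin.append Gm Gp (Fin.castAdd k i)) x).eval r =
      mm i x * (sec (g i) x).eval (r - δ x) := by
    intro i r
    rw [Fin.append_left, hGm, sub_eq_add_neg]
  have hR : ∀ (i : Fin k) (r : ℝ), (sec (Fin.append Gm Gp (Fin.natAdd k i)) x).eval r =
      mp i x * (sec (g i) x).eval (r + δ x) := by
    intro i r
    rw [Fin.append_right, hGp]
  -- the patterns
  have hpat : ∀ (τ : Fin (k + k) → ℤˣ) (r : ℝ),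
      (∀ j, 0 < ((τ j : ℤ) : ℝ) * (sec (Fin.append Gm Gp j) x).eval r) →
      ((x ∈ C ∧ 0 < r - δ x ∧ r - δ x < c x) ↔ β (fun i => τ (Fin.castAdd k i))) ∧
      ((x ∈ C ∧ 0 < r + δ x ∧ r + δ x < c x) ↔ β (fun i => τ (Fin.natAdd k i))) := by
    intro τ r hτ
    constructor
    · rw [← mem_under31]
      refine hβ _ _ fun i => ?_
      have h1 := hτ (Fin.castAdd k i)
      rw [hL, mul_left_comm] at h1
      have h2 := pos_of_mul_pos_right h1 (hmm i x).le
      rwa [sec_eval] at h2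
    · rw [← mem_under31]
      refine hβ _ _ fun i => ?_
      have h1 := hτ (Fin.natAdd k i)
      rw [hR, mul_left_comm] at h1
      have h2 := pos_of_mul_pos_right h1 (hmp i x).le
      rwa [sec_eval] at h2
  constructor
  · intro r hr
    obtain ⟨hne, hdich⟩ := hxr r hr
    have hne' : ∀ j, (sec (Fin.append Gm Gp j) x).eval r ≠ 0 := by
      intro j
      refine Fin.addCases (fun i => ?_) (fun i => ?_) j
      · rw [hL]
        exact mul_ne_zero (hmm i x).ne' (hne i).2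
      · rw [hR]
        exact mul_ne_zero (hmp i x).ne' (hne i).1
    refine ⟨hne', ?_, ?_⟩
    · rintro ⟨τ, hτB, hτ⟩
      simp only [sec_sgG31] at hτ
      obtain ⟨hb1, hb2⟩ := hpat τ r hτ
      have hB := (Finset.mem_filter.1 hτB).2
      obtain ⟨h1, h2, h3⟩ := hb1.2 hB.1
      have h4 : ¬ (x ∈ C ∧ 0 < r + δ x ∧ r + δ x < c x) := fun h => hB.2 (hb2.1 h)
      have h5 : c x ≤ r + δ x := by
        by_contra h6
        exact h4 ⟨h1, by linarith, not_le.1 h6⟩
      refine ⟨h1, ?_⟩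
      rcases hdich with h | h
      · exact h
      · exfalso
        have : |r - c x| ≤ δ x := abs_le.2 ⟨by linarith, by linarith⟩
        linarith
    · rintro ⟨h1, rfl⟩
      choose τ hτ using fun j => unit_pos31 _ (hne' j)
      refine ⟨τ, ?_, fun j => by rw [sec_sgG31]; exact hτ j⟩
      obtain ⟨hb1, hb2⟩ := hpat τ (c x) hτ
      refine Finset.mem_filter.2 ⟨Finset.mem_univ _, hb1.1 ⟨h1, ?_, ?_⟩, fun h => ?_⟩
      · have := hxC h1
        linarith
      · linarith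
      · have := (hb2.2 h).2.2
        linarith
  · intro h
    exact hroot x (c x) (bd_root31 C c g β hβ x h (hpos x h))

end Pool.Agent.WSP
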