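import Pool.Agent.W_2cf66e_P.LpK
import Pool.Agent.W_2cf66e_P.LpQ
import Pool.Agent.W_2cf66e_h23.MainA
import Pool.Agent.W_2cf66e_h23.LuA2a

/-!
# MP_2cf66e_nt, theorem P: one cell (helper23)
-/

set_option autoImplicit false

noncomputable section

open MeasureTheory Set Filter Topology

namespace Pool.Agent.WSP

variable {n : ℕ}

theorem PI_zero (m : ℕ) : PI m 0 :=
  ⟨0, 1, fun z => by simp, by simp, by simp⟩

theorem PI_one : PI (n + 1) 1 := by
  obtain ⟨hR, hR0, -, hRi, hRv⟩ := R0_room (n := n)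
  exact PI.of_ar (AR.ofRF hR) (Eventually.of_forall hR0) hRi (by rw [hRv, mul_one])

theorem PI_rat (q : ℚ) (hq : 0 ≤ q) : PI (n + 1) (q : ℝ) := by
  have h := (PI_one (n := n)).smul q hq
  rwa [mul_one] at h

theorem PI_fsum {m : ℕ} {α : Type} (s : Finset α) (a : α → ℝ) (h : ∀ i ∈ s, PI m (a i)) :
    PI m (∑ i ∈ s, a i) := by
  classical
  induction s using Finset.induction_on with
  | empty =>
    rw [Finset.sum_empty]
    exact PI_zero m
  | insert i s hi ih =>
    rw [Finset.sum_insert hi]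
    exact (h i (Finset.mem_insert_self i s)).add
      (ih fun j hj => h j (Finset.mem_insert_of_mem hj))

theorem meas_consP {c : (Fin n → ℝ) → ℝ} (hc : Measurable c) :
    Measurable fun x : Fin n → ℝ => (Fin.cons (c x) x : Fin (n + 1) → ℝ) := by
  refine measurable_pi_lambda _ fun j => ?_
  refine Fin.cases ?_ (fun i => ?_) j
  · simpa using hc
  · simpa using measurable_pi_apply (X := fun _ : Fin n => ℝ) i

theorem sec_sgG {K : ℕ} (τ : Fin K → ℤˣ) (h : Fin K → MvPolynomial (Fin (n + 1)) ℚ) (j : Fin K)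
    (x : Fin n → ℝ) (r : ℝ) :
    (sec (sgG τ h j) x).eval r = ((τ j : ℤ) : ℝ) * (sec (h j) x).eval r := by
  rw [sec_eval, sec_eval]
  unfold sgG
  rw [map_mul, MvPolynomial.aeval_C]
  simp

theorem sel_unique {K : ℕ} {v : Fin K → ℝ} {τ τ' : Fin K → ℤˣ}
    (h1 : ∀ j, 0 < ((τ j : ℤ) : ℝ) * v j) (h2 : ∀ j, 0 < ((τ' j : ℤ) : ℝ) * v j) : τ = τ' := by
  funext j
  have h3 := h1 j
  have h4 := h2 j
  rcases Int.units_eq_one_or (τ j) with h | h <;> rcases Int.units_eq_one_or (τ' j) with h' | h' <;>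
    rw [h] at h3 <;> rw [h'] at h4 <;> rw [h, h']
  · exfalso
    simp only [Units.val_one, Units.val_neg, Int.cast_one, Int.cast_neg] at h3 h4
    linarith
  · exfalso
    simp only [Units.val_one, Units.val_neg, Int.cast_one, Int.cast_neg] at h3 h4
    linarith

theorem cell_pi (C : Set (Fin n → ℝ)) (c : (Fin n → ℝ) → ℝ) (hC : DS C) (hc : DF c)
    (hpos : ∀ x ∈ C, 0 < c x) (hi : IntegrableOn c C) (ρ : ℚ) (hρ : 0 < ρ) :
    PI (n + 1) ((∫ x in C, c x) + ρ) := by
  classical
  obtain ⟨f, K, h, B, hf, hx⟩ := sel C c hC hc hpos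
  have hCm : MeasurableSet C := hC.meas
  have hcm : Measurable c := hc.meas
  obtain ⟨W, hW⟩ : ∃ W : (Fin K → ℤˣ) → Set (Fin n → ℝ), W = fun τ =>
      {x | x ∈ C ∧ ∀ j, 0 < (sec (sgG τ h j) x).eval (c x)} := ⟨_, rfl⟩
  have hWm : ∀ τ, MeasurableSet (W τ) := by
    intro τ
    have h1 : ∀ j, MeasurableSet {x : Fin n → ℝ | 0 < (sec (sgG τ h j) x).eval (c x)} := by
      intro j
      simp only [sec_eval]
      exact measurableSet_lt measurable_const ((meas_aeval _).comp (meas_consP hcm))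
    have h2 : W τ = C ∩ ⋂ j, {x : Fin n → ℝ | 0 < (sec (sgG τ h j) x).eval (c x)} := by
      rw [hW]
      ext x
      simp
    rw [h2]
    exact hCm.inter (MeasurableSet.iInter h1)
  have hLL : ∀ τ ∈ B, ∀ᵐ x : Fin n → ℝ, LL f (sgG τ h) x = (W τ).indicator c x := by
    intro τ hτ
    filter_upwards [hx, hf] with x h1 h2
    unfold LL
    by_cases hxW : x ∈ W τ
    · rw [Set.indicator_of_mem hxW]
      have h3 : x ∈ C ∧ ∀ j, 0 < (sec (sgG τ h j) x).eval (c x) := by
        rw [hW] at hxW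
        exact hxW
      have h4 : (sec f x).eval (c x) = 0 := h1.2 h3.1
      rw [Finset.sum_eq_single (c x)]
      · rw [if_pos h3.2]
      · intro r hr hrc
        rw [Multiset.mem_toFinset, Polynomial.mem_roots h2.1] at hr
        rw [if_neg]
        intro h5
        exact hrc (((h1.1 r hr).2.1 ⟨τ, hτ, h5⟩).2)
      · intro h5
        exfalso
        apply h5
        rw [Multiset.mem_toFinset, Polynomial.mem_roots h2.1]
        exact h4
    · rw [Set.indicator_of_notMem hxW]
      refine Finset.sum_eq_zero fun r hr => ?_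
      rw [Multiset.mem_toFinset, Polynomial.mem_roots h2.1] at hr
      rw [if_neg]
      intro h5
      apply hxW
      have h6 := (h1.1 r hr).2.1 ⟨τ, hτ, h5⟩
      rw [hW]
      refine ⟨h6.1, ?_⟩
      rw [← h6.2]
      exact h5
  have hsum : ∀ᵐ x : Fin n → ℝ, C.indicator c x = ∑ τ ∈ B, (W τ).indicator c x := by
    filter_upwards [hx] with x h1
    by_cases hxC : x ∈ C
    · rw [Set.indicator_of_mem hxC]
      obtain ⟨τ, hτ, h3⟩ := (h1.1 (c x) (h1.2 hxC)).2.2 ⟨hxC, rfl⟩
      have hmem : x ∈ W τ := by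
        rw [hW]
        exact ⟨hxC, h3⟩
      rw [Finset.sum_eq_single_of_mem τ hτ, Set.indicator_of_mem hmem]
      intro τ' _ hne
      rw [Set.indicator_of_notMem]
      intro h4
      rw [hW] at h4
      apply hne
      refine sel_unique (v := fun j => (sec (h j) x).eval (c x)) ?_ ?_
      · intro j
        have := h4.2 j
        rwa [sec_sgG] at this
      · intro j
        have := h3 j
        rwa [sec_sgG] at this
    · rw [Set.indicator_of_notMem hxC, Finset.sum_eq_zero]
      intro τ _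
      rw [Set.indicator_of_notMem]
      intro h4
      rw [hW] at h4
      exact hxC h4.1
  have hiC : Integrable (C.indicator c) := (integrable_indicator_iff hCm).2 hi
  have hiW : ∀ τ, Integrable ((W τ).indicator c) := by
    intro τ
    rw [integrable_indicator_iff (hWm τ)]
    refine hi.mono_set ?_
    rw [hW]
    exact fun x hx => hx.1
  have hiL : ∀ τ ∈ B, Integrable (LL f (sgG τ h)) := fun τ hτ =>
    (hiW τ).congr ((hLL τ hτ).mono fun x hx => hx.symm)
  have hval : ∫ x in C, c x = ∑ τ ∈ B, ∫ x, LL f (sgG τ h) x := by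
    rw [← integral_indicator hCm, integral_congr_ae hsum, integral_finsetSum _ fun τ _ => hiW τ]
    exact Finset.sum_congr rfl fun τ hτ =>
      integral_congr_ae ((hLL τ hτ).mono fun x hx => hx.symm)
  have hcore : ∀ τ ∈ B, ∀ ρ' : ℚ, 0 < ρ' → PI (n + 1) ((∫ x, LL f (sgG τ h) x) + ρ') := by
    intro τ hτ ρ' hρ'
    refine pos_core f hf (sgG τ h) ?_ ?_ (hiL τ hτ) ρ' hρ'
    · filter_upwards [hx] with x h1 r hr j
      rw [sec_sgG]
      refine mul_ne_zero ?_ ((h1.1 r hr).1 j)
      exact_mod_cast (τ j).ne_zero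
    · filter_upwards [hx] with x h1 r hr h2
      obtain ⟨h3, h4⟩ := (h1.1 r hr).2.1 ⟨τ, hτ, h2⟩
      rw [h4]
      exact (hpos x h3).le
  rcases Finset.eq_empty_or_nonempty B with hB | hB
  · rw [hval, hB, Finset.sum_empty, zero_add]
    exact PI_rat ρ hρ.le
  · have hcard : 0 < B.card := Finset.card_pos.2 hB
    have hcq : (0 : ℚ) < B.card := by exact_mod_cast hcard
    have hcr : (B.card : ℝ) ≠ 0 := by exact_mod_cast hcard.ne'
    have e : (∫ x in C, c x) + (ρ : ℝ) =
        ∑ τ ∈ B, ((∫ x, LL f (sgG τ h) x) + ((ρ / B.card : ℚ) : ℝ)) := by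
      rw [Finset.sum_add_distrib, ← hval, Finset.sum_const, nsmul_eq_mul]
      push_cast
      field_simp
    rw [e]
    exact PI_fsum B _ fun τ hτ => hcore τ hτ _ (div_pos hρ hcq)

end Pool.Agent.WSP
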