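import Mathlib

/-!
# The substitution `u = 1 / (l w)` on the real line
-/

set_option autoImplicit false

noncomputable section

open MeasureTheory Set

namespace Pool.Agent.WSP

theorem inv_sub14 {l : ℝ} (hl : 0 < l) (F : ℝ → ℝ) :
    (Integrable (fun w : ℝ => F (1 / (l * w)) / (l * w ^ 2)) ↔ Integrable F) ∧
      ∫ w : ℝ, F (1 / (l * w)) / (l * w ^ 2) = ∫ u : ℝ, F u := by
  have hrest : (volume : Measure ℝ).restrict ({0}ᶜ : Set ℝ) = volume :=
    Measure.restrict_eq_self_of_ae_mem (compl_mem_ae_iff.2 (measure_singleton 0))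
  have hms : MeasurableSet ({0}ᶜ : Set ℝ) := (measurableSet_singleton 0).compl
  have hder : ∀ w ∈ ({0}ᶜ : Set ℝ), HasDerivWithinAt (fun w : ℝ => 1 / (l * w))
      (-(1 / (l * w ^ 2))) ({0}ᶜ : Set ℝ) w := by
    intro w hw
    have hw0 : w ≠ 0 := hw
    have h1 : HasDerivAt (fun w : ℝ => 1 / (l * w)) (-(1 / (l * w ^ 2))) w := by
      have h2 : HasDerivAt (fun w : ℝ => l * w) (l * 1) w := (hasDerivAt_id w).const_mul l
      have h3 := h2.inv (mul_ne_zero hl.ne' hw0)
      have h4 : (fun w : ℝ => 1 / (l * w)) = (fun w : ℝ => l * w)⁻¹ := by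
        funext v
        simp
      have hl0 := hl.ne'
      have h5 : -(1 / (l * w ^ 2)) = -(l * 1) / (l * w) ^ 2 := by
        rw [mul_one, mul_pow, neg_div, neg_inj]
        field_simp
      rw [h4, h5]
      exact h3
    exact h1.hasDerivWithinAt
  have hinj : InjOn (fun w : ℝ => 1 / (l * w)) ({0}ᶜ : Set ℝ) := by
    intro a ha b hb hab
    have ha0 : a ≠ 0 := ha
    have hb0 : b ≠ 0 := hb
    simp only [one_div] at hab
    have h1 := inv_injective hab
    exact mul_left_cancel₀ hl.ne' h1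
  have himg : (fun w : ℝ => 1 / (l * w)) '' ({0}ᶜ : Set ℝ) = ({0}ᶜ : Set ℝ) := by
    ext u
    constructor
    · rintro ⟨w, hw, rfl⟩
      have hw0 : w ≠ 0 := hw
      exact div_ne_zero one_ne_zero (mul_ne_zero hl.ne' hw0)
    · intro hu
      have hu0 : u ≠ 0 := hu
      refine ⟨1 / (l * u), div_ne_zero one_ne_zero (mul_ne_zero hl.ne' hu0), ?_⟩
      have hl0 := hl.ne'
      field_simp
  have habs : ∀ w ∈ ({0}ᶜ : Set ℝ), |-(1 / (l * w ^ 2))| • F (1 / (l * w)) =
      F (1 / (l * w)) / (l * w ^ 2) := by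
    intro w hw
    have h1 : 0 ≤ 1 / (l * w ^ 2) := by positivity
    rw [abs_neg, abs_of_nonneg h1, smul_eq_mul]
    ring
  constructor
  · have h1 := integrableOn_image_iff_integrableOn_abs_deriv_smul hms hder hinj F
    rw [himg, integrableOn_congr_fun habs hms] at h1
    unfold IntegrableOn at h1
    rw [hrest] at h1
    exact h1.symm
  · have h1 := integral_image_eq_integral_abs_deriv_smul hms hder hinj F
    rw [himg, setIntegral_congr_fun hms habs, hrest] at h1
    exact h1.symm

end Pool.Agent.WSP
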